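import Pool.Agent.H748.Hom.L2
import Pool.Agent.H748.Art.Fin2

/-!
# Groups detected by torsion-free nilpotent and torsion-free virtually abelian groups
-/

set_option autoImplicit false
set_option linter.unusedSectionVars false

namespace Pool.Agent.H748.Hom

open Matrix Polynomial Filter Pool.Agent.H748.Sig Pool.Agent.H748.Art

variable {G : Type} [Group G]
variable {ι : Type} [Fintype ι] [DecidableEq ι]

/-- the canonical trace for mixed groups -/
theorem mixed_l2 (hK : ∀ g : G, g ≠ 1 → g ∉ KU G ∨ Det {1} g)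
    {A : Matrix ι ι (MonoidAlgebra ℂ G)} {a b : ℝ}
    (ha : 0 < a) (hA : Herm A) (hg : GapA A a b) {P : ℝ[X]} {ε : ℝ} (hP : Appr P a b ε) :
    ‖tau (aeval A P) - (sig (aug A) : ℂ)‖ ≤ Fintype.card ι * ε := by
  classical
  set x := (aeval A P).trace with hx
  set F := (x.coeff.support.erase 1).filter (fun g => Det {1} g) with hF
  obtain ⟨t, i1, i2, τ, hτ, ht, -, hτS, hτA⟩ := exists_killer {1} F
    (fun s hs => (Finset.mem_filter.1 hs).2)
  have h1 := main_trace_aug ha (hA.tw hτ) (hg.tw hτ) hP
  have h2 : sig (aug (tw τ A)) = Fintype.card t * sig (aug A) := by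
    rw [aug_tw]
    have h3 := hτA ι A a b ha hA hg Unit 1 isU_one
    have h4 := sig_ev_const ha hA hg (ρ := (1 : G →* Matrix Unit Unit ℂ)) isU_one (by
      intro g
      rw [MonoidHom.one_apply, trace_one])
    rw [Fintype.card_unit, Nat.cast_one, one_mul] at h4
    rw [h4] at h3
    rw [← h3]
    refine sig_ev_congr ha hA hg hτ (isU_one.tens hτ) fun g => ?_
    rw [trace_tens, MonoidHom.one_apply, trace_one, Fintype.card_unit, Nat.cast_one, one_mul]
  have h3 : TT (ind (KU G)) (aeval (tw τ A) P) = (Fintype.card t : ℂ) * tau (aeval A P) := by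
    have h4 : aeval (tw τ A) P = tw τ (aeval A P) :=
      aeval_algHom_apply ((tw τ).restrictScalars ℝ) A P
    rw [h4, TT_tw, TT_eq, ← hx]
    have h5 : T (fun g => ind (KU G) g * (τ g).trace) x =
        T (fun g => (Fintype.card t : ℂ) * if g = 1 then 1 else 0) x := by
      refine T_congr fun g hgx => ?_
      by_cases h5 : g = 1
      · rw [h5, if_pos rfl, map_one, trace_one, mul_one, ind, if_pos one_mem_KU, one_mul]
      · rw [if_neg h5, mul_zero]
        rcases hK g h5 with h6 | h6
        · rw [ind, if_neg h6, zero_mul]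
        · rw [hτS g (Finset.mem_filter.2 ⟨Finset.mem_erase.2 ⟨h5, Finsupp.mem_support_iff.2 hgx⟩,
            h6⟩), mul_zero]
    rw [h5, T_const_mul, hx, ← TT_eq]
    congr 1
    unfold TT tau
    refine Finset.sum_congr rfl fun i _ => ?_
    rw [T_apply, Finsupp.sum]
    simp only [mul_ite, mul_zero, mul_one]
    rw [Finset.sum_ite_eq']
    split_ifs with h7
    · rfl
    · rw [Finsupp.notMem_support_iff.1 h7]
  rw [h3, h2, Fintype.card_prod] at h1
  have ht' : (0 : ℝ) < Fintype.card t := Nat.cast_pos.2 ht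
  have h4 : (Fintype.card t : ℝ) * ‖tau (aeval A P) - (sig (aug A) : ℂ)‖ ≤
      Fintype.card t * (Fintype.card ι * ε) := by
    rw [← Complex.norm_natCast, ← norm_mul, Complex.norm_natCast]
    calc _ = ‖(Fintype.card t : ℂ) * tau (aeval A P) -
          ((Fintype.card t * sig (aug A) : ℤ) : ℂ)‖ := by
            congr 1
            push_cast
            ring
      _ ≤ _ := h1
      _ = _ := by
          push_cast
          ring
  exact le_of_mul_le_mul_left h4 ht'

theorem L2S.of_mixed (hK : ∀ g : G, g ≠ 1 → g ∉ KU G ∨ Det {1} g) : L2S G := by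
  intro ι _ _ b S T p s hP c hc hA
  obtain ⟨a, ha, hg⟩ := gapA_complex hP.bb hP.SS hP.bS hP.bT hP.hp hP.hs
  have hc0 : 0 < c := by linarith
  have ha' : 0 < min a 1 := lt_min ha one_pos
  have hg' : GapA (b + adj b + S) (min a 1) c := by
    intro κ _ _ ρ hρ x v hv hx
    obtain ⟨h1, h2⟩ := hg κ ρ hρ x v hv hx
    exact ⟨(min_le_left _ _).trans h1, h2.trans hA⟩
  have hH : Herm (b + adj b + S) := herm_of_adj hP.adj_A
  rw [tendsto_iff_norm_sub_tendsto_zero]
  have hq0 : 0 ≤ 1 - (min a 1) ^ 2 / c ^ 2 := by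
    rw [sub_nonneg, div_le_one (by positivity)]
    exact pow_le_pow_left₀ ha'.le ((min_le_right _ _).trans hc.le) 2
  have hq1 : 1 - (min a 1) ^ 2 / c ^ 2 < 1 := by
    have : 0 < (min a 1) ^ 2 / c ^ 2 := by positivity
    linarith
  refine squeeze_zero (fun _ => norm_nonneg _)
    (fun k => mixed_l2 hK ha' hH hg' (appr_Q ha' k)) ?_
  have h1 := (tendsto_dexp 1 _ zero_le_one hq0 hq1).const_mul (Fintype.card ι : ℝ)
  rw [mul_zero] at h1
  simpa using h1

/-- `h` is detected by a torsion-free virtually abelian or a torsion-free nilpotent group -/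
def Seen2 {H : Type} [Group H] (h : H) : Prop :=
  ∃ (Q : Type) (_ : Group Q) (f : H →* Q), (TFVA Q ∨ TFN Q) ∧ f h ≠ 1

theorem L2S.of_seen [hfg : Group.FG G] (h : ∀ g : G, g ≠ 1 → Seen2 g) : L2S G := by
  refine L2S.of_mixed fun g hg => ?_
  obtain ⟨Q, iQ, f, hQ | hQ, hf⟩ := h g hg
  · right
    refine det_of_tfva hQ f g hf _ ?_
    intro k hk
    rw [Set.mem_singleton_iff.1 hk, map_one]
  · left
    have hsub : TFN f.range := by
      refine ⟨?_, ?_⟩
      · have := hQ.1
        infer_instance
      · intro x m hm hx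
        apply Subtype.ext
        exact hQ.2 x m hm (by rw [← Subgroup.coe_pow, hx, Subgroup.coe_one])
    have e : G ⧸ f.ker ≃* f.range := QuotientGroup.quotientKerEquivRange f
    refine not_mem_KU g f.ker ?_ ?_ ?_
    · have := hsub.1
      exact Group.nilpotent_of_mulEquiv e.symm
    · intro x m hm hx
      apply e.injective
      rw [map_one]
      exact hsub.2 (e x) m hm (by rw [← map_pow, hx, map_one])
    · exact hf

/-- locally detected groups -/
theorem L2S.of_local (h : ∀ H : Subgroup G, H.FG → ∀ g : H, g ≠ 1 → Seen2 g) : L2S G := by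
  classical
  refine L2S.limit fun F => ?_
  set H : Subgroup G := Subgroup.closure (F : Set G) with hH
  have hfg : H.FG := ⟨F, rfl⟩
  have hfg' : Group.FG H := (Group.fg_iff_subgroup_fg H).2 hfg
  have hF : ∀ x ∈ F, x ∈ H := fun x hx => Subgroup.subset_closure hx
  refine ⟨H, inferInstance, fun g => if hg : g ∈ H then ⟨g, hg⟩ else 1,
    L2S.of_seen fun g hg => h H hfg g hg, ?_, ?_⟩
  · intro x hx y hy hxy
    simp only [dif_pos (hF x hx), dif_pos (hF y hy)] at hxy
    exact congrArg Subtype.val hxy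
  · intro x hx y hy
    simp only [dif_pos (hF x hx), dif_pos (hF y hy), dif_pos (H.mul_mem (hF x hx) (hF y hy))]
    rfl

end Pool.Agent.H748.Hom
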