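import Pool.Agent.H748.Hom.Deg

/-!
# The signature is bounded by the middle `L²`-Betti number
-/

set_option autoImplicit false
set_option linter.unusedSectionVars false

namespace Pool.Agent.H748.Hom

open Matrix Polynomial Filter Pool.Agent.H748.Sig Pool.Agent.H748.Art
open scoped InnerProductSpace

/-- the graded inequality for a family of limits -/
theorem PD.ineq {G : Type} [Group G] {ι : Type} [Fintype ι] [DecidableEq ι]
    {b S T p s : Matrix ι ι (MonoidAlgebra ℂ G)} (h : PD b S T p s) {deg : ι → ℕ} {m : ℕ}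
    (hg : Grd b S deg m) {x : ℝ}
    (hx : ∀ t : ℝ, 0 < t → t ≤ 1 → Lim (b + adj b + (t : ℂ) • S) (x : ℂ)) {β : ℝ}
    (hβ : IsL2Betti b deg m β) : |x| ≤ β := by
  obtain ⟨κ, hκ, hb⟩ := exists_bdd S T p s
  have hp := hg.gr h.bb h.SS (fun i => deg i < m) (fun i j hij => by rw [hij])
    (fun i j hij hi => by omega)
  have hq := hg.gr h.bb h.SS (fun i => m < deg i) (fun i j hij => by rw [hij])
    (fun i j hij hi => by omega)
  have hL := L1_nonneg (b + adj b)
  have hA : ∀ t : ℝ, ext (b + adj b) + t • ext S = ext (b + adj b + (t : ℂ) • S) := by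
    intro t
    rw [ext_add (b + adj b), ext_smul]
    congr 1
  have hadj : ∀ t : ℝ, adj (b + adj b + (t : ℂ) • S) = b + adj b + (t : ℂ) • S := by
    intro t
    have h5 : adj ((t : ℂ) • S) = (t : ℂ) • adj S := by
      ext i j : 1
      show adjE ((t : ℂ) • S j i) = (t : ℂ) • adjE (S j i)
      rw [adjE_smul, Complex.star_def, Complex.conj_ofReal]
    rw [adj_add', adj_add', adj_adj, h5, h.SS, add_comm (adj b) b]
  refine hp.two hq (gpt_pos hκ) (C := L1 (b + adj b) + 1) (by linarith)
    ((ext_norm_le _).trans (by linarith)) ?_ ?_ ?_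
  · intro t ht ht1 y hy
    rw [hA] at hy
    exact ext_spec (hadj t) (fun v => h.gap_t hκ hb.1 hb.2.1 hb.2.2.2 ht ht1 v) hy
  · intro t ht ht1
    have ha : 0 < gpt κ * t := mul_pos (gpt_pos hκ) ht
    refine ⟨fun y => max 0 (min 1 ((y / (gpt κ * t) + 1) / 2)), by fun_prop, fun y hy => ?_,
      fun y hy => ?_, ?_⟩
    · have h1 : 1 ≤ y / (gpt κ * t) := (one_le_div ha).2 hy
      show max 0 (min 1 ((y / (gpt κ * t) + 1) / 2)) = 1
      rw [min_eq_left (by linarith), max_eq_right zero_le_one]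
    · have h1 : y / (gpt κ * t) ≤ -1 := by
        rw [div_le_iff₀ ha]
        linarith
      show max 0 (min 1 ((y / (gpt κ * t) + 1) / 2)) = 0
      exact max_eq_left ((min_le_right _ _).trans (by linarith))
    · rw [hA]
      refine T_sign (hadj t) ha (fun v => h.gap_t hκ hb.1 hb.2.1 hb.2.2.2 ht ht1 v) (hx t ht ht1)
        (by fun_prop) (fun y hy => ?_) (fun y hy => ?_)
      · have h1 : 1 ≤ y / (gpt κ * t) := (one_le_div ha).2 hy
        show max 0 (min 1 ((y / (gpt κ * t) + 1) / 2)) = 1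
        rw [min_eq_left (by linarith), max_eq_right zero_le_one]
      · have h1 : y / (gpt κ * t) ≤ -1 := by
          rw [div_le_iff₀ ha]
          linarith
        show max 0 (min 1 ((y / (gpt κ * t) + 1) / 2)) = 0
        exact max_eq_left ((min_le_right _ _).trans (by linarith))
  · have h1 : (1 : HS ι G →L[ℂ] HS ι G) - ext (dg fun i => deg i < m) -
        ext (dg fun i => m < deg i) = ext (dg fun i => deg i = m) := by
      rw [← ext_one, ← extH_apply, ← extH_apply, ← extH_apply, ← extH_apply, ← map_sub,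
        ← map_sub]
      congr 1
      unfold dg
      rw [← Matrix.diagonal_one, Matrix.diagonal_sub, Matrix.diagonal_sub]
      congr 1
      funext i
      rcases lt_trichotomy (deg i) m with h2 | h2 | h2
      · rw [if_pos h2, if_neg (by omega), if_neg (by omega)]
        simp
      · rw [if_neg (by omega), if_neg (by omega), if_pos h2]
        simp
      · rw [if_neg (by omega), if_pos h2, if_neg (by omega)]
        simp
    refine (hβ (L1 (b + adj b) + 1) (by linarith) (by linarith)).congr fun k => ?_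
    rw [h1]
    exact (T_fk h.bb _ _ k).symm

theorem posIndex_smul {X : Type*} [Fintype X] [DecidableEq X] (W : Submodule ℂ (X → ℂ))
    (M : Matrix X X ℂ) {t : ℝ} (ht : 0 < t) : posIndex W ((t : ℂ) • M) = posIndex W M := by
  unfold posIndex
  congr 1
  ext k
  have h1 : ∀ x : X → ℂ, (star x ⬝ᵥ ((t : ℂ) • M) *ᵥ x).re = t * (star x ⬝ᵥ M *ᵥ x).re := by
    intro x
    rw [smul_mulVec, dotProduct_smul, smul_eq_mul, Complex.re_ofReal_mul]
  constructor
  · rintro ⟨U, hU, hk, hp⟩
    refine ⟨U, hU, hk, fun x hx hx0 => ?_⟩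
    have := hp x hx hx0
    rw [h1] at this
    exact (mul_pos_iff_of_pos_left ht).1 this
  · rintro ⟨U, hU, hk, hp⟩
    refine ⟨U, hU, hk, fun x hx hx0 => ?_⟩
    rw [h1]
    exact mul_pos ht (hp x hx hx0)

theorem augSignature_smul {G : Type} [Group G] {n : ℕ}
    (b S : Matrix (Fin n) (Fin n) (MonoidAlgebra ℂ G)) {t : ℝ} (ht : 0 < t) :
    augSignature b ((t : ℂ) • S) = augSignature b S := by
  unfold augSignature formSignature
  rw [augm_eq, augm_eq, augm_eq, map_smul, posIndex_smul _ _ ht, ← smul_neg,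
    posIndex_smul _ _ ht]

/-- **The signature is bounded by the middle `L²`-Betti number.** -/
theorem L2S.ineq {G : Type} [Group G] (hG : L2S G) {n : ℕ}
    {b S : Matrix (Fin n) (Fin n) (MonoidAlgebra ℂ G)} (h : IsPoincare b S) {deg : Fin n → ℕ}
    {m : ℕ} (hg : Grd b S deg m) {β : ℝ} (hβ : IsL2Betti b deg m β) :
    |(augSignature b S : ℝ)| ≤ β := by
  obtain ⟨h1, h2, h3, T, p, s, h4, h5, h6⟩ := h
  have hPD : PD b S T p s := ⟨h1, h2, h3, h4, h5, h6⟩
  refine hPD.ineq hg (fun t ht ht1 => ?_) hβ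
  have hs := hPD.scale ht
  have hI : IsPoincare b ((t : ℂ) • S) := ⟨hs.bb, hs.SS, hs.bS, _, p, s, hs.bT, hs.hp, hs.hs⟩
  have h7 := hG.lim hs
  rw [hI.sig_aug, augSignature_smul b S ht] at h7
  exact_mod_cast h7

section euler

variable {G : Type} [Group G] {ι : Type} [Fintype ι] [DecidableEq ι]

theorem tau_gam_mul (deg : ι → ℕ) (X : Matrix ι ι (MonoidAlgebra ℂ G)) :
    tau (gam deg * X) = ∑ j, (-1) ^ deg j * (X j j).coeff 1 := by
  unfold tau gam
  refine Finset.sum_congr rfl fun i _ => ?_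
  rw [Matrix.diagonal_mul]
  rcases Nat.even_or_odd (deg i) with h | h
  · rw [h.neg_one_pow, h.neg_one_pow, one_mul, one_mul]
  · rw [h.neg_one_pow, h.neg_one_pow, neg_one_mul, neg_one_mul, MonoidAlgebra.coeff_neg,
      Finsupp.neg_apply]

theorem tau_gam_sq {deg : ι → ℕ} {D Y : Matrix ι ι (MonoidAlgebra ℂ G)}
    (hD : gam deg * D * gam deg = -D) (hY : D * Y = Y * D) :
    tau (gam deg * (D * D * Y)) = 0 := by
  have h1 : gam deg * D = -(D * gam deg) := by
    have := congrArg (fun Z => Z * gam deg) hD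
    simp only [mul_assoc, gam_mul_gam, mul_one] at this
    rw [this, neg_mul]
  have h2 : tau (gam deg * (D * D * Y)) = -tau (gam deg * (D * D * Y)) := by
    have e1 : gam deg * (D * D * Y) = -(D * (gam deg * (D * Y))) := by
      calc gam deg * (D * D * Y) = (gam deg * D) * (D * Y) := by noncomm_ring
        _ = _ := by rw [h1]; noncomm_ring
    have e2 : tau (-(D * (gam deg * (D * Y)))) = -tau (D * (gam deg * (D * Y))) := by
      have := tau_smul (-1) (D * (gam deg * (D * Y)))
      rwa [neg_one_smul, neg_one_mul] at this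
    have e3 : (gam deg * (D * Y)) * D = gam deg * (D * D * Y) := by
      calc (gam deg * (D * Y)) * D = gam deg * (D * (Y * D)) := by noncomm_ring
        _ = _ := by rw [← hY]; noncomm_ring
    nth_rewrite 1 [e1]
    rw [e2, tau_comm, e3]
  linear_combination (1 / 2 : ℂ) * h2

theorem tau_gam_pow {b S : Matrix ι ι (MonoidAlgebra ℂ G)} {deg : ι → ℕ} {m : ℕ}
    (h : Grd b S deg m) (hbb : b * b = 0) (C : ℝ) (k : ℕ) :
    tau (gam deg * zC b C ^ k) = ∑ j, (-1) ^ deg j := by
  set D := b + adj b with hD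
  have hodd : gam deg * D * gam deg = -D :=
    gam_odd fun i j hij => sign_succ _ _ (h.D_ne hij)
  have hz : zC b C = 1 - (((C ^ 2)⁻¹ : ℝ) : ℂ) • (D * D) := by
    unfold zC
    rw [hD, sq_D hbb]
  have hcomm : Commute D (zC b C) := by
    rw [hz]
    refine (Commute.one_right D).sub_right ?_
    exact ((Commute.refl D).mul_right (Commute.refl D)).smul_right _
  induction k with
  | zero =>
    rw [pow_zero, tau_gam_mul]
    refine Finset.sum_congr rfl fun j _ => ?_
    rw [Matrix.one_apply_eq, MonoidAlgebra.one_def, MonoidAlgebra.coeff_single,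
      Finsupp.single_eq_same, mul_one]
  | succ k ih =>
    have hk : D * zC b C ^ k = zC b C ^ k * D := (hcomm.pow_right k).eq
    have e1 : gam deg * zC b C ^ (k + 1) = gam deg * zC b C ^ k -
        (((C ^ 2)⁻¹ : ℝ) : ℂ) • (gam deg * (D * D * zC b C ^ k)) := by
      rw [pow_succ']
      nth_rewrite 1 [hz]
      rw [sub_mul, one_mul, mul_sub, smul_mul_assoc, mul_smul_comm]
    have e2 : tau (gam deg * zC b C ^ k - (((C ^ 2)⁻¹ : ℝ) : ℂ) •
        (gam deg * (D * D * zC b C ^ k))) = tau (gam deg * zC b C ^ k) -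
        (((C ^ 2)⁻¹ : ℝ) : ℂ) * tau (gam deg * (D * D * zC b C ^ k)) := by
      rw [← tauL_apply, map_sub, map_smul]
      rfl
    rw [e1, e2, tau_gam_sq hodd hk, mul_zero, sub_zero, ih]

/-- the Euler characteristic -/
theorem Grd.euler {b S : Matrix ι ι (MonoidAlgebra ℂ G)} {deg : ι → ℕ} {m : ℕ}
    (h : Grd b S deg m) (hbb : b * b = 0) (hdeg : ∀ j, deg j ≤ 2 * m) {β : ℕ → ℝ}
    (hβ : ∀ i, IsL2Betti b deg i (β i)) :
    ∑ i ∈ Finset.range (2 * m + 1), (-1) ^ i * β i = ∑ j, (-1) ^ deg j := by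
  have hL := L1_nonneg (b + adj b)
  set C := L1 (b + adj b) + 1 with hC
  have h1 : Tendsto (fun k => ∑ i ∈ Finset.range (2 * m + 1),
      (-1 : ℝ) ^ i * (∑ j with deg j = i, ((zC b C ^ k) j j).coeff 1).re) atTop
      (nhds (∑ i ∈ Finset.range (2 * m + 1), (-1) ^ i * β i)) :=
    tendsto_finsetSum _ fun i _ => (hβ i C (by linarith) (by linarith)).const_mul _
  have h2 : ∀ k, ∑ i ∈ Finset.range (2 * m + 1),
      (-1 : ℝ) ^ i * (∑ j with deg j = i, ((zC b C ^ k) j j).coeff 1).re =
      ∑ j, (-1) ^ deg j := by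
    intro k
    have e1 : ∀ i, (-1 : ℝ) ^ i * (∑ j with deg j = i, ((zC b C ^ k) j j).coeff 1).re =
        ∑ j with deg j = i, ((-1) ^ deg j * ((zC b C ^ k) j j).coeff 1).re := by
      intro i
      rw [Complex.re_sum, Finset.mul_sum]
      refine Finset.sum_congr rfl fun j hj => ?_
      rw [(Finset.mem_filter.1 hj).2]
      rcases Nat.even_or_odd i with h | h
      · rw [h.neg_one_pow, h.neg_one_pow, one_mul, one_mul]
      · rw [h.neg_one_pow, h.neg_one_pow, neg_one_mul, neg_one_mul, Complex.neg_re]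
    rw [Finset.sum_congr rfl fun i _ => e1 i, Finset.sum_fiberwise_of_maps_to
      (fun j _ => Finset.mem_range.2 (by have := hdeg j; omega))
      (fun j => ((-1) ^ deg j * ((zC b C ^ k) j j).coeff 1).re), ← Complex.re_sum,
      ← tau_gam_mul, tau_gam_pow h hbb]
    rw [Complex.re_sum]
    refine Finset.sum_congr rfl fun j _ => ?_
    rcases Nat.even_or_odd (deg j) with h | h
    · rw [h.neg_one_pow, h.neg_one_pow, Complex.one_re]
    · rw [h.neg_one_pow, h.neg_one_pow, Complex.neg_re, Complex.one_re]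
  exact (tendsto_nhds_unique (tendsto_const_nhds.congr fun k => (h2 k).symm) h1).symm

end euler

end Pool.Agent.H748.Hom
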