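import Pool.Agent.H748.Hom.Seq

/-!
# Closure properties; signatures in unitary representations
-/

set_option autoImplicit false
set_option linter.unusedSectionVars false

namespace Pool.Agent.H748.Hom

open Matrix Polynomial Filter Pool.Agent.H748.Sig Pool.Agent.H748.Art

variable {ι κ : Type} [Fintype ι] [DecidableEq ι] [Fintype κ] [DecidableEq κ]

/-- preimages of `m ℤ` -/
theorem L2S.of_dvd {G : Type} [Group G] (φ : G →* Multiplicative ℤ) {m : ℕ} (hm : 0 < m)
    (hD : L2S (dvd φ m)) : L2S G := by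
  obtain ⟨X, _, _, r, hr, hne⟩ := @exists_tr G _ (dvd φ m) (finiteIndex_dvd φ hm)
  refine L2S.of_lim fun ι _ _ b S T p s' hP P hPs => ?_
  set A := b + adj b + S with hA
  obtain ⟨a, ha, hg⟩ := gapA_complex hP.bb hP.SS hP.bS hP.bT hP.hp hP.hs
  rw [← hA] at hg
  have hH : Herm A := herm_of_adj hP.adj_A
  have h1 := sig_ind_dvd φ hm r hr ha hH hg (ρ := (1 : G →* Matrix Unit Unit ℂ)) isU_one
  rw [sig_ind_one r hr ha hH hg, sig_one ha hH hg] at h1
  have h2 := hD.res r hr hP hPs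
  rw [← hA, h1] at h2
  have hX : (Fintype.card X : ℂ) ≠ 0 := Nat.cast_ne_zero.2 Fintype.card_ne_zero
  have h3 := h2.const_mul (Fintype.card X : ℂ)⁻¹
  push_cast at h3
  rw [← mul_assoc, inv_mul_cancel₀ hX, one_mul] at h3
  refine h3.congr fun k => ?_
  rw [← mul_assoc, inv_mul_cancel₀ hX, one_mul]

/-- Artin induction for a normal subgroup of finite index -/
theorem L2S.of_cyclic {G : Type} [Group G] (N : Subgroup G) [N.Normal] [N.FiniteIndex]
    (h : ∀ g : G, L2S (N ⊔ Subgroup.zpowers g : Subgroup G)) : L2S G := by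
  classical
  have h' : ∀ z : G ⧸ N, L2S ((Subgroup.zpowers z).comap (QuotientGroup.mk' N)) := by
    intro z
    obtain ⟨g, rfl⟩ := QuotientGroup.mk'_surjective N z
    have h1 : (Subgroup.zpowers (QuotientGroup.mk' N g)).comap (QuotientGroup.mk' N) =
        N ⊔ Subgroup.zpowers g := by
      rw [← MonoidHom.map_zpowers, Subgroup.comap_map_eq, QuotientGroup.ker_mk', sup_comm]
    rw [h1]
    exact h g
  have := Fintype.ofFinite (G ⧸ N)
  obtain ⟨w, hw⟩ := exists_weight (Q := G ⧸ N)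
  have hfi : ∀ z : G ⧸ N, ((Subgroup.zpowers z).comap (QuotientGroup.mk' N)).FiniteIndex := by
    intro z
    have h1 : N ≤ (Subgroup.zpowers z).comap (QuotientGroup.mk' N) := by
      intro g hg
      show (g : G ⧸ N) ∈ Subgroup.zpowers z
      rw [(QuotientGroup.eq_one_iff g).2 hg]
      exact Subgroup.one_mem _
    exact Subgroup.finiteIndex_of_le h1
  choose X iX jX r hr _ using fun z => @exists_tr G _ _ (hfi z)
  refine L2S.of_artin Finset.univ (fun z => w z * orderOf z / Fintype.card (G ⧸ N))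
    (fun z => (Subgroup.zpowers z).comap (QuotientGroup.mk' N)) X r hr h' ?_
  intro g
  have hcard : (Fintype.card (G ⧸ N) : ℂ) ≠ 0 := Nat.cast_ne_zero.2 Fintype.card_ne_zero
  have h2 : ∀ z : G ⧸ N, (((w z * orderOf z / Fintype.card (G ⧸ N) : ℝ)) : ℂ) *
      fix ((Subgroup.zpowers z).comap (QuotientGroup.mk' N)) (r z) g =
      (Fintype.card (G ⧸ N) : ℂ)⁻¹ * ∑ q : G ⧸ N,
        (w z : ℂ) * (if q⁻¹ * (QuotientGroup.mk' N) g * q ∈ Subgroup.zpowers z then 1 else 0) := by
    intro z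
    rw [← Finset.mul_sum, sum_fix (QuotientGroup.mk' N) (QuotientGroup.mk'_surjective N) _ (r z)
      (hr z) g, Nat.card_zpowers]
    push_cast
    ring
  rw [Finset.sum_congr rfl fun z _ => h2 z, ← Finset.mul_sum, Finset.sum_comm]
  have h3 : ∀ q : G ⧸ N, ∑ z : G ⧸ N, (w z : ℂ) *
      (if q⁻¹ * (QuotientGroup.mk' N) g * q ∈ Subgroup.zpowers z then 1 else 0) = 1 := by
    intro q
    have h4 := hw (q⁻¹ * (QuotientGroup.mk' N) g * q)
    rw [finsum_eq_sum_of_fintype] at h4
    have h5 := congrArg (fun x : ℝ => (x : ℂ)) h4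
    simp only [Complex.ofReal_sum, Complex.ofReal_mul, Complex.ofReal_one] at h5
    refine Eq.trans (Finset.sum_congr rfl fun z _ => ?_) h5
    congr 1
    unfold cyc
    split_ifs <;> simp
  rw [Finset.sum_congr rfl fun q _ => h3 q, Finset.sum_const, nsmul_eq_mul, mul_one,
    Finset.card_univ, inv_mul_cancel₀ hcard]

theorem tau_tw {G : Type*} [Group G] (ρ : G →* Matrix κ κ ℂ) (A : Matrix ι ι (MonoidAlgebra ℂ G)) :
    tau (tw ρ A) = Fintype.card κ * tau A := by
  unfold tau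
  rw [Fintype.sum_prod_type, Finset.mul_sum]
  refine Finset.sum_congr rfl fun i _ => ?_
  have h1 : ∀ x : κ, (tw ρ A (i, x) (i, x)).coeff 1 = (A i i).coeff 1 := by
    intro x
    rw [tw_coeff, map_one ρ, Matrix.one_apply_eq, mul_one]
  rw [Finset.sum_congr rfl fun x _ => h1 x, Finset.sum_const, Finset.card_univ, nsmul_eq_mul]

theorem adj_tw {G : Type*} [Group G] {ρ : G →* Matrix κ κ ℂ} (hρ : IsU ρ)
    (A : Matrix ι ι (MonoidAlgebra ℂ G)) : adj (tw ρ A) = tw ρ (adj A) := by
  ext p q g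
  rw [adj_coeff, tw_coeff, tw_coeff, adj_coeff, star_mul']
  congr 1
  have h1 := congrFun (congrFun (hρ g⁻¹) p.2) q.2
  rw [conjTranspose_apply, inv_inv] at h1
  exact h1

/-- signatures in unitary representations -/
theorem L2S.rig {G : Type} [Group G] (hG : L2S G) {b S T p s : Matrix ι ι (MonoidAlgebra ℂ G)}
    (h : PD b S T p s) {ρ : G →* Matrix κ κ ℂ} (hρ : IsU ρ) :
    sig (ev ρ (b + adj b + S)) = Fintype.card κ * sig (aug (b + adj b + S)) := by
  have h1 := hG.lim h
  have h2 := hG.lim (h.map (tw ρ) (adj_tw hρ))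
  have h3 : tw ρ b + adj (tw ρ b) + tw ρ S = tw ρ (b + adj b + S) := by
    rw [adj_tw hρ, ← map_add, ← map_add]
  rw [h3, aug_tw] at h2
  have h4 : Lim (tw ρ (b + adj b + S))
      ((Fintype.card κ : ℂ) * ((sig (aug (b + adj b + S)) : ℤ) : ℂ)) := by
    intro P hP
    refine ((h1 P hP).const_mul (Fintype.card κ : ℂ)).congr fun k => ?_
    have h5 : aeval (tw ρ (b + adj b + S)) (P k) = tw ρ (aeval (b + adj b + S) (P k)) :=
      aeval_algHom_apply ((tw ρ).restrictScalars ℝ) _ _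
    rw [h5, tau_tw]
  have h5 := h2.unique h4
  exact_mod_cast h5

end Pool.Agent.H748.Hom
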