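import Mathlib

/-!
# Traces of spectral projections in C*-algebras
-/

set_option autoImplicit false
set_option linter.unusedSectionVars false

namespace Pool.Agent.H748.Hom

variable {B : Type*} [CStarAlgebra B] [PartialOrder B] [StarOrderedRing B]

/-- a positive functional which is a trace on a closed star subalgebra -/
structure TrS (B : Type*) [CStarAlgebra B] [PartialOrder B] [StarOrderedRing B] where
  s : StarSubalgebra ℂ B
  closed : IsClosed (s : Set B)
  T : B →ₗ[ℝ] ℝ
  pos : ∀ x, 0 ≤ x → 0 ≤ T x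
  tr : ∀ x ∈ s, ∀ y ∈ s, T (x * y) = T (y * x)

theorem TrS.mono (τ : TrS B) {x y : B} (h : x ≤ y) : τ.T x ≤ τ.T y := by
  have h1 := τ.pos (y - x) (sub_nonneg.2 h)
  rw [map_sub] at h1
  linarith

theorem TrS.cfc_mem (τ : TrS B) {a : B} (ha : a ∈ τ.s) (f : ℝ → ℝ) : cfc f a ∈ τ.s := by
  have := τ.closed
  exact _root_.cfc_mem (𝕜' := ℂ) f ha

theorem abs_le_norm_of_mem {a : B} {x : ℝ} (hx : x ∈ spectrum ℝ a) : |x| ≤ ‖a‖ := by
  rcases subsingleton_or_nontrivial B with h | h
  · exact absurd hx (by rw [spectrum.of_subsingleton]; exact Set.notMem_empty x)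
  · exact spectrum.norm_le_norm_of_mem hx

/-- the resolvent -/
theorem exists_resolvent {M : B} (hM : 0 ≤ M) {ε : ℝ} (hε : 0 < ε) (f : ℝ → ℝ)
    (hf : ∀ x, 0 ≤ x → f x = (x + ε)⁻¹) :
    0 ≤ cfc f M ∧ (M + ε • 1) * cfc f M = 1 ∧ cfc f M * (M + ε • 1) = 1 := by
  have hsa : IsSelfAdjoint M := .of_nonneg hM
  have hsp : ∀ x ∈ spectrum ℝ M, 0 ≤ x := fun x hx => spectrum_nonneg_of_nonneg hM hx
  have hc : ContinuousOn f (spectrum ℝ M) := by
    have h1 : ContinuousOn (fun x : ℝ => (x + ε)⁻¹) (spectrum ℝ M) :=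
      ContinuousOn.inv₀ (by fun_prop) fun x hx => by
        have := hsp x hx
        linarith
    exact h1.congr fun x hx => hf x (hsp x hx)
  have h1 : M + ε • 1 = cfc (fun x : ℝ => x + ε) M := by
    rw [cfc_add_const ε (fun x => x) M, cfc_id' ℝ M, Algebra.algebraMap_eq_smul_one]
  refine ⟨?_, ?_, ?_⟩
  · refine cfc_nonneg fun x hx => ?_
    rw [hf x (hsp x hx)]
    have := hsp x hx
    positivity
  · rw [h1, ← cfc_mul (fun x : ℝ => x + ε) f M (by fun_prop) hc, ← cfc_one ℝ M]
    refine cfc_congr fun x hx => ?_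
    have := hsp x hx
    show (x + ε) * f x = 1
    rw [hf x this, mul_inv_cancel₀ (by linarith)]
  · rw [h1, ← cfc_mul f (fun x : ℝ => x + ε) M hc (by fun_prop), ← cfc_one ℝ M]
    refine cfc_congr fun x hx => ?_
    have := hsp x hx
    show f x * (x + ε) = 1
    rw [hf x this, inv_mul_cancel₀ (by linarith)]

/-- antitonicity of the inverse -/
theorem inv_anti {P P₁ R R₁ : B} (hP : P₁ ≤ P) (h1 : P * R = 1) (h2 : R * P = 1)
    (h3 : P₁ * R₁ = 1) (h4 : R₁ * P₁ = 1) (hR : 0 ≤ R) (hR₁ : 0 ≤ R₁) : R ≤ R₁ := by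
  have hR' : IsSelfAdjoint R := .of_nonneg hR
  have hX : 0 ≤ P - P₁ := sub_nonneg.2 hP
  have hX' : IsSelfAdjoint (P - P₁) := .of_nonneg hX
  have key : R₁ - R = R * (P - P₁) * R + (R * (P - P₁)) * R₁ * ((P - P₁) * R) := by
    have e1 : R * (P - P₁) * R₁ = R₁ - R := by
      calc R * (P - P₁) * R₁ = (R * P) * R₁ - R * (P₁ * R₁) := by noncomm_ring
        _ = R₁ - R := by rw [h2, h3, one_mul, mul_one]
    have e2 : R₁ * ((P - P₁) * R) = R₁ - R := by
      calc R₁ * ((P - P₁) * R) = R₁ * (P * R) - (R₁ * P₁) * R := by noncomm_ring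
        _ = R₁ - R := by rw [h1, h4, one_mul, mul_one]
    calc R₁ - R = R * (P - P₁) * R₁ := e1.symm
      _ = R * (P - P₁) * (R + (R₁ - R)) := by rw [add_sub_cancel]
      _ = R * (P - P₁) * R + R * (P - P₁) * (R₁ * ((P - P₁) * R)) := by rw [e2, mul_add]
      _ = _ := by rw [← mul_assoc (R * (P - P₁)) R₁]
  rw [← sub_nonneg, key]
  refine add_nonneg (hR'.conjugate_nonneg hX) ?_
  have h5 := star_right_conjugate_nonneg hR₁ (R * (P - P₁))
  rw [star_mul, hR'.star_eq, hX'.star_eq] at h5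
  exact h5

theorem smul_one_mul' (ε : ℝ) (x : B) : (ε • (1 : B)) * x = ε • x := by
  rw [smul_mul_assoc, one_mul]

/-- **Comparison.** -/
theorem TrS.comparison (τ : TrS B) {K Q : B} (hKs : K ∈ τ.s) (hQs : Q ∈ τ.s)
    (hK : IsSelfAdjoint K) (hQ : IsSelfAdjoint Q) (hQQ : Q * Q = Q) (hK1 : ‖K‖ ≤ 1) {c : ℝ}
    (hc : 0 < c) (hKQ : c • (K * K) ≤ K * Q * K) : τ.T (K * K) ≤ τ.T Q := by
  have hQ0 : 0 ≤ Q := by
    rw [← hQQ]
    nth_rewrite 1 [← hQ.star_eq]
    exact star_mul_self_nonneg Q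
  have hKK : 0 ≤ K * K := by
    nth_rewrite 1 [← hK.star_eq]
    exact star_mul_self_nonneg K
  have hM : 0 ≤ K * Q * K := hK.conjugate_nonneg hQ0
  set M := K * Q * K with hMdef
  have hMs : M ∈ τ.s := mul_mem (mul_mem hKs hQs) hKs
  -- the estimate for fixed `ε`
  have key : ∀ ε : ℝ, 0 < ε → c / (c + ε) * τ.T (K * K) ≤ τ.T Q := by
    intro ε hε
    set R := cfc (fun x : ℝ => (x + ε)⁻¹) M with hR
    obtain ⟨hR0, hR1, hR2⟩ := exists_resolvent hM hε (fun x : ℝ => (x + ε)⁻¹) fun x _ => rfl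
    rw [← hR] at hR0 hR1 hR2
    have hRs : R ∈ τ.s := τ.cfc_mem hMs _
    have hRsa : IsSelfAdjoint R := .of_nonneg hR0
    -- the other resolvent
    have hM1 : 0 ≤ c • (K * K) := smul_nonneg hc.le hKK
    obtain ⟨hS0, hS1, hS2⟩ := exists_resolvent hM1 hε (fun x : ℝ => (x + ε)⁻¹) fun x _ => rfl
    set R₁ := cfc (fun x : ℝ => (x + ε)⁻¹) (c • (K * K)) with hR₁
    have hle : R ≤ R₁ := inv_anti (add_le_add_left hKQ _) hR1 hR2 hS1 hS2 hR0 hS0
    -- algebra
    have eMR : M * R = 1 - ε • R := by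
      rw [add_mul, smul_one_mul'] at hR1
      rw [← hR1, add_sub_cancel_right]
    have eRM : R * M = 1 - ε • R := by
      rw [mul_add, mul_smul_comm, mul_one] at hR2
      rw [← hR2, add_sub_cancel_right]
    set Z := R * (K * Q) with hZ
    have hZstar : star Z = Q * K * R := by
      rw [hZ, star_mul, star_mul, hRsa.star_eq, hK.star_eq, hQ.star_eq]
    set Y := Q * K * (R * (K * Q)) with hY
    have hYY : Y * Y = Y - ε • (star Z * Z) := by
      calc Y * Y = Q * K * (R * (K * (Q * Q) * K) * R) * (K * Q) := by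
            rw [hY]; noncomm_ring
        _ = Q * K * ((R * M) * R) * (K * Q) := by rw [hQQ]
        _ = Q * K * (R * (K * Q)) - ε • ((Q * K * R) * (R * (K * Q))) := by
            rw [eRM, sub_mul, one_mul, mul_sub, sub_mul, smul_mul_assoc, mul_smul_comm,
              smul_mul_assoc]
            noncomm_ring
        _ = _ := by rw [hZstar]
    have hQY : Q * Y = Y := by
      rw [hY]
      calc Q * (Q * K * (R * (K * Q))) = (Q * Q) * K * (R * (K * Q)) := by noncomm_ring
        _ = _ := by rw [hQQ]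
    have hYQ : Y * Q = Y := by
      rw [hY]
      calc (Q * K * (R * (K * Q))) * Q = Q * K * (R * (K * (Q * Q))) := by noncomm_ring
        _ = _ := by rw [hQQ]
    have hYsa : star Y = Y := by
      rw [hY, star_mul, star_mul, star_mul, star_mul, hRsa.star_eq, hK.star_eq, hQ.star_eq]
      noncomm_ring
    have hdiff : Q - Y = star (Q - Y) * (Q - Y) + ε • (star Z * Z) := by
      rw [star_sub, hYsa, hQ.star_eq, sub_mul, mul_sub, mul_sub, hQQ, hQY, hYQ, hYY]
      abel
    have hYle : τ.T Y ≤ τ.T Q := by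
      have h1 : 0 ≤ Q - Y := by
        rw [hdiff]
        exact add_nonneg (star_mul_self_nonneg _) (smul_nonneg hε.le (star_mul_self_nonneg _))
      exact τ.mono (sub_nonneg.1 h1)
    have hTY : τ.T Y = τ.T 1 - ε * τ.T R := by
      have h1 : τ.T Y = τ.T ((R * (K * Q)) * (Q * K)) := by
        rw [hY]
        exact τ.tr _ (mul_mem hQs hKs) _ (mul_mem hRs (mul_mem hKs hQs))
      have h2 : (R * (K * Q)) * (Q * K) = R * M := by
        calc (R * (K * Q)) * (Q * K) = R * (K * (Q * Q) * K) := by noncomm_ring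
          _ = R * M := by rw [hQQ]
      rw [h1, h2, eRM, map_sub, map_smul, smul_eq_mul]
    have hR₁le : ε • R₁ ≤ 1 - (c / (c + ε)) • (K * K) := by
      have hsp : ∀ x ∈ spectrum ℝ K, |x| ≤ 1 := fun x hx => (abs_le_norm_of_mem hx).trans hK1
      have e1 : c • (K * K) = cfc (fun x : ℝ => c * (x * x)) K := by
        rw [cfc_const_mul c (fun x : ℝ => x * x) K, cfc_mul (fun x : ℝ => x) (fun x : ℝ => x) K,
          cfc_id' ℝ K]
      have e2 : (c / (c + ε)) • (K * K) = cfc (fun x : ℝ => (c / (c + ε)) * (x * x)) K := by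
        rw [cfc_const_mul (c / (c + ε)) (fun x : ℝ => x * x) K,
          cfc_mul (fun x : ℝ => x) (fun x : ℝ => x) K, cfc_id' ℝ K]
      have hcont : ContinuousOn (fun x : ℝ => (c * (x * x) + ε)⁻¹) (spectrum ℝ K) :=
        ContinuousOn.inv₀ (by fun_prop) fun x _ => by
          have := mul_self_nonneg x
          positivity
      have e3 : R₁ = cfc (fun x : ℝ => (c * (x * x) + ε)⁻¹) K := by
        rw [hR₁, e1, ← cfc_comp' (fun x : ℝ => (x + ε)⁻¹) (fun x : ℝ => c * (x * x)) K
          (ContinuousOn.inv₀ (by fun_prop) (by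
            rintro _ ⟨x, _, rfl⟩
            have := mul_self_nonneg x
            show c * (x * x) + ε ≠ 0
            positivity))]
      rw [e2, e3, ← cfc_const_mul ε _ K hcont, ← cfc_const_one ℝ K,
        ← cfc_sub (fun _ : ℝ => (1 : ℝ)) (fun x : ℝ => (c / (c + ε)) * (x * x)) K]
      refine cfc_mono (fun x hx => ?_) (by fun_prop) (by fun_prop)
      have h1 : x * x ≤ 1 := by
        have := hsp x hx
        rw [← abs_mul_abs_self]
        nlinarith [abs_nonneg x]
      have h0 := mul_self_nonneg x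
      show ε * (c * (x * x) + ε)⁻¹ ≤ 1 - (c / (c + ε)) * (x * x)
      have hpos : 0 < c * (x * x) + ε := by positivity
      have hpos2 : 0 < c + ε := by positivity
      rw [← div_eq_mul_inv, div_le_iff₀ hpos]
      have h2 : (1 - c / (c + ε) * (x * x)) * (c * (x * x) + ε) - ε =
          c * (x * x) * (c * (1 - x * x)) / (c + ε) := by
        field_simp
        ring
      have h3 : 0 ≤ c * (x * x) * (c * (1 - x * x)) / (c + ε) := by
        apply div_nonneg _ hpos2.le
        apply mul_nonneg (mul_nonneg hc.le h0)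
        apply mul_nonneg hc.le
        linarith
      linarith
    have h1 := τ.mono hR₁le
    have h2 := τ.mono hle
    rw [map_sub, map_smul, map_smul, smul_eq_mul, smul_eq_mul] at h1
    have h3 := mul_le_mul_of_nonneg_left h2 hε.le
    linarith
  -- the limit
  have h0 : 0 ≤ τ.T (K * K) := τ.pos _ hKK
  by_contra hcon
  rw [not_le] at hcon
  have hQpos : 0 ≤ τ.T Q := τ.pos _ hQ0
  set A := τ.T (K * K)
  set q := τ.T Q
  have hA : 0 < A := lt_of_le_of_lt hQpos hcon
  have h1 := key (c * (A - q) / (2 * A)) (by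
    apply div_pos (mul_pos hc (by linarith)) (by linarith))
  have hd : 0 < c + c * (A - q) / (2 * A) := by
    have : 0 < c * (A - q) / (2 * A) := div_pos (mul_pos hc (by linarith)) (by linarith)
    linarith
  rw [div_mul_eq_mul_div, div_le_iff₀ hd] at h1
  have h2 : q * (c + c * (A - q) / (2 * A)) = c * (q + q * (A - q) / (2 * A)) := by ring
  rw [h2] at h1
  have h3 : A ≤ q + q * (A - q) / (2 * A) := le_of_mul_le_mul_left h1 hc
  have h4 : q * (A - q) / (2 * A) ≤ (A - q) / 2 := by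
    rw [div_le_div_iff₀ (by linarith) (by norm_num)]
    nlinarith
  linarith

end Pool.Agent.H748.Hom
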