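import Pool.Agent.H748.Hom.Cst

/-!
# The form inequality
-/

set_option autoImplicit false
set_option linter.unusedSectionVars false

namespace Pool.Agent.H748.Hom

variable {B : Type*} [CStarAlgebra B] [PartialOrder B] [StarOrderedRing B]

/-- a subspace on which the form is almost non-negative -/
theorem TrS.proj (τ : TrS B) {A K : B} (hA : IsSelfAdjoint A) (hAs : A ∈ τ.s)
    (hK : IsSelfAdjoint K) (hKs : K ∈ τ.s) (hK1 : ‖K‖ ≤ 1) {a η : ℝ} (ha : 0 < a) (hη : η < a)
    (hgap : ∀ x ∈ spectrum ℝ A, a ≤ |x|) (hKA : (-η) • (K * K) ≤ K * A * K) {g : ℝ → ℝ}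
    (hg : Continuous g) (hg1 : ∀ x, a ≤ x → g x = 1) (hg0 : ∀ x, x ≤ -a → g x = 0) :
    τ.T (K * K) ≤ τ.T (cfc g A) := by
  set Q := cfc g A with hQ
  have hcases : ∀ x ∈ spectrum ℝ A, (a ≤ x ∧ g x = 1) ∨ (x ≤ -a ∧ g x = 0) := by
    intro x hx
    rcases le_abs.1 (hgap x hx) with h | h
    · exact Or.inl ⟨h, hg1 x h⟩
    · exact Or.inr ⟨by linarith, hg0 x (by linarith)⟩
  have hQQ : Q * Q = Q := by
    rw [hQ, ← cfc_mul g g A]
    refine cfc_congr fun x hx => ?_
    rcases hcases x hx with ⟨_, h⟩ | ⟨_, h⟩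
    · show g x * g x = g x
      rw [h, one_mul]
    · show g x * g x = g x
      rw [h, zero_mul]
  have hQsa : IsSelfAdjoint Q := cfc_predicate g A
  have hCa : 0 < ‖A‖ + a := by
    have := norm_nonneg A
    linarith
  have h1 : A ≤ (‖A‖ + a) • Q - a • 1 := by
    have e1 : (‖A‖ + a) • Q - a • 1 = cfc (fun x => (‖A‖ + a) * g x - a) A := by
      rw [cfc_sub (fun x => (‖A‖ + a) * g x) (fun _ => a) A, cfc_const_mul _ g A, cfc_const a A,
        Algebra.algebraMap_eq_smul_one]
    rw [e1]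
    nth_rewrite 1 [← cfc_id' ℝ A]
    refine cfc_mono (fun x hx => ?_) (by fun_prop) (by fun_prop)
    have hn := abs_le_norm_of_mem hx
    show x ≤ (‖A‖ + a) * g x - a
    rcases hcases x hx with ⟨_, h⟩ | ⟨h', h⟩
    · rw [h]
      have := le_abs_self x
      linarith
    · rw [h]
      linarith
  have h2 := hK.conjugate_le_conjugate h1
  have e2 : K * ((‖A‖ + a) • Q - a • 1) * K = (‖A‖ + a) • (K * Q * K) - a • (K * K) := by
    rw [mul_sub, sub_mul, mul_smul_comm, smul_mul_assoc, mul_smul_comm, smul_mul_assoc, mul_one]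
  rw [e2] at h2
  refine τ.comparison hKs (τ.cfc_mem hAs g) hK hQsa hQQ hK1 (c := (a - η) / (‖A‖ + a))
    (div_pos (by linarith) hCa) ?_
  have h3 := hKA.trans h2
  have h4 : (a - η) • (K * K) ≤ (‖A‖ + a) • (K * Q * K) := by
    have h5 : (a - η) • (K * K) = (-η) • (K * K) + a • (K * K) := by module
    rw [h5]
    calc _ ≤ ((‖A‖ + a) • (K * Q * K) - a • (K * K)) + a • (K * K) := add_le_add_left h3 _
      _ = _ := by abel
  have h5 := smul_le_smul_of_nonneg_left h4 (inv_nonneg.2 hCa.le)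
  rw [smul_smul, smul_smul, inv_mul_cancel₀ hCa.ne', one_smul] at h5
  rw [div_eq_inv_mul]
  exact h5

/-- **The form inequality.** -/
theorem form_ineq {D S p F X : B} (hF : star F = F) (hX : star X = X) (hS : star S = S)
    (hp : star p = p) (hpp : p * p = p) (hXp : X * p = p * X) (hFX : F * X = 0) (hXF : X * F = 0)
    (hFDX : F * D * X = 0) (hXDF : X * D * F = 0) (hpSp : p * S * p = 0) {δ δ' s t : ℝ}
    (hδ : 0 < δ) (hδ' : 0 ≤ δ') (ht : 0 ≤ t) (hts : t * s ≤ δ / 4)
    (h1 : 0 ≤ F * D * F - (δ / 2) • (F * F)) (h2 : 0 ≤ X * D * X + δ' • (X * X))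
    (h3 : 0 ≤ S + s • 1) (h4 : 0 ≤ (s ^ 2) • 1 - S * S) :
    (-(δ' + 4 * t ^ 2 * s ^ 2 / δ)) • ((F + X * p) * (F + X * p)) ≤
      (F + X * p) * (D + t • S) * (F + X * p) := by
  obtain ⟨W, hW⟩ : ∃ W, W = X * p := ⟨_, rfl⟩
  rw [← hW]
  have hWs : star W = W := by rw [hW, star_mul, hX, hp, hXp]
  have hFsa : IsSelfAdjoint F := hF
  have hWsa : IsSelfAdjoint W := hWs
  have hpsa : IsSelfAdjoint p := hp
  have hFW : F * W = 0 := by rw [hW, ← mul_assoc, hFX, zero_mul]
  have hWF : W * F = 0 := by rw [hW, hXp, mul_assoc, hXF, mul_zero]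
  have hFDW : F * D * W = 0 := by rw [hW, ← mul_assoc, hFDX, zero_mul]
  have hWDF : W * D * F = 0 := by
    rw [hW, hXp, mul_assoc, mul_assoc, ← mul_assoc X, hXDF, mul_zero]
  have hWSW : W * S * W = 0 := by
    calc W * S * W = X * (p * S * p) * X := by
          nth_rewrite 2 [hW]
          rw [hXp, hW]
          noncomm_ring
      _ = 0 := by rw [hpSp, mul_zero, zero_mul]
  have hWDW : W * D * W = p * (X * D * X) * p := by
    nth_rewrite 1 [hW]
    rw [hXp, hW]
    noncomm_ring
  have hWW : W * W = p * (X * X) * p := by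
    nth_rewrite 1 [hW]
    rw [hXp, hW]
    noncomm_ring
  have e1 : (F + W) * (F + W) = F * F + W * W := by
    rw [add_mul, mul_add, mul_add, hFW, hWF, add_zero, zero_add]
  have e2 : (F + W) * (D + t • S) * (F + W) = F * D * F + W * D * W + t • (F * S * F) +
      t • (F * S * W) + t • (W * S * F) := by
    calc (F + W) * (D + t • S) * (F + W) = F * D * F + F * D * W + W * D * F + W * D * W +
        t • (F * S * F) + t • (F * S * W) + t • (W * S * F) + t • (W * S * W) := by
          simp only [add_mul, mul_add, mul_smul_comm, smul_mul_assoc, smul_add]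
          abel
      _ = _ := by rw [hFDW, hWDF, hWSW, smul_zero]; abel
  -- the non-negative terms
  have p2 : 0 ≤ W * D * W + δ' • (W * W) := by
    have := hpsa.conjugate_nonneg h2
    rw [mul_add, add_mul, mul_smul_comm, smul_mul_assoc, ← hWDW, ← hWW] at this
    exact this
  have p3 : 0 ≤ t • (F * S * F + s • (F * F)) := by
    have := hFsa.conjugate_nonneg h3
    rw [mul_add, add_mul, mul_smul_comm, smul_mul_assoc, mul_one] at this
    exact smul_nonneg ht this
  have hFF : 0 ≤ F * F := by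
    nth_rewrite 1 [← hF]
    exact star_mul_self_nonneg F
  have p4 : 0 ≤ (δ / 4 - t * s + (δ' + 4 * t ^ 2 * s ^ 2 / δ)) • (F * F) := by
    refine smul_nonneg ?_ hFF
    have : 0 ≤ 4 * t ^ 2 * s ^ 2 / δ := by positivity
    linarith
  have p5 : 0 ≤ (δ / 4) • (F * F) + t • (F * S * W) + t • (W * S * F) +
      (4 * t ^ 2 / δ) • (W * (S * S) * W) := by
    have h5 := star_mul_self_nonneg ((δ / 4) • F + t • (S * W))
    have h6 : star ((δ / 4) • F + t • (S * W)) = (δ / 4) • F + t • (W * S) := by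
      rw [star_add, star_smul, star_smul, star_mul, hF, hWs, hS, star_trivial, star_trivial]
    rw [h6] at h5
    have h7 : 0 ≤ 4 / δ := by positivity
    have h8 := smul_nonneg h7 h5
    have h9 : (4 / δ) • (((δ / 4) • F + t • (W * S)) * ((δ / 4) • F + t • (S * W))) =
        (δ / 4) • (F * F) + t • (F * S * W) + t • (W * S * F) +
          (4 * t ^ 2 / δ) • (W * (S * S) * W) := by
      have k1 : W * S * (S * W) = W * (S * S) * W := by noncomm_ring
      have k2 : F * (S * W) = F * S * W := by noncomm_ring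
      simp only [add_mul, mul_add, mul_smul_comm, smul_mul_assoc, smul_add, smul_smul]
      rw [k1, k2]
      have c1 : 4 / δ * (δ / 4 * (δ / 4)) = δ / 4 := by field_simp
      have c2 : 4 / δ * (δ / 4 * t) = t := by field_simp
      have c3 : 4 / δ * (t * t) = 4 * t ^ 2 / δ := by ring
      have c4 : 4 / δ * (t * (δ / 4)) = t := by field_simp
      simp only [c1, c2, c3, c4]
      abel
    rw [h9] at h8
    exact h8
  have p6 : 0 ≤ (4 * t ^ 2 / δ) • ((s ^ 2) • (W * W) - W * (S * S) * W) := by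
    have := hWsa.conjugate_nonneg h4
    rw [mul_sub, sub_mul, mul_smul_comm, smul_mul_assoc, mul_one] at this
    exact smul_nonneg (by positivity) this
  rw [← sub_nonneg, e1, e2]
  have hsum := add_nonneg (add_nonneg (add_nonneg (add_nonneg (add_nonneg h1 p2) p3) p4) p5) p6
  refine le_of_le_of_eq hsum ?_
  match_scalars <;> field_simp <;> ring

end Pool.Agent.H748.Hom
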