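import Pool.Agent.H748.Hom.Cst2

/-!
# The index inequality in C*-algebras with a trace
-/

set_option autoImplicit false
set_option linter.unusedSectionVars false

namespace Pool.Agent.H748.Hom

variable {B : Type*} [CStarAlgebra B] [PartialOrder B] [StarOrderedRing B]

/-- an odd operator `D`, a form `S` and a projection `p` with isotropic image -/
structure Gr (τ : TrS B) (D S p U : B) : Prop where
  Ds : D ∈ τ.s
  Ss : S ∈ τ.s
  ps : p ∈ τ.s
  Us : U ∈ τ.s
  hD : IsSelfAdjoint D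
  hS : IsSelfAdjoint S
  hp : IsSelfAdjoint p
  hU : IsSelfAdjoint U
  UU : U * U = 1
  UD : U * D * U = -D
  pp : p * p = p
  pD : Commute (D * D) p
  pS : p * S * p = 0

variable {τ : TrS B} {D S p U : B}

/-- symmetry of the spectrum -/
theorem Gr.symm (h : Gr τ D S p U) {f : ℝ → ℝ} (hf : Continuous f) :
    τ.T (cfc (fun x => f (-x)) D) = τ.T (cfc f D) := by
  have hu : U ∈ unitary B := by
    rw [Unitary.mem_iff, h.hU.star_eq]
    exact ⟨h.UU, h.UU⟩
  set u : unitary B := ⟨U, hu⟩ with hudef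
  have h1 : ∀ x, Unitary.conjStarAlgAut ℝ B u x = U * x * U := by
    intro x
    rw [Unitary.conjStarAlgAut_apply, hudef]
    show U * x * star U = _
    rw [h.hU.star_eq]
  have hsa := h.hD
  have h2 : cfc f (-D) = U * cfc f D * U := by
    have h3 := StarAlgHomClass.map_cfc (S := ℝ) (Unitary.conjStarAlgAut ℝ B u) f D
      (hf.continuousOn) (by
        have h4 : (⇑(Unitary.conjStarAlgAut ℝ B u) : B → B) = fun x => U * x * U := funext h1
        rw [h4]
        fun_prop) h.hD (by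
        rw [h1, h.UD]
        exact h.hD.neg)
    rw [h1, h1, h.UD] at h3
    exact h3.symm
  rw [cfc_comp_neg f D (hf.continuousOn) h.hD, h2, mul_assoc,
    τ.tr U h.Us _ (mul_mem (τ.cfc_mem h.Ds f) h.Us), mul_assoc, h.UU, mul_one]

theorem Gr.cfc_sq (h : Gr τ D S p U) : cfc (fun x : ℝ => x * x) D = D * D := by
  have hsa := h.hD
  rw [cfc_mul (fun x : ℝ => x) (fun x : ℝ => x) D, cfc_id' ℝ D]

/-- even functions commute with the projection -/
theorem Gr.comm (h : Gr τ D S p U) {f : ℝ → ℝ} (hf : Continuous f) (hev : ∀ x, f (-x) = f x) :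
    Commute (cfc f D) p := by
  have hsa := h.hD
  have h1 : cfc f D = cfc (fun y => f (Real.sqrt y)) (D * D) := by
    rw [← h.cfc_sq, ← cfc_comp' (fun y => f (Real.sqrt y)) (fun x : ℝ => x * x) D
      (Continuous.continuousOn (by fun_prop)) (Continuous.continuousOn (by fun_prop)) hsa]
    refine cfc_congr fun x _ => ?_
    show f x = f (Real.sqrt (x * x))
    rw [Real.sqrt_mul_self_eq_abs]
    rcases abs_choice x with h2 | h2
    · rw [h2]
    · rw [h2, hev]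
  rw [h1]
  exact h.pD.cfc_real _

theorem Gr.pTp (h : Gr τ D S p U) {f : ℝ → ℝ} (hf : Continuous f) (hev : ∀ x, f (-x) = f x) :
    p * cfc f D = p * cfc f D * p := by
  rw [mul_assoc, (h.comm hf hev).eq, ← mul_assoc, h.pp]

theorem Gr.p_le_one (h : Gr τ D S p U) : p ≤ 1 := by
  have h1 : 1 - p = star (1 - p) * (1 - p) := by
    rw [star_sub, star_one, h.hp.star_eq, sub_mul, mul_sub, mul_sub, h.pp]
    simp
  rw [← sub_nonneg, h1]
  exact star_mul_self_nonneg _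

theorem Gr.p_nonneg (h : Gr τ D S p U) : 0 ≤ p := by
  rw [← h.pp]
  nth_rewrite 1 [← h.hp.star_eq]
  exact star_mul_self_nonneg p

theorem Gr.p_mono (h : Gr τ D S p U) {f g : ℝ → ℝ} (hf : Continuous f) (hg : Continuous g)
    (hfe : ∀ x, f (-x) = f x) (hge : ∀ x, g (-x) = g x) {ε : ℝ} (hε : 0 ≤ ε)
    (hfg : ∀ x ∈ spectrum ℝ D, f x ≤ g x + ε) :
    τ.T (p * cfc f D) ≤ τ.T (p * cfc g D) + ε * τ.T 1 := by
  have hsa := h.hD
  have h1 : cfc f D ≤ cfc g D + ε • 1 := by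
    have e1 : cfc g D + ε • 1 = cfc (fun x => g x + ε) D := by
      rw [cfc_add_const ε g D, Algebra.algebraMap_eq_smul_one]
    rw [e1]
    exact cfc_mono hfg (by fun_prop) (by fun_prop)
  have h2 := h.hp.conjugate_le_conjugate h1
  rw [← h.pTp hf hfe, mul_add, add_mul, ← h.pTp hg hge, mul_smul_comm, smul_mul_assoc, mul_one,
    h.pp] at h2
  have h3 := τ.mono h2
  rw [map_add, map_smul, smul_eq_mul] at h3
  have h4 := mul_le_mul_of_nonneg_left (τ.mono h.p_le_one) hε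
  linarith

theorem T_mono' (τ : TrS B) {D : B} (hD : IsSelfAdjoint D) {f g : ℝ → ℝ} (hf : Continuous f)
    (hg : Continuous g) {ε : ℝ} (hfg : ∀ x ∈ spectrum ℝ D, f x ≤ g x + ε) :
    τ.T (cfc f D) ≤ τ.T (cfc g D) + ε * τ.T 1 := by
  have h1 : cfc f D ≤ cfc g D + ε • 1 := by
    have e1 : cfc g D + ε • 1 = cfc (fun x => g x + ε) D := by
      rw [cfc_add_const ε g D, Algebra.algebraMap_eq_smul_one]
    rw [e1]
    exact cfc_mono hfg (by fun_prop) (by fun_prop)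
  have h3 := τ.mono h1
  rwa [map_add, map_smul, smul_eq_mul] at h3

/-- the functions which converge to the indicator function of `0` -/
noncomputable def fk (C : ℝ) (k : ℕ) (x : ℝ) : ℝ := (1 - (C ^ 2)⁻¹ * x ^ 2) ^ k

theorem fk_cont (C : ℝ) (k : ℕ) : Continuous (fk C k) := by
  unfold fk
  fun_prop

theorem fk_even (C : ℝ) (k : ℕ) (x : ℝ) : fk C k (-x) = fk C k x := by
  unfold fk
  rw [neg_sq]

theorem fk_base {C x : ℝ} (hC : 0 < C) (hx : |x| ≤ C) :
    0 ≤ 1 - (C ^ 2)⁻¹ * x ^ 2 ∧ 1 - (C ^ 2)⁻¹ * x ^ 2 ≤ 1 := by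
  have h1 : x ^ 2 ≤ C ^ 2 := by
    rw [← sq_abs]
    exact pow_le_pow_left₀ (abs_nonneg x) hx 2
  constructor
  · rw [sub_nonneg, inv_mul_le_iff₀ (by positivity), mul_one]
    exact h1
  · have : 0 ≤ (C ^ 2)⁻¹ * x ^ 2 := by positivity
    linarith

theorem fk_nonneg {C x : ℝ} (hC : 0 < C) (hx : |x| ≤ C) (k : ℕ) : 0 ≤ fk C k x :=
  pow_nonneg (fk_base hC hx).1 k

theorem fk_le_one {C x : ℝ} (hC : 0 < C) (hx : |x| ≤ C) (k : ℕ) : fk C k x ≤ 1 :=
  pow_le_one₀ (fk_base hC hx).1 (fk_base hC hx).2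

theorem fk_small {C ρ ε : ℝ} (hC : 0 < C) (hρ : 0 < ρ) (hε : 0 < ε) :
    ∃ k : ℕ, ∀ x : ℝ, ρ ≤ |x| → |x| ≤ C → fk C k x ≤ ε := by
  by_cases hρC : ρ ≤ C
  · have hb := fk_base (x := ρ) hC (by rwa [abs_of_pos hρ])
    have hlt : 1 - (C ^ 2)⁻¹ * ρ ^ 2 < 1 := by
      have : 0 < (C ^ 2)⁻¹ * ρ ^ 2 := by positivity
      linarith
    obtain ⟨k, hk⟩ := exists_pow_lt_of_lt_one hε hlt
    refine ⟨k, fun x hx hxC => ?_⟩
    refine le_trans ?_ hk.le
    refine pow_le_pow_left₀ (fk_base hC hxC).1 ?_ k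
    have h1 : ρ ^ 2 ≤ x ^ 2 := by
      rw [← sq_abs x]
      exact pow_le_pow_left₀ hρ.le hx 2
    have h2 := mul_le_mul_of_nonneg_left h1 (inv_nonneg.2 (sq_nonneg C))
    linarith
  · exact ⟨0, fun x hx hxC => absurd (hx.trans hxC) hρC⟩

theorem fk_zero (C : ℝ) (k : ℕ) : fk C k 0 = 1 := by
  unfold fk
  norm_num

/-- a cut-off function -/
noncomputable def ph (δ x : ℝ) : ℝ := max 0 (min 1 (2 * x / δ - 1))

theorem ph_cont (δ : ℝ) : Continuous (ph δ) := by
  unfold ph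
  fun_prop

theorem ph_nonneg (δ x : ℝ) : 0 ≤ ph δ x := le_max_left _ _

theorem ph_le_one (δ x : ℝ) : ph δ x ≤ 1 := max_le zero_le_one (min_le_left _ _)

theorem ph_zero {δ x : ℝ} (hδ : 0 < δ) (hx : x ≤ δ / 2) : ph δ x = 0 := by
  unfold ph
  apply max_eq_left
  refine (min_le_right _ _).trans ?_
  rw [sub_nonpos, div_le_one hδ]
  linarith

theorem ph_one {δ x : ℝ} (hδ : 0 < δ) (hx : δ ≤ x) : ph δ x = 1 := by
  unfold ph
  rw [min_eq_left, max_eq_right zero_le_one]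
  rw [le_sub_iff_add_le, le_div_iff₀ hδ]
  linarith

/-- a bump function -/
noncomputable def ch (δ x : ℝ) : ℝ := max 0 (1 - |x| / δ)

theorem ch_cont (δ : ℝ) : Continuous (ch δ) := by
  unfold ch
  fun_prop

theorem ch_even (δ x : ℝ) : ch δ (-x) = ch δ x := by
  unfold ch
  rw [abs_neg]

theorem ch_nonneg (δ x : ℝ) : 0 ≤ ch δ x := le_max_left _ _

theorem ch_le_one {δ : ℝ} (hδ : 0 < δ) (x : ℝ) : ch δ x ≤ 1 := by
  unfold ch
  refine max_le zero_le_one ?_
  have : 0 ≤ |x| / δ := by positivity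
  linarith

theorem ch_eq_zero {δ x : ℝ} (hδ : 0 < δ) (hx : δ ≤ |x|) : ch δ x = 0 := by
  unfold ch
  apply max_eq_left
  rw [sub_nonpos, one_le_div hδ]
  exact hx

theorem ch_at_zero (δ : ℝ) : ch δ 0 = 1 := by
  unfold ch
  rw [abs_zero, zero_div, sub_zero]
  exact max_eq_right zero_le_one

end Pool.Agent.H748.Hom
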