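import Pool.Agent.H748.Hom.Cst3

/-!
# The index inequality in C*-algebras with a trace: proof
-/

set_option autoImplicit false
set_option linter.unusedSectionVars false

namespace Pool.Agent.H748.Hom

variable {B : Type*} [CStarAlgebra B] [PartialOrder B] [StarOrderedRing B]
variable {τ : TrS B} {D S p U : B}

theorem cfc_triple {a : B} (ha : IsSelfAdjoint a) {f g : ℝ → ℝ} (hf : Continuous f)
    (hg : Continuous g) : cfc f a * a * cfc g a = cfc (fun x => f x * x * g x) a := by
  rw [cfc_mul (fun x => f x * x) g a, cfc_mul f (fun x => x) a, cfc_id' ℝ a]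

theorem cfc_double {a : B} {f g : ℝ → ℝ} (hf : Continuous f)
    (hg : Continuous g) : cfc f a * cfc g a = cfc (fun x => f x * g x) a := by
  rw [cfc_mul f g a]

/-- the estimate for given cut-off parameters -/
theorem Gr.step (h : Gr τ D S p U) {c δ δ' s t σ : ℝ} (hc : 0 < c) (hδ : 0 < δ) (hδ' : 0 < δ')
    (hδδ : δ' ≤ δ / 2) (hs : ‖S‖ ≤ s) (ht : 0 < t) (hts : t * s ≤ δ / 4)
    (hη : δ' + 4 * t ^ 2 * s ^ 2 / δ < c * t)
    (hgap : ∀ x ∈ spectrum ℝ (D + t • S), c * t ≤ |x|)
    (hσ : ∃ g : ℝ → ℝ, Continuous g ∧ (∀ x, c * t ≤ x → g x = 1) ∧ (∀ x, x ≤ -(c * t) → g x = 0) ∧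
      τ.T (cfc g (D + t • S)) ≤ σ) :
    τ.T (cfc (fun x => ph δ x * ph δ x) D) + τ.T (p * cfc (fun x => ch δ' x * ch δ' x) D) ≤ σ := by
  obtain ⟨g, hg, hg1, hg0, hgσ⟩ := hσ
  have hDsa := h.hD
  have hSsa := h.hS
  have cp := ph_cont δ
  have cc := ch_cont δ'
  set F := cfc (ph δ) D with hF
  set X := cfc (ch δ') D with hX
  have hFsa : IsSelfAdjoint F := cfc_predicate _ _
  have hXsa : IsSelfAdjoint X := cfc_predicate _ _
  have hXp : X * p = p * X := (h.comm cc (ch_even δ')).eq
  have hzero : ∀ x, ph δ x * ch δ' x = 0 := by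
    intro x
    rcases le_or_gt x (δ / 2) with hx | hx
    · rw [ph_zero hδ hx, zero_mul]
    · rw [ch_eq_zero hδ' (by
        rw [abs_of_pos (by linarith)]
        linarith), mul_zero]
  have z0 : cfc (fun _ : ℝ => (0 : ℝ)) D = 0 := cfc_const_zero ℝ D
  have hFX : F * X = 0 := by
    rw [hF, hX, cfc_double cp cc, ← z0]
    exact congrArg (fun f => cfc f D) (funext hzero)
  have hXF : X * F = 0 := by
    rw [hF, hX, cfc_double cc cp, ← z0]
    refine congrArg (fun f => cfc f D) (funext fun x => ?_)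
    rw [mul_comm, hzero]
  have hFDX : F * D * X = 0 := by
    rw [hF, hX, cfc_triple hDsa cp cc, ← z0]
    refine congrArg (fun f => cfc f D) (funext fun x => ?_)
    have := hzero x
    calc ph δ x * x * ch δ' x = (ph δ x * ch δ' x) * x := by ring
      _ = 0 := by rw [this, zero_mul]
  have hXDF : X * D * F = 0 := by
    rw [hF, hX, cfc_triple hDsa cc cp, ← z0]
    refine congrArg (fun f => cfc f D) (funext fun x => ?_)
    have := hzero x
    calc ch δ' x * x * ph δ x = (ph δ x * ch δ' x) * x := by ring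
      _ = 0 := by rw [this, zero_mul]
  have hFF : F * F = cfc (fun x => ph δ x * ph δ x) D := cfc_double cp cp
  have hXX : X * X = cfc (fun x => ch δ' x * ch δ' x) D := cfc_double cc cc
  have h1 : 0 ≤ F * D * F - (δ / 2) • (F * F) := by
    have e1 : F * D * F - (δ / 2) • (F * F) =
        cfc (fun x => ph δ x * x * ph δ x - (δ / 2) * (ph δ x * ph δ x)) D := by
      rw [hFF, hF, cfc_triple hDsa cp cp, ← cfc_const_mul (δ / 2) (fun x => ph δ x * ph δ x) D,
        ← cfc_sub (fun x => ph δ x * x * ph δ x) (fun x => (δ / 2) * (ph δ x * ph δ x)) D]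
    rw [e1]
    refine cfc_nonneg fun x _ => ?_
    rcases le_or_gt x (δ / 2) with hx | hx
    · rw [ph_zero hδ hx]
      simp
    · have := ph_nonneg δ x
      have h5 : ph δ x * x * ph δ x - (δ / 2) * (ph δ x * ph δ x) =
          (x - δ / 2) * (ph δ x * ph δ x) := by ring
      rw [h5]
      exact mul_nonneg (by linarith) (mul_self_nonneg _)
  have h2 : 0 ≤ X * D * X + δ' • (X * X) := by
    have e1 : X * D * X + δ' • (X * X) =
        cfc (fun x => ch δ' x * x * ch δ' x + δ' * (ch δ' x * ch δ' x)) D := by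
      rw [hXX, hX, cfc_triple hDsa cc cc, ← cfc_const_mul δ' (fun x => ch δ' x * ch δ' x) D,
        ← cfc_add D (fun x => ch δ' x * x * ch δ' x) (fun x => δ' * (ch δ' x * ch δ' x))]
    rw [e1]
    refine cfc_nonneg fun x _ => ?_
    rcases le_or_gt δ' |x| with hx | hx
    · rw [ch_eq_zero hδ' hx]
      simp
    · have h5 : ch δ' x * x * ch δ' x + δ' * (ch δ' x * ch δ' x) =
          (x + δ') * (ch δ' x * ch δ' x) := by ring
      rw [h5]
      have h6 := neg_abs_le x
      exact mul_nonneg (by linarith) (mul_self_nonneg _)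
  have hs0 : 0 ≤ s := (norm_nonneg S).trans hs
  have h3 : 0 ≤ S + s • 1 := by
    have e1 : S + s • 1 = cfc (fun x : ℝ => x + s) S := by
      rw [cfc_add_const s (fun x => x) S, cfc_id' ℝ S, Algebra.algebraMap_eq_smul_one]
    rw [e1]
    refine cfc_nonneg fun x hx => ?_
    have h5 := (abs_le_norm_of_mem hx).trans hs
    have h6 := neg_abs_le x
    linarith
  have h4 : 0 ≤ (s ^ 2) • 1 - S * S := by
    have e1 : (s ^ 2) • 1 - S * S = cfc (fun x : ℝ => s ^ 2 - x * x) S := by
      rw [cfc_sub (fun _ => s ^ 2) (fun x : ℝ => x * x) S, cfc_const _ S,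
        cfc_mul (fun x : ℝ => x) (fun x : ℝ => x) S, cfc_id' ℝ S,
        Algebra.algebraMap_eq_smul_one]
    rw [e1]
    refine cfc_nonneg fun x hx => ?_
    have h5 := (abs_le_norm_of_mem hx).trans hs
    have h6 : x * x ≤ s ^ 2 := by
      rw [← sq, ← sq_abs]
      exact pow_le_pow_left₀ (abs_nonneg x) h5 2
    linarith
  have hform := form_ineq hFsa hXsa hSsa h.hp h.pp hXp hFX hXF hFDX hXDF h.pS hδ hδ'.le ht.le hts
    h1 h2 h3 h4
  -- the element `K`
  set K := F + X * p with hK
  have hWs : star (X * p) = X * p := by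
    rw [star_mul, hXsa.star_eq, h.hp.star_eq, hXp]
  have hKsa : IsSelfAdjoint K := by
    rw [hK]
    exact hFsa.add hWs
  have hKs : K ∈ τ.s := add_mem (τ.cfc_mem h.Ds _) (mul_mem (τ.cfc_mem h.Ds _) h.ps)
  have hKK : K * K = F * F + p * (X * X) := by
    have k1 : F * (X * p) = 0 := by rw [← mul_assoc, hFX, zero_mul]
    have k2 : (X * p) * F = 0 := by rw [hXp, mul_assoc, hXF, mul_zero]
    have k3 : (X * p) * (X * p) = p * (X * X) := by
      calc (X * p) * (X * p) = (p * X) * (p * X) := by rw [hXp]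
        _ = p * (X * p) * X := by noncomm_ring
        _ = (p * p) * (X * X) := by rw [hXp]; noncomm_ring
        _ = _ := by rw [h.pp]
    rw [hK, add_mul, mul_add, mul_add, k1, k2, k3, add_zero, zero_add]
  have hXXc : Continuous fun x => ch δ' x * ch δ' x := by fun_prop
  have hK1 : ‖K‖ ≤ 1 := by
    have h5 : 0 ≤ K * K := by
      nth_rewrite 1 [← hKsa.star_eq]
      exact star_mul_self_nonneg K
    have h6 : K * K ≤ 1 := by
      have h7 : p * (X * X) ≤ X * X := by
        have h8 : X * X - p * (X * X) = star (X - X * p) * (X - X * p) := by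
          rw [star_sub, hWs, hXsa.star_eq, sub_mul, mul_sub, mul_sub]
          have k3 : (X * p) * (X * p) = p * (X * X) := by
            calc (X * p) * (X * p) = (p * X) * (p * X) := by rw [hXp]
              _ = p * (X * p) * X := by noncomm_ring
              _ = (p * p) * (X * X) := by rw [hXp]; noncomm_ring
              _ = _ := by rw [h.pp]
          have k4 : X * (X * p) = p * (X * X) := by
            rw [hXp, ← mul_assoc, hXp, mul_assoc]
          have k5 : (X * p) * X = p * (X * X) := by rw [hXp, mul_assoc]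
          rw [k3, k4, k5]
          abel
        rw [← sub_nonneg, h8]
        exact star_mul_self_nonneg _
      have h9 : F * F + X * X ≤ 1 := by
        rw [hFF, hXX, ← cfc_add D (fun x => ph δ x * ph δ x) (fun x => ch δ' x * ch δ' x),
          ← cfc_const_one ℝ D]
        refine cfc_mono (fun x _ => ?_) (by fun_prop) (by fun_prop)
        have a1 := ph_nonneg δ x
        have a2 := ph_le_one δ x
        have a3 := ch_nonneg δ' x
        have a4 := ch_le_one hδ' x
        show ph δ x * ph δ x + ch δ' x * ch δ' x ≤ 1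
        rcases mul_eq_zero.1 (hzero x) with h0 | h0
        · rw [h0]
          nlinarith
        · rw [h0]
          nlinarith
      rw [hKK]
      exact (add_le_add_right h7 _).trans h9
    have h7 := (CStarAlgebra.norm_le_one_iff_of_nonneg (K * K) h5).2 h6
    rw [hKsa.norm_mul_self] at h7
    nlinarith [norm_nonneg K]
  have hA : IsSelfAdjoint (D + t • S) := hDsa.add ((IsSelfAdjoint.all t).smul hSsa)
  have hAs : D + t • S ∈ τ.s := by
    refine add_mem h.Ds ?_
    have h5 : t • S = (t : ℂ) • S := (Complex.coe_smul t S).symm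
    rw [h5]
    exact τ.s.smul_mem h.Ss _
  have h5 := τ.proj hA hAs hKsa hKs hK1 (mul_pos hc ht) hη hgap hform hg hg1 hg0
  rw [hKK, map_add, hFF, hXX] at h5
  exact h5.trans hgσ

/-- **The index inequality.** -/
theorem Gr.main (h : Gr τ D S p U) {c C σ β : ℝ} (hc : 0 < c) (hC : 0 < C) (hDC : ‖D‖ ≤ C)
    (hgap : ∀ t, 0 < t → t ≤ 1 → ∀ x ∈ spectrum ℝ (D + t • S), c * t ≤ |x|)
    (hσ : ∀ t, 0 < t → t ≤ 1 → ∃ g : ℝ → ℝ, Continuous g ∧ (∀ x, c * t ≤ x → g x = 1) ∧
      (∀ x, x ≤ -(c * t) → g x = 0) ∧ τ.T (cfc g (D + t • S)) ≤ σ)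
    (hβ : ∀ k, β ≤ τ.T (p * cfc (fk C k) D)) (k : ℕ) :
    (τ.T 1 - τ.T (cfc (fk C k) D)) / 2 + β ≤ σ := by
  have hN : 0 ≤ τ.T 1 := τ.pos 1 (by
    rw [← one_mul (1 : B)]
    nth_rewrite 1 [← star_one B]
    exact star_mul_self_nonneg 1)
  have hDsa := h.hD
  have hspec : ∀ x ∈ spectrum ℝ D, |x| ≤ C := fun x hx => (abs_le_norm_of_mem hx).trans hDC
  -- the estimate up to `ε`
  have key : ∀ ε : ℝ, 0 < ε → (τ.T 1 - τ.T (cfc (fk C k) D)) / 2 + β - 2 * ε * τ.T 1 ≤ σ := by
    intro ε hε
    -- choice of `δ`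
    obtain ⟨δ, hδ, hδf⟩ : ∃ δ > 0, ∀ x : ℝ, |x| < δ → 1 ≤ fk C k x + ε := by
      have h1 := (fk_cont C k).continuousAt (x := 0)
      rw [Metric.continuousAt_iff] at h1
      obtain ⟨δ, hδ, h2⟩ := h1 ε hε
      refine ⟨δ, hδ, fun x hx => ?_⟩
      have h3 := h2 (x := x) (by rwa [Real.dist_eq, sub_zero])
      rw [Real.dist_eq, fk_zero] at h3
      have h4 := (abs_lt.1 h3).1
      linarith
    set s := ‖S‖ with hs
    have hs0 : 0 ≤ s := norm_nonneg S
    -- choice of `t`
    set t := min 1 (min (δ / (4 * (s + 1))) (c * δ / (16 * (s ^ 2 + 1)))) with ht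
    have ht0 : 0 < t := by
      refine lt_min one_pos (lt_min ?_ ?_) <;> positivity
    have ht1 : t ≤ 1 := min_le_left _ _
    have ht2 : t * s ≤ δ / 4 := by
      have h1 : t ≤ δ / (4 * (s + 1)) := (min_le_right _ _).trans (min_le_left _ _)
      rw [le_div_iff₀ (by positivity)] at h1
      nlinarith
    have ht3 : 4 * t ^ 2 * s ^ 2 / δ ≤ c * t / 4 := by
      have h1 : t ≤ c * δ / (16 * (s ^ 2 + 1)) := (min_le_right _ _).trans (min_le_right _ _)
      rw [le_div_iff₀ (by positivity)] at h1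
      rw [div_le_iff₀ hδ]
      have h2 : 16 * t * s ^ 2 ≤ c * δ := by nlinarith [sq_nonneg s]
      nlinarith
    set δ' := min (c * t / 4) (δ / 2) with hδ'
    have hδ'0 : 0 < δ' := lt_min (by positivity) (by positivity)
    have hδ'1 : δ' ≤ c * t / 4 := min_le_left _ _
    have hδ'2 : δ' ≤ δ / 2 := min_le_right _ _
    have hη : δ' + 4 * t ^ 2 * s ^ 2 / δ < c * t := by
      have : 0 < c * t := mul_pos hc ht0
      linarith
    have h1 := h.step hc hδ hδ'0 hδ'2 (le_refl _) ht0 ht2 hη (hgap t ht0 ht1) (hσ t ht0 ht1)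
    -- the first term
    have cp := ph_cont δ
    have cc := ch_cont δ'
    have cpp : Continuous fun x => ph δ x * ph δ x := by fun_prop
    have cpn : Continuous fun x => ph δ (-x) * ph δ (-x) := by fun_prop
    have h2 : τ.T 1 - τ.T (cfc (fk C k) D) - ε * τ.T 1 ≤
        2 * τ.T (cfc (fun x => ph δ x * ph δ x) D) := by
      have h3 := h.symm cpp
      have h4 : τ.T (cfc (fun _ : ℝ => (1 : ℝ)) D) ≤
          τ.T (cfc (fun x => (ph δ x * ph δ x + ph δ (-x) * ph δ (-x)) + fk C k x) D) +
            ε * τ.T 1 := by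
        refine T_mono' τ hDsa (by fun_prop) ((cpp.add cpn).add (fk_cont C k)) fun x hx => ?_
        have hf0 := fk_nonneg hC (hspec x hx) k
        show (1 : ℝ) ≤ (ph δ x * ph δ x + ph δ (-x) * ph δ (-x)) + fk C k x + ε
        rcases lt_or_ge |x| δ with hx1 | hx1
        · have := hδf x hx1
          have a1 := mul_self_nonneg (ph δ x)
          have a2 := mul_self_nonneg (ph δ (-x))
          linarith
        · rcases le_abs.1 hx1 with hx2 | hx2
          · have a1 := ph_one hδ hx2
            have a2 := mul_self_nonneg (ph δ (-x))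
            rw [a1]
            linarith
          · have a1 := ph_one hδ hx2
            have a2 := mul_self_nonneg (ph δ x)
            rw [a1]
            linarith
      rw [cfc_const_one ℝ D, cfc_add D (fun x => ph δ x * ph δ x + ph δ (-x) * ph δ (-x))
        (fk C k) ((cpp.add cpn).continuousOn) (fk_cont C k).continuousOn,
        cfc_add D (fun x => ph δ x * ph δ x) (fun x => ph δ (-x) * ph δ (-x)) cpp.continuousOn
          cpn.continuousOn, map_add, map_add] at h4
      linarith
    -- the second term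
    have h3 : β - ε * τ.T 1 ≤ τ.T (p * cfc (fun x => ch δ' x * ch δ' x) D) := by
      obtain ⟨ρ, hρ, hρf⟩ : ∃ ρ > 0, ∀ x : ℝ, |x| < ρ → 1 ≤ ch δ' x * ch δ' x + ε := by
        have h1 := (cc.mul cc).continuousAt (x := 0)
        rw [Metric.continuousAt_iff] at h1
        obtain ⟨ρ, hρ, h2⟩ := h1 ε hε
        refine ⟨ρ, hρ, fun x hx => ?_⟩
        have h3 := h2 (x := x) (by rwa [Real.dist_eq, sub_zero])
        rw [Real.dist_eq] at h3
        have h4 : -ε < ch δ' x * ch δ' x - ch δ' 0 * ch δ' 0 := (abs_lt.1 h3).1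
        have h5 : ch δ' 0 * ch δ' 0 = 1 := by rw [ch_at_zero, one_mul]
        rw [h5] at h4
        linarith
      obtain ⟨m, hm⟩ := fk_small hC hρ hε
      have h4 := h.p_mono (fk_cont C m) (cc.mul cc) (fk_even C m) (fun x => by
        show ch δ' (-x) * ch δ' (-x) = ch δ' x * ch δ' x
        rw [ch_even]) hε.le (fun x hx => by
          show fk C m x ≤ ch δ' x * ch δ' x + ε
          rcases lt_or_ge |x| ρ with hx1 | hx1
          · exact (fk_le_one hC (hspec x hx) m).trans (hρf x hx1)
          · have := mul_self_nonneg (ch δ' x)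
            linarith [hm x hx1 (hspec x hx)])
      have h5 := hβ m
      have h6 : τ.T (p * cfc (fun x => ch δ' x * ch δ' x) D) =
          τ.T (p * cfc ((ch δ') * (ch δ')) D) := rfl
      rw [h6]
      linarith
    nlinarith
  by_contra hcon
  rw [not_le] at hcon
  set L := (τ.T 1 - τ.T (cfc (fk C k) D)) / 2 + β with hL
  have h1 := key ((L - σ) / (4 * (τ.T 1 + 1))) (by
    apply div_pos (by linarith) (by linarith))
  have h2 : 2 * ((L - σ) / (4 * (τ.T 1 + 1))) * τ.T 1 ≤ (L - σ) / 2 := by
    rw [mul_div_assoc', div_mul_eq_mul_div, div_le_div_iff₀ (by linarith) (by norm_num)]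
    nlinarith
  linarith

end Pool.Agent.H748.Hom
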