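import Pool.Agent.H748.Hom.Cst4

/-!
# The index inequality for graded operators
-/

set_option autoImplicit false
set_option linter.unusedSectionVars false

namespace Pool.Agent.H748.Hom

open Filter

variable {B : Type*} [CStarAlgebra B] [PartialOrder B] [StarOrderedRing B]
variable {τ : TrS B} {D S p q U : B}

/-- a projection which commutes with the square of `D` -/
structure Pj (D p : B) : Prop where
  hD : IsSelfAdjoint D
  hp : IsSelfAdjoint p
  pp : p * p = p
  pD : Commute (D * D) p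

theorem Gr.pj (h : Gr τ D S p U) : Pj D p := ⟨h.hD, h.hp, h.pp, h.pD⟩

theorem Pj.comm (h : Pj D p) {f : ℝ → ℝ} (hf : Continuous f) (hev : ∀ x, f (-x) = f x) :
    Commute (cfc f D) p := by
  have hsa := h.hD
  have h0 : cfc (fun x : ℝ => x * x) D = D * D := by
    rw [cfc_mul (fun x : ℝ => x) (fun x : ℝ => x) D, cfc_id' ℝ D]
  have h1 : cfc f D = cfc (fun y => f (Real.sqrt y)) (D * D) := by
    rw [← h0, ← cfc_comp' (fun y => f (Real.sqrt y)) (fun x : ℝ => x * x) D
      (Continuous.continuousOn (by fun_prop)) (Continuous.continuousOn (by fun_prop)) hsa]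
    refine cfc_congr fun x _ => ?_
    show f x = f (Real.sqrt (x * x))
    rw [Real.sqrt_mul_self_eq_abs]
    rcases abs_choice x with h2 | h2
    · rw [h2]
    · rw [h2, hev]
  rw [h1]
  exact h.pD.cfc_real _

theorem Pj.mono (h : Pj D p) (τ : TrS B) {f g : ℝ → ℝ} (hf : Continuous f) (hg : Continuous g)
    (hfe : ∀ x, f (-x) = f x) (hge : ∀ x, g (-x) = g x)
    (hfg : ∀ x ∈ spectrum ℝ D, f x ≤ g x) : τ.T (p * cfc f D) ≤ τ.T (p * cfc g D) := by
  have hsa := h.hD
  have h1 : cfc f D ≤ cfc g D := cfc_mono hfg (by fun_prop) (by fun_prop)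
  have h2 := h.hp.conjugate_le_conjugate h1
  have h3 : ∀ {f : ℝ → ℝ}, Continuous f → (∀ x, f (-x) = f x) →
      p * cfc f D * p = p * cfc f D := by
    intro f hf hfe
    rw [mul_assoc, (h.comm hf hfe).eq, ← mul_assoc, h.pp]
  rw [h3 hf hfe, h3 hg hge] at h2
  exact τ.mono h2

theorem Pj.nonneg (h : Pj D p) (τ : TrS B) {f : ℝ → ℝ} (hf : Continuous f)
    (hfe : ∀ x, f (-x) = f x) (hfg : ∀ x ∈ spectrum ℝ D, 0 ≤ f x) :
    0 ≤ τ.T (p * cfc f D) := by
  have h1 := h.mono τ (f := fun _ => 0) (g := f) continuous_const hf (fun _ => rfl) hfe hfg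
  rwa [cfc_const_zero, mul_zero, map_zero] at h1

/-- the sequences which define the Betti numbers converge -/
theorem Pj.exists_lim (h : Pj D p) (τ : TrS B) {C : ℝ} (hC : 0 < C) (hDC : ‖D‖ ≤ C) :
    ∃ β : ℝ, 0 ≤ β ∧ (∀ k, β ≤ τ.T (p * cfc (fk C k) D)) ∧
      Tendsto (fun k => τ.T (p * cfc (fk C k) D)) atTop (nhds β) := by
  have hspec : ∀ x ∈ spectrum ℝ D, |x| ≤ C := fun x hx => (abs_le_norm_of_mem hx).trans hDC
  have hanti : Antitone fun k => τ.T (p * cfc (fk C k) D) := by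
    refine antitone_nat_of_succ_le fun k => ?_
    refine h.mono τ (fk_cont C _) (fk_cont C _) (fk_even C _) (fk_even C _) fun x hx => ?_
    have h1 := fk_base hC (hspec x hx)
    unfold fk
    rw [pow_succ]
    exact mul_le_of_le_one_right (pow_nonneg h1.1 k) h1.2
  have hnn : ∀ k, 0 ≤ τ.T (p * cfc (fk C k) D) := fun k =>
    h.nonneg τ (fk_cont C _) (fk_even C _) fun x hx => fk_nonneg hC (hspec x hx) k
  have hbdd : BddBelow (Set.range fun k => τ.T (p * cfc (fk C k) D)) :=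
    ⟨0, by rintro _ ⟨k, rfl⟩; exact hnn k⟩
  refine ⟨⨅ k, τ.T (p * cfc (fk C k) D), le_ciInf hnn, fun k => ciInf_le hbdd k,
    tendsto_atTop_ciInf hanti hbdd⟩

theorem Gr.neg (h : Gr τ D S p U) : Gr τ (-D) (-S) p U where
  Ds := neg_mem h.Ds
  Ss := neg_mem h.Ss
  ps := h.ps
  Us := h.Us
  hD := h.hD.neg
  hS := h.hS.neg
  hp := h.hp
  hU := h.hU
  UU := h.UU
  UD := by rw [mul_neg, neg_mul, h.UD]
  pp := h.pp
  pD := by
    rw [neg_mul_neg]
    exact h.pD
  pS := by rw [mul_neg, neg_mul, h.pS, neg_zero]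

/-- one half of the inequality -/
theorem Gr.half (hp : Gr τ D S p U) (hq : Gr τ D S q U) {c C σ ρ : ℝ} (hc : 0 < c) (hC : 0 < C)
    (hDC : ‖D‖ ≤ C) (hgap : ∀ t, 0 < t → t ≤ 1 → ∀ x ∈ spectrum ℝ (D + t • S), c * t ≤ |x|)
    (hσ : ∀ t, 0 < t → t ≤ 1 → ∃ g : ℝ → ℝ, Continuous g ∧ (∀ x, c * t ≤ x → g x = 1) ∧
      (∀ x, x ≤ -(c * t) → g x = 0) ∧ τ.T (cfc g (D + t • S)) ≤ σ)
    (hρ : Tendsto (fun k => τ.T ((1 - p - q) * cfc (fk C k) D)) atTop (nhds ρ)) :
    τ.T 1 - 2 * σ ≤ ρ := by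
  obtain ⟨β, -, h1, h2⟩ := hp.pj.exists_lim τ hC hDC
  obtain ⟨γ, -, h3, h4⟩ := hq.pj.exists_lim τ hC hDC
  have e1 := fun k => hp.main hc hC hDC hgap hσ h1 k
  have e2 := fun k => hq.main hc hC hDC hgap hσ h3 k
  have e3 : ∀ k, τ.T (cfc (fk C k) D) = τ.T ((1 - p - q) * cfc (fk C k) D) +
      τ.T (p * cfc (fk C k) D) + τ.T (q * cfc (fk C k) D) := by
    intro k
    rw [← map_add, ← map_add]
    congr 1
    noncomm_ring
  have h5 : ∀ k, τ.T 1 - 2 * σ + (β + γ) ≤ τ.T ((1 - p - q) * cfc (fk C k) D) +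
      τ.T (p * cfc (fk C k) D) + τ.T (q * cfc (fk C k) D) := by
    intro k
    have a1 := e1 k
    have a2 := e2 k
    have a3 := e3 k
    linarith
  have h6 := ge_of_tendsto' ((hρ.add h2).add h4) h5
  linarith

/-- **The signature is bounded by the middle Betti number.** -/
theorem Gr.two (hp : Gr τ D S p U) (hq : Gr τ D S q U) {c C σ ρ : ℝ} (hc : 0 < c) (hC : 0 < C)
    (hDC : ‖D‖ ≤ C) (hgap : ∀ t, 0 < t → t ≤ 1 → ∀ x ∈ spectrum ℝ (D + t • S), c * t ≤ |x|)
    (hσ : ∀ t, 0 < t → t ≤ 1 → ∃ g : ℝ → ℝ, Continuous g ∧ (∀ x, c * t ≤ x → g x = 1) ∧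
      (∀ x, x ≤ -(c * t) → g x = 0) ∧ 2 * τ.T (cfc g (D + t • S)) = τ.T 1 + σ)
    (hρ : Tendsto (fun k => τ.T ((1 - p - q) * cfc (fk C k) D)) atTop (nhds ρ)) :
    |σ| ≤ ρ := by
  rw [abs_le]
  constructor
  · have h1 := hp.half hq hc hC hDC hgap (σ := (τ.T 1 + σ) / 2) (fun t ht ht1 => by
      obtain ⟨g, h1, h2, h3, h4⟩ := hσ t ht ht1
      exact ⟨g, h1, h2, h3, by linarith⟩) hρ
    linarith
  · have hA : ∀ t : ℝ, IsSelfAdjoint (D + t • S) := fun t =>
      hp.hD.add ((IsSelfAdjoint.all t).smul hp.hS)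
    have hneg : ∀ t : ℝ, -D + t • (-S) = -(D + t • S) := fun t => by
      rw [smul_neg]
      abel
    have h1 := hp.neg.half hq.neg hc hC (by rwa [norm_neg]) (σ := (τ.T 1 - σ) / 2) (ρ := ρ)
      (fun t ht ht1 x hx => by
        rw [hneg, ← spectrum.neg_eq, Set.mem_neg] at hx
        have := hgap t ht ht1 _ hx
        rwa [abs_neg] at this)
      (fun t ht ht1 => by
        obtain ⟨g, h1, h2, h3, h4⟩ := hσ t ht ht1
        refine ⟨fun x => 1 - g (-x), by fun_prop, fun x hx => ?_, fun x hx => ?_, ?_⟩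
        · show 1 - g (-x) = 1
          rw [h3 (-x) (by linarith), sub_zero]
        · show 1 - g (-x) = 0
          rw [h2 (-x) (by linarith), sub_self]
        · have hAt := hA t
          have hcg : Continuous fun x => 1 - g (-x) := by fun_prop
          have e1 : cfc (fun x => 1 - g (-x)) (-(D + t • S)) = 1 - cfc g (D + t • S) := by
            rw [← cfc_comp_neg (fun x => 1 - g (-x)) (D + t • S) hcg.continuousOn hAt]
            have e2 : (fun x => (fun x => 1 - g (-x)) (-x)) = fun x => 1 - g x := by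
              funext x
              show 1 - g (- -x) = _
              rw [neg_neg]
            rw [e2, cfc_sub (fun _ => (1 : ℝ)) g (D + t • S), cfc_const_one ℝ (D + t • S)]
          rw [hneg, e1, map_sub]
          linarith)
      (by
        refine hρ.congr fun k => ?_
        rw [← cfc_comp_neg (fk C k) D (fk_cont C k).continuousOn hp.hD]
        congr 3
        funext x
        exact (fk_even C k x).symm)
    linarith

end Pool.Agent.H748.Hom
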