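import Pool.Agent.H748.Hom.Tgap

/-!
# Graded complexes, `L²`-Betti numbers and the signature
-/

set_option autoImplicit false
set_option linter.unusedSectionVars false

namespace Pool.Agent.H748.Hom

open Matrix Polynomial Filter Pool.Agent.H748.Sig Pool.Agent.H748.Art
open scoped InnerProductSpace

section abs

variable {B : Type*} [CStarAlgebra B] [PartialOrder B] [StarOrderedRing B]
variable {D p : B}

theorem Pj.mono_eps (h : Pj D p) (τ : TrS B) {f g : ℝ → ℝ} (hf : Continuous f)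
    (hg : Continuous g) (hfe : ∀ x, f (-x) = f x) (hge : ∀ x, g (-x) = g x) {ε : ℝ} (hε : 0 ≤ ε)
    (hfg : ∀ x ∈ spectrum ℝ D, f x ≤ g x + ε) :
    τ.T (p * cfc f D) ≤ τ.T (p * cfc g D) + ε * τ.T 1 := by
  have hsa := h.hD
  have h1 := h.mono τ (f := f) (g := fun x => g x + ε) hf (by fun_prop) hfe
    (fun x => by
      show g (-x) + ε = g x + ε
      rw [hge]) hfg
  rw [cfc_add_const ε g D, mul_add, map_add, Algebra.algebraMap_eq_smul_one, mul_smul_comm,
    mul_one, map_smul, smul_eq_mul] at h1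
  have h2 : p ≤ 1 := by
    have h1 : 1 - p = star (1 - p) * (1 - p) := by
      rw [star_sub, star_one, h.hp.star_eq, sub_mul, mul_sub, mul_sub, h.pp]
      simp
    rw [← sub_nonneg, h1]
    exact star_mul_self_nonneg _
  have h3 := mul_le_mul_of_nonneg_left (τ.mono h2) hε
  linarith

theorem Pj.lim_le (h : Pj D p) (τ : TrS B) {C C' : ℝ} (hC : 0 < C) (hC' : 0 < C')
    (hDC : ‖D‖ ≤ C) (hDC' : ‖D‖ ≤ C') {β β' : ℝ}
    (hβ : Tendsto (fun k => τ.T (p * cfc (fk C k) D)) atTop (nhds β))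
    (hβ' : ∀ k, β' ≤ τ.T (p * cfc (fk C' k) D)) : β' ≤ β := by
  have hspec : ∀ x ∈ spectrum ℝ D, |x| ≤ C := fun x hx => (abs_le_norm_of_mem hx).trans hDC
  have hspec' : ∀ x ∈ spectrum ℝ D, |x| ≤ C' := fun x hx => (abs_le_norm_of_mem hx).trans hDC'
  refine ge_of_tendsto' hβ fun k => ?_
  have hN : 0 ≤ τ.T 1 := τ.pos 1 zero_le_one
  have key : ∀ ε : ℝ, 0 < ε → β' ≤ τ.T (p * cfc (fk C k) D) + ε * τ.T 1 := by
    intro ε hε
    obtain ⟨δ, hδ, hδf⟩ : ∃ δ > 0, ∀ x : ℝ, |x| < δ → 1 ≤ fk C k x + ε := by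
      have h1 := (fk_cont C k).continuousAt (x := 0)
      rw [Metric.continuousAt_iff] at h1
      obtain ⟨δ, hδ, h2⟩ := h1 ε hε
      refine ⟨δ, hδ, fun x hx => ?_⟩
      have h3 := h2 (x := x) (by rwa [Real.dist_eq, sub_zero])
      rw [Real.dist_eq, fk_zero] at h3
      have h4 := (abs_lt.1 h3).1
      linarith
    obtain ⟨m, hm⟩ := fk_small hC' hδ hε
    refine (hβ' m).trans (h.mono_eps τ (fk_cont _ _) (fk_cont _ _) (fk_even _ _) (fk_even _ _)
      hε.le fun x hx => ?_)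
    rcases lt_or_ge |x| δ with hx1 | hx1
    · exact (fk_le_one hC' (hspec' x hx) m).trans (hδf x hx1)
    · have h1 := fk_nonneg hC (hspec x hx) k
      have h2 := hm x hx1 (hspec' x hx)
      linarith
  by_contra hcon
  rw [not_le] at hcon
  have h1 := key ((β' - τ.T (p * cfc (fk C k) D)) / (2 * (τ.T 1 + 1)))
    (div_pos (by linarith) (by linarith))
  have h2 : (β' - τ.T (p * cfc (fk C k) D)) / (2 * (τ.T 1 + 1)) * τ.T 1 ≤
      (β' - τ.T (p * cfc (fk C k) D)) / 2 := by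
    rw [div_mul_eq_mul_div, div_le_div_iff₀ (by linarith) (by norm_num)]
    nlinarith
  linarith

theorem cfc_fk {X : B} (hX : IsSelfAdjoint X) (C : ℝ) (k : ℕ) :
    cfc (fk C k) X = (1 - (C ^ 2)⁻¹ • (X * X)) ^ k := by
  have e1 : cfc (fun x : ℝ => 1 - (C ^ 2)⁻¹ * x ^ 2) X = 1 - (C ^ 2)⁻¹ • (X * X) := by
    rw [cfc_sub (fun _ => (1 : ℝ)) (fun x => (C ^ 2)⁻¹ * x ^ 2) X, cfc_const_one ℝ X,
      cfc_const_mul (C ^ 2)⁻¹ (fun x : ℝ => x ^ 2) X, cfc_pow_id X 2, pow_two X]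
  rw [← e1, ← cfc_pow (fun x : ℝ => 1 - (C ^ 2)⁻¹ * x ^ 2) k X]
  rfl

end abs

variable {G : Type} [Group G]
variable {ι : Type} [Fintype ι] [DecidableEq ι]

/-- diagonal projections -/
noncomputable def dg (P : ι → Prop) [DecidablePred P] : Matrix ι ι (MonoidAlgebra ℂ G) :=
  Matrix.diagonal fun i => if P i then 1 else 0

theorem adj_diagonal (f : ι → MonoidAlgebra ℂ G) (hf : ∀ i, adjE (f i) = f i) :
    adj (Matrix.diagonal f) = Matrix.diagonal f := by
  ext i j : 1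
  show adjE (Matrix.diagonal f j i) = Matrix.diagonal f i j
  by_cases h : i = j
  · rw [h, Matrix.diagonal_apply_eq, hf]
  · rw [Matrix.diagonal_apply_ne _ (Ne.symm h), Matrix.diagonal_apply_ne _ h, adjE_zero]

theorem adjE_one' : adjE (1 : MonoidAlgebra ℂ G) = 1 := by
  rw [MonoidAlgebra.one_def, adjE_single, inv_one, star_one]

theorem adj_dg (P : ι → Prop) [DecidablePred P] :
    adj (dg P : Matrix ι ι (MonoidAlgebra ℂ G)) = dg P := by
  refine adj_diagonal _ fun i => ?_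
  split_ifs
  · exact adjE_one'
  · exact adjE_zero

theorem dg_mul_dg (P : ι → Prop) [DecidablePred P] :
    (dg P : Matrix ι ι (MonoidAlgebra ℂ G)) * dg P = dg P := by
  unfold dg
  rw [Matrix.diagonal_mul_diagonal]
  congr 1
  funext i
  split_ifs <;> simp

theorem dg_commute (P : ι → Prop) [DecidablePred P] {X : Matrix ι ι (MonoidAlgebra ℂ G)}
    (h : ∀ i j, X i j ≠ 0 → (P i ↔ P j)) : X * dg P = dg P * X := by
  ext i j : 1
  unfold dg
  rw [Matrix.mul_diagonal, Matrix.diagonal_mul]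
  by_cases h0 : X i j = 0
  · rw [h0, zero_mul, mul_zero]
  · by_cases h1 : P i
    · rw [if_pos h1, if_pos ((h i j h0).1 h1), mul_one, one_mul]
    · rw [if_neg h1, if_neg (fun h2 => h1 ((h i j h0).2 h2)), mul_zero, zero_mul]

theorem dg_iso (P : ι → Prop) [DecidablePred P] {X : Matrix ι ι (MonoidAlgebra ℂ G)}
    (h : ∀ i j, X i j ≠ 0 → P i → ¬ P j) : dg P * X * dg P = 0 := by
  ext i j : 1
  unfold dg
  rw [Matrix.mul_diagonal, Matrix.diagonal_mul, Matrix.zero_apply]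
  by_cases h0 : X i j = 0
  · rw [h0, mul_zero, zero_mul]
  · by_cases h1 : P i
    · rw [if_neg (h i j h0 h1), mul_zero]
    · rw [if_neg h1, zero_mul, zero_mul]

theorem tau_dg_mul (P : ι → Prop) [DecidablePred P] (X : Matrix ι ι (MonoidAlgebra ℂ G)) :
    tau (dg P * X) = ∑ i with P i, (X i i).coeff 1 := by
  unfold tau dg
  rw [Finset.sum_filter]
  refine Finset.sum_congr rfl fun i _ => ?_
  rw [Matrix.diagonal_mul]
  split_ifs with h
  · rw [one_mul]
  · rw [zero_mul, MonoidAlgebra.coeff_zero, Finsupp.zero_apply]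

/-- the grading operator -/
noncomputable def gam (deg : ι → ℕ) : Matrix ι ι (MonoidAlgebra ℂ G) :=
  Matrix.diagonal fun i => (-1) ^ deg i

theorem adjE_neg' (x : MonoidAlgebra ℂ G) : adjE (-x) = -adjE x := by
  have h := adjE_smul (-1) x
  rw [neg_one_smul, star_neg, star_one, neg_one_smul] at h
  exact h

theorem adj_gam (deg : ι → ℕ) : adj (gam deg : Matrix ι ι (MonoidAlgebra ℂ G)) = gam deg := by
  refine adj_diagonal _ fun i => ?_
  rcases neg_one_pow_eq_or (MonoidAlgebra ℂ G) (deg i) with h | h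
  · rw [h, adjE_one']
  · rw [h, adjE_neg', adjE_one']

theorem gam_mul_gam (deg : ι → ℕ) : (gam deg : Matrix ι ι (MonoidAlgebra ℂ G)) * gam deg = 1 := by
  unfold gam
  rw [Matrix.diagonal_mul_diagonal, ← Matrix.diagonal_one]
  congr 1
  funext i
  rw [← pow_add, Even.neg_one_pow ⟨_, rfl⟩]

theorem gam_odd {deg : ι → ℕ} {X : Matrix ι ι (MonoidAlgebra ℂ G)}
    (h : ∀ i j, X i j ≠ 0 → (-1 : MonoidAlgebra ℂ G) ^ deg i * (-1) ^ deg j = -1) :
    gam deg * X * gam deg = -X := by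
  ext i j : 1
  unfold gam
  rw [Matrix.mul_diagonal, Matrix.diagonal_mul, Matrix.neg_apply]
  by_cases h0 : X i j = 0
  · rw [h0, mul_zero, zero_mul, neg_zero]
  · have h1 : Commute (X i j) ((-1) ^ deg j) := by
      exact ((Commute.neg_one_left (X i j)).pow_left _).symm
    rw [mul_assoc, h1.eq, ← mul_assoc, h i j h0, neg_one_mul]

theorem sign_succ (a c : ℕ) (h : c = a + 1 ∨ a = c + 1) :
    (-1 : MonoidAlgebra ℂ G) ^ a * (-1) ^ c = -1 := by
  rw [← pow_add]
  refine Odd.neg_one_pow ?_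
  rcases h with h | h
  · exact ⟨a, by omega⟩
  · exact ⟨c, by omega⟩

/-- graded complexes of dimension `2 m` -/
structure Grd (b S : Matrix ι ι (MonoidAlgebra ℂ G)) (deg : ι → ℕ) (m : ℕ) : Prop where
  hb : ∀ i j, b i j ≠ 0 → deg j = deg i + 1
  hS : ∀ i j, S i j ≠ 0 → deg i + deg j = 2 * m

theorem adj_ne {b : Matrix ι ι (MonoidAlgebra ℂ G)} {i j : ι} (h : adj b i j ≠ 0) :
    b j i ≠ 0 := by
  intro h0
  apply h
  show adjE (b j i) = 0
  rw [h0, adjE_zero]

theorem adj_add' (X Y : Matrix ι ι (MonoidAlgebra ℂ G)) : adj (X + Y) = adj X + adj Y := by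
  ext i j : 1
  exact adjE_add _ _

theorem adj_mul' (X Y : Matrix ι ι (MonoidAlgebra ℂ G)) : adj (X * Y) = adj Y * adj X := by
  ext i j : 1
  show adjE ((X * Y) j i) = (adj Y * adj X) i j
  rw [Matrix.mul_apply, Matrix.mul_apply, adjE_sum]
  refine Finset.sum_congr rfl fun k _ => ?_
  rw [adjE_mul]
  rfl

theorem Grd.D_ne {b S : Matrix ι ι (MonoidAlgebra ℂ G)} {deg : ι → ℕ} {m : ℕ}
    (h : Grd b S deg m) {i j : ι} (hij : (b + adj b) i j ≠ 0) :
    deg j = deg i + 1 ∨ deg i = deg j + 1 := by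
  rw [Matrix.add_apply] at hij
  by_cases h1 : b i j = 0
  · rw [h1, zero_add] at hij
    exact Or.inr (h.hb j i (adj_ne hij))
  · exact Or.inl (h.hb i j h1)

theorem sq_D {b : Matrix ι ι (MonoidAlgebra ℂ G)} (hbb : b * b = 0) :
    (b + adj b) * (b + adj b) = b * adj b + adj b * b := by
  have h1 : adj b * adj b = 0 := by
    rw [← adj_mul', hbb]
    ext i j : 1
    exact adjE_zero
  rw [add_mul, mul_add, mul_add, hbb, h1]
  abel

theorem Grd.lap_ne {b S : Matrix ι ι (MonoidAlgebra ℂ G)} {deg : ι → ℕ} {m : ℕ}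
    (h : Grd b S deg m) {i j : ι} (hij : (b * adj b + adj b * b) i j ≠ 0) : deg i = deg j := by
  rw [Matrix.add_apply] at hij
  by_cases h1 : (b * adj b) i j = 0
  · rw [h1, zero_add, Matrix.mul_apply] at hij
    obtain ⟨k, -, hk⟩ := Finset.exists_ne_zero_of_sum_ne_zero hij
    have h2 := h.hb k i (adj_ne (left_ne_zero_of_mul hk))
    have h3 := h.hb k j (right_ne_zero_of_mul hk)
    omega
  · rw [Matrix.mul_apply] at h1
    obtain ⟨k, -, hk⟩ := Finset.exists_ne_zero_of_sum_ne_zero h1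
    have h2 := h.hb i k (left_ne_zero_of_mul hk)
    have h3 := h.hb j k (adj_ne (right_ne_zero_of_mul hk))
    omega

theorem ext_comm {X Y : Matrix ι ι (MonoidAlgebra ℂ G)} (h : X * Y = Y * X) :
    Commute (ext X) (ext Y) := by
  show ext X * ext Y = ext Y * ext X
  rw [← ext_mul, ← ext_mul, h]

theorem Grd.gr {b S : Matrix ι ι (MonoidAlgebra ℂ G)} {deg : ι → ℕ} {m : ℕ}
    (h : Grd b S deg m) (hbb : b * b = 0) (hS : adj S = S) (P : ι → Prop) [DecidablePred P]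
    (hP : ∀ i j, deg i = deg j → (P i ↔ P j)) (hP2 : ∀ i j, deg i + deg j = 2 * m → P i → ¬ P j) :
    Gr (trS ι G) (ext (b + adj b)) (ext S) (ext (dg P)) (ext (gam deg)) where
  Ds := ext_mem _
  Ss := ext_mem _
  ps := ext_mem _
  Us := ext_mem _
  hD := ext_sa (by rw [adj_add', adj_adj, add_comm])
  hS := ext_sa hS
  hp := ext_sa (adj_dg P)
  hU := ext_sa (adj_gam deg)
  UU := by rw [← ext_mul, gam_mul_gam, ext_one]
  UD := by
    rw [← ext_mul, ← ext_mul, gam_odd fun i j hij => sign_succ _ _ (h.D_ne hij)]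
    exact map_neg extH _
  pp := by rw [← ext_mul, dg_mul_dg]
  pD := by
    rw [← ext_mul, sq_D hbb]
    exact ext_comm (dg_commute P fun i j hij => hP i j (h.lap_ne hij))
  pS := by
    rw [← ext_mul, ← ext_mul, dg_iso P fun i j hij => hP2 i j (h.hS i j hij)]
    exact map_zero extH

theorem Grd.pj {b S : Matrix ι ι (MonoidAlgebra ℂ G)} {deg : ι → ℕ} {m : ℕ}
    (h : Grd b S deg m) (hbb : b * b = 0) (P : ι → Prop) [DecidablePred P]
    (hP : ∀ i j, deg i = deg j → (P i ↔ P j)) :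
    Pj (ext (b + adj b)) (ext (dg P)) where
  hD := ext_sa (by rw [adj_add', adj_adj, add_comm])
  hp := ext_sa (adj_dg P)
  pp := by rw [← ext_mul, dg_mul_dg]
  pD := by
    rw [← ext_mul, sq_D hbb]
    exact ext_comm (dg_commute P fun i j hij => hP i j (h.lap_ne hij))

/-- the operators `1 - C⁻² Δ` -/
noncomputable def zC (b : Matrix ι ι (MonoidAlgebra ℂ G)) (C : ℝ) :
    Matrix ι ι (MonoidAlgebra ℂ G) :=
  1 - (((C ^ 2)⁻¹ : ℝ) : ℂ) • (b * adj b + adj b * b)

/-- the `i`-th `L²`-Betti number of a graded complex: the limit of the traces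
`tr (1 - C⁻² Δ_i) ^ k`, where `C` is any bound for the norm of `b + b*` -/
def IsL2Betti (b : Matrix ι ι (MonoidAlgebra ℂ G)) (deg : ι → ℕ) (i : ℕ) (x : ℝ) : Prop :=
  ∀ C : ℝ, 0 < C → L1 (b + adj b) ≤ C →
    Tendsto (fun k => (∑ j with deg j = i, ((zC b C ^ k) j j).coeff 1).re) atTop (nhds x)

theorem T_fk {b : Matrix ι ι (MonoidAlgebra ℂ G)} (hbb : b * b = 0) (P : ι → Prop)
    [DecidablePred P] (C : ℝ) (k : ℕ) :
    (trS ι G).T (ext (dg P) * cfc (fk C k) (ext (b + adj b))) =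
      (∑ j with P j, ((zC b C ^ k) j j).coeff 1).re := by
  have hsa : IsSelfAdjoint (ext (b + adj b)) := ext_sa (by rw [adj_add', adj_adj, add_comm])
  rw [cfc_fk hsa, ← ext_mul, sq_D hbb]
  have e1 : (1 : HS ι G →L[ℂ] HS ι G) - (C ^ 2)⁻¹ • ext (b * adj b + adj b * b) =
      ext (zC b C) := by
    have e2 : (C ^ 2)⁻¹ • ext (b * adj b + adj b * b) =
        (((C ^ 2)⁻¹ : ℝ) : ℂ) • ext (b * adj b + adj b * b) := (Complex.coe_smul _ _).symm
    rw [e2, ← ext_smul, ← ext_one]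
    exact (map_sub extH _ _).symm
  have e3 : ext (zC b C) ^ k = ext (zC b C ^ k) := (map_pow extH _ _).symm
  rw [e1, e3, ← ext_mul, trS_ext, tau_dg_mul]

/-- existence of the Betti numbers -/
theorem Grd.exists_betti {b S : Matrix ι ι (MonoidAlgebra ℂ G)} {deg : ι → ℕ} {m : ℕ}
    (h : Grd b S deg m) (hbb : b * b = 0) (i : ℕ) : ∃ β : ℝ, 0 ≤ β ∧ IsL2Betti b deg i β := by
  have hpj := h.pj hbb (fun j => deg j = i) (fun j k hjk => by rw [hjk])
  have hb1 : ∀ C : ℝ, L1 (b + adj b) ≤ C → ‖ext (b + adj b)‖ ≤ C := fun C hC =>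
    (ext_norm_le _).trans hC
  have hL := L1_nonneg (b + adj b)
  obtain ⟨β, hβ0, hβ1, hβ2⟩ := hpj.exists_lim (trS ι G) (C := L1 (b + adj b) + 1) (by linarith)
    (hb1 _ (by linarith))
  refine ⟨β, hβ0, fun C hC hCb => ?_⟩
  obtain ⟨γ, hγ0, hγ1, hγ2⟩ := hpj.exists_lim (trS ι G) (C := C) hC (hb1 _ hCb)
  have e1 : β = γ := by
    apply le_antisymm
    · exact hpj.lim_le (trS ι G) hC (by linarith) (hb1 _ hCb) (hb1 _ (by linarith)) hγ2 hβ1
    · exact hpj.lim_le (trS ι G) (by linarith) hC (hb1 _ (by linarith)) (hb1 _ hCb) hβ2 hγ1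
  rw [e1]
  refine hγ2.congr fun k => ?_
  exact T_fk hbb _ C k

end Pool.Agent.H748.Hom
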