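import Pool.Agent.H748.Hom.Fin
import Pool.Agent.H748.Hom.Cst5

/-!
# Matrices over group algebras as operators on the Hilbert space
-/

set_option autoImplicit false
set_option linter.unusedSectionVars false

namespace Pool.Agent.H748.Hom

open Matrix Polynomial Filter Pool.Agent.H748.Sig Pool.Agent.H748.Art
open scoped InnerProductSpace

variable {G : Type} [Group G]
variable {ι : Type} [Fintype ι] [DecidableEq ι]

/-- the Hilbert space -/
abbrev HS (ι G : Type) [Fintype ι] [Group G] : Type := UniformSpace.Completion (Vc ι G)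

theorem bd_actL (X : Matrix ι ι (MonoidAlgebra ℂ G)) : Bd (act X) (L1 X) := by
  have h1 := bd_mp (uh_of (Q := G)) X
  rwa [mp_of] at h1

/-- the extension of a matrix to the Hilbert space -/
noncomputable def ext (X : Matrix ι ι (MonoidAlgebra ℂ G)) : HS ι G →L[ℂ] HS ι G :=
  ((UniformSpace.Completion.toComplL (𝕜 := ℂ) (E := Vc ι G)).comp
    ((act X).mkContinuous (L1 X) (bd_actL X))).extend UniformSpace.Completion.toComplL

theorem ext_coe (X : Matrix ι ι (MonoidAlgebra ℂ G)) (v : Vc ι G) :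
    ext X (v : HS ι G) = ((act X v : Vc ι G) : HS ι G) :=
  ContinuousLinearMap.extend_eq _ (UniformSpace.Completion.denseRange_coe)
    (UniformSpace.Completion.isUniformInducing_coe (Vc ι G)) v

theorem hs_ext {X Y : HS ι G →L[ℂ] HS ι G} (h : ∀ v : Vc ι G, X (v : HS ι G) = Y (v : HS ι G)) :
    X = Y := by
  refine ContinuousLinearMap.ext fun w => ?_
  refine UniformSpace.Completion.induction_on w (isClosed_eq (by fun_prop) (by fun_prop)) h

theorem ext_one : ext (1 : Matrix ι ι (MonoidAlgebra ℂ G)) = 1 := hs_ext fun v => by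
  rw [ext_coe, map_one]
  rfl

theorem ext_mul (X Y : Matrix ι ι (MonoidAlgebra ℂ G)) : ext (X * Y) = ext X * ext Y :=
  hs_ext fun v => by
    rw [mul_apply_eq_comp, ext_coe, ext_coe, ext_coe, map_mul]
    rfl

theorem ext_add (X Y : Matrix ι ι (MonoidAlgebra ℂ G)) : ext (X + Y) = ext X + ext Y :=
  hs_ext fun v => by
    rw [_root_.add_apply, ext_coe, ext_coe, ext_coe, map_add, LinearMap.add_apply,
      UniformSpace.Completion.coe_add]

theorem ext_smul (c : ℂ) (X : Matrix ι ι (MonoidAlgebra ℂ G)) : ext (c • X) = c • ext X :=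
  hs_ext fun v => by
    rw [_root_.smul_apply, ext_coe, ext_coe, map_smul, LinearMap.smul_apply,
      UniformSpace.Completion.coe_smul]

theorem ext_adj (X : Matrix ι ι (MonoidAlgebra ℂ G)) : star (ext X) = ext (adj X) := by
  rw [ContinuousLinearMap.star_eq_adjoint, eq_comm, ContinuousLinearMap.eq_adjoint_iff]
  intro x y
  refine UniformSpace.Completion.induction_on₂ x y
    (isClosed_eq (by fun_prop) (by fun_prop)) fun v w => ?_
  rw [ext_coe, ext_coe, UniformSpace.Completion.inner_coe, UniformSpace.Completion.inner_coe,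
    inner_act, adj_adj]

/-- extension as an algebra homomorphism -/
noncomputable def extH : Matrix ι ι (MonoidAlgebra ℂ G) →ₐ[ℂ] (HS ι G →L[ℂ] HS ι G) where
  toFun := ext
  map_one' := ext_one
  map_mul' := ext_mul
  map_zero' := by
    have h := ext_smul (0 : ℂ) (0 : Matrix ι ι (MonoidAlgebra ℂ G))
    rwa [zero_smul, zero_smul] at h
  map_add' := ext_add
  commutes' c := by
    rw [Algebra.algebraMap_eq_smul_one, Algebra.algebraMap_eq_smul_one, ext_smul, ext_one]

theorem extH_apply (X : Matrix ι ι (MonoidAlgebra ℂ G)) : extH X = ext X := rfl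

/-- the basis vectors -/
noncomputable def bv (i : ι) : Vc ι G := (Pi.single i 1 : ι → MonoidAlgebra ℂ G)

theorem inner_bv (X : Matrix ι ι (MonoidAlgebra ℂ G)) (i : ι) :
    ⟪bv (G := G) i, act X (bv i)⟫_ℂ = (X i i).coeff 1 := by
  rw [inner_def, Finset.sum_eq_single i]
  · have h3 : act X (bv i) i = X i i := by
      rw [act_apply, Finset.sum_eq_single i]
      · rw [bv, Pi.single_eq_same, mul_one]
      · intro j _ hj
        rw [bv, Pi.single_eq_of_ne hj, mul_zero]
      · intro hc
        exact absurd (Finset.mem_univ i) hc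
    rw [h3, bv, Pi.single_eq_same, MonoidAlgebra.one_def, adjE_single, inv_one, star_one,
      ← MonoidAlgebra.one_def, one_mul]
  · intro j _ hj
    rw [bv, Pi.single_eq_of_ne hj, adjE_zero, zero_mul]
    rfl
  · intro hc
    exact absurd (Finset.mem_univ i) hc

/-- the real part of the trace -/
noncomputable def trR : (HS ι G →L[ℂ] HS ι G) →ₗ[ℝ] ℝ where
  toFun Y := ∑ i, (⟪((bv i : Vc ι G) : HS ι G), Y ((bv i : Vc ι G) : HS ι G)⟫_ℂ).re
  map_add' X Y := by
    rw [← Finset.sum_add_distrib]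
    refine Finset.sum_congr rfl fun i _ => ?_
    rw [_root_.add_apply, inner_add_right, Complex.add_re]
  map_smul' c X := by
    rw [RingHom.id_apply, smul_eq_mul, Finset.mul_sum]
    refine Finset.sum_congr rfl fun i _ => ?_
    have h1 : (c • X) ((bv i : Vc ι G) : HS ι G) = (c : ℂ) • X ((bv i : Vc ι G) : HS ι G) := by
      rw [_root_.smul_apply]
      exact (Complex.coe_smul _ _).symm
    rw [h1, inner_smul_right, Complex.re_ofReal_mul]

theorem trR_ext (X : Matrix ι ι (MonoidAlgebra ℂ G)) : trR (ext X) = (tau X).re := by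
  show ∑ i, (⟪((bv i : Vc ι G) : HS ι G), ext X ((bv i : Vc ι G) : HS ι G)⟫_ℂ).re = _
  unfold tau
  rw [Complex.re_sum]
  refine Finset.sum_congr rfl fun i _ => ?_
  rw [ext_coe, UniformSpace.Completion.inner_coe, inner_bv]

theorem trR_cont : Continuous (trR : (HS ι G →L[ℂ] HS ι G) →ₗ[ℝ] ℝ) := by
  show Continuous fun Y : HS ι G →L[ℂ] HS ι G =>
    ∑ i, (⟪((bv i : Vc ι G) : HS ι G), Y ((bv i : Vc ι G) : HS ι G)⟫_ℂ).re
  fun_prop

/-- the image of the matrices -/
noncomputable def imS (ι G : Type) [Fintype ι] [DecidableEq ι] [Group G] :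
    StarSubalgebra ℂ (HS ι G →L[ℂ] HS ι G) where
  carrier := Set.range ext
  mul_mem' := by
    rintro _ _ ⟨X, rfl⟩ ⟨Y, rfl⟩
    exact ⟨X * Y, ext_mul X Y⟩
  one_mem' := ⟨1, ext_one⟩
  add_mem' := by
    rintro _ _ ⟨X, rfl⟩ ⟨Y, rfl⟩
    exact ⟨X + Y, ext_add X Y⟩
  zero_mem' := ⟨0, map_zero extH⟩
  algebraMap_mem' c := ⟨algebraMap ℂ _ c, extH.commutes c⟩
  star_mem' := by
    rintro _ ⟨X, rfl⟩
    exact ⟨adj X, (ext_adj X).symm⟩

/-- the trace on the closure -/
noncomputable def trS (ι G : Type) [Fintype ι] [DecidableEq ι] [Group G] :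
    TrS (HS ι G →L[ℂ] HS ι G) where
  s := (imS ι G).topologicalClosure
  closed := StarSubalgebra.isClosed_topologicalClosure _
  T := trR
  pos x hx := by
    refine Finset.sum_nonneg fun i _ => ?_
    have h1 := (ContinuousLinearMap.nonneg_iff_isPositive x).1 hx
    exact h1.re_inner_nonneg_right _
  tr := by
    have h0 : ∀ X Y : Matrix ι ι (MonoidAlgebra ℂ G), trR (ext X * ext Y) = trR (ext Y * ext X) := by
      intro X Y
      rw [← ext_mul, ← ext_mul, trR_ext, trR_ext, tau_comm]
    have hcl : ∀ x : HS ι G →L[ℂ] HS ι G, x ∈ (imS ι G).topologicalClosure →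
        x ∈ closure (Set.range (ext : Matrix ι ι (MonoidAlgebra ℂ G) → _)) := fun x hx => hx
    have h1 : ∀ x ∈ closure (Set.range (ext : Matrix ι ι (MonoidAlgebra ℂ G) → _)),
        ∀ Y : Matrix ι ι (MonoidAlgebra ℂ G), trR (x * ext Y) = trR (ext Y * x) := by
      intro x hx Y
      have hc : IsClosed {x : HS ι G →L[ℂ] HS ι G | trR (x * ext Y) = trR (ext Y * x)} :=
        isClosed_eq (trR_cont.comp (by fun_prop)) (trR_cont.comp (by fun_prop))
      refine closure_minimal ?_ hc hx
      rintro _ ⟨X, rfl⟩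
      exact h0 X Y
    intro x hx y hy
    have hc : IsClosed {y : HS ι G →L[ℂ] HS ι G | trR (x * y) = trR (y * x)} :=
      isClosed_eq (trR_cont.comp (by fun_prop)) (trR_cont.comp (by fun_prop))
    refine closure_minimal ?_ hc (hcl y hy)
    rintro _ ⟨Y, rfl⟩
    exact h1 x (hcl x hx) Y

theorem ext_mem (X : Matrix ι ι (MonoidAlgebra ℂ G)) : ext X ∈ (trS ι G).s :=
  StarSubalgebra.le_topologicalClosure _ ⟨X, rfl⟩

theorem trS_ext (X : Matrix ι ι (MonoidAlgebra ℂ G)) : (trS ι G).T (ext X) = (tau X).re :=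
  trR_ext X

end Pool.Agent.H748.Hom
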