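import Pool.Agent.H748.Hom.Op

/-!
# Norms of polynomials in symmetric operators with a spectral gap
-/

set_option autoImplicit false
set_option linter.unusedSectionVars false

namespace Pool.Agent.H748.Hom

open Polynomial
open scoped InnerProductSpace

section complete

variable {H : Type*} [NormedAddCommGroup H] [InnerProductSpace ℂ H] [CompleteSpace H]

theorem spec_gap {Y : H →L[ℂ] H} (hY : IsSelfAdjoint Y) {a c : ℝ}
    (h1 : ∀ v, a * ‖v‖ ≤ ‖Y v‖) (h2 : ∀ v, ‖Y v‖ ≤ c * ‖v‖) {x : ℝ} (hx : x ∈ spectrum ℝ Y) :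
    a ≤ |x| ∧ |x| ≤ c := by
  by_contra hcon
  have hδ : ∃ δ : ℝ, 0 < δ ∧ ∀ v, δ * ‖v‖ ≤ ‖(algebraMap ℝ (H →L[ℂ] H) x - Y) v‖ := by
    have hval : ∀ v, (algebraMap ℝ (H →L[ℂ] H) x - Y) v = (x : ℂ) • v - Y v := by
      intro v
      rw [sub_apply, Algebra.algebraMap_eq_smul_one]
      rfl
    have hnx : ∀ v : H, ‖(x : ℂ) • v‖ = |x| * ‖v‖ := by
      intro v
      rw [norm_smul, Complex.norm_real, Real.norm_eq_abs]
    rw [not_and_or, not_le, not_le] at hcon
    rcases hcon with h | h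
    · refine ⟨a - |x|, by linarith, fun v => ?_⟩
      rw [hval]
      have h3 := norm_sub_norm_le (Y v) ((x : ℂ) • v)
      rw [norm_sub_rev, hnx] at h3
      have h4 := h1 v
      linarith
    · refine ⟨|x| - c, by linarith, fun v => ?_⟩
      rw [hval]
      have h3 := norm_sub_norm_le ((x : ℂ) • v) (Y v)
      rw [hnx] at h3
      have h4 := h2 v
      linarith
  obtain ⟨δ, hδ, h3⟩ := hδ
  set Z : H →L[ℂ] H := algebraMap ℝ (H →L[ℂ] H) x - Y with hZ
  have hZs : IsSelfAdjoint Z := by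
    rw [hZ]
    exact (IsSelfAdjoint.algebraMap _ (IsSelfAdjoint.all x)).sub hY
  have hu : IsUnit (Z ^ 2) := by
    refine ContinuousLinearMap.isUnit_of_forall_le_norm_inner_map _ (c := Real.toNNReal (δ ^ 2))
      (Real.toNNReal_pos.2 (by positivity)) fun v => ?_
    have h4 : ⟪(Z ^ 2) v, v⟫_ℂ = ((‖Z v‖ ^ 2 : ℝ) : ℂ) := by
      have h5 : (Z ^ 2) v = Z (Z v) := by rw [pow_two]; rfl
      rw [h5]
      have h6 := ContinuousLinearMap.adjoint_inner_left Z v (Z v)
      have h7 : ContinuousLinearMap.adjoint Z = Z := hZs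
      rw [h7] at h6
      rw [h6, inner_self_eq_norm_sq_to_K]
      push_cast
      rfl
    rw [h4, Complex.norm_real, Real.norm_eq_abs, abs_of_nonneg (sq_nonneg _)]
    rw [Real.coe_toNNReal _ (by positivity)]
    calc ‖v‖ ^ 2 * δ ^ 2 = (δ * ‖v‖) ^ 2 := by ring
      _ ≤ ‖Z v‖ ^ 2 := pow_le_pow_left₀ (by positivity) (h3 v) 2
  exact hx ((isUnit_pow_iff two_ne_zero).1 hu)

theorem norm_aeval_le {Y : H →L[ℂ] H} (hY : IsSelfAdjoint Y) {a c : ℝ}
    (h1 : ∀ v, a * ‖v‖ ≤ ‖Y v‖) (h2 : ∀ v, ‖Y v‖ ≤ c * ‖v‖) {R : ℝ[X]} {ε : ℝ} (hε : 0 ≤ ε)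
    (hR : ∀ x : ℝ, a ≤ |x| → |x| ≤ c → |R.eval x| ≤ ε) : ‖aeval Y R‖ ≤ ε := by
  rw [← cfc_polynomial R Y hY]
  refine norm_cfc_le hε fun x hx => ?_
  obtain ⟨h3, h4⟩ := spec_gap hY h1 h2 hx
  exact hR x h3 h4

end complete

variable {V : Type*} [NormedAddCommGroup V] [InnerProductSpace ℂ V]

/-- the norm of a polynomial in a symmetric operator with a gap -/
theorem bd_aeval {X : Module.End ℂ V} (hX : Sym X) {a c : ℝ}
    (h1 : ∀ v : V, a * ‖v‖ ≤ ‖X v‖) (h2 : Bd X c) {R : ℝ[X]} {ε : ℝ} (hε : 0 ≤ ε)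
    (hR : ∀ x : ℝ, a ≤ |x| → |x| ≤ c → |R.eval x| ≤ ε) : Bd (aeval X R) ε := by
  set e : V →L[ℂ] UniformSpace.Completion V := UniformSpace.Completion.toComplL with he
  have hen : ∀ v : V, ‖e v‖ = ‖v‖ := fun v => UniformSpace.Completion.norm_coe v
  have hdense : DenseRange e := UniformSpace.Completion.denseRange_coe
  have hind : IsUniformInducing e := UniformSpace.Completion.isUniformInducing_coe V
  set Xc : V →L[ℂ] V := X.mkContinuous c h2 with hXc
  set Y : UniformSpace.Completion V →L[ℂ] UniformSpace.Completion V := (e.comp Xc).extend e with hY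
  have hYe : ∀ v : V, Y (e v) = e (X v) := fun v =>
    ContinuousLinearMap.extend_eq (e.comp Xc) hdense hind v
  have k1 : ∀ w, a * ‖w‖ ≤ ‖Y w‖ := by
    intro w
    refine hdense.induction_on (p := fun w => a * ‖w‖ ≤ ‖Y w‖) w ?_ ?_
    · exact isClosed_le (by fun_prop) (by fun_prop)
    · intro v
      show a * ‖e v‖ ≤ ‖Y (e v)‖
      rw [hYe, hen, hen]
      exact h1 v
  have k2 : ∀ w, ‖Y w‖ ≤ c * ‖w‖ := by
    intro w
    refine hdense.induction_on (p := fun w => ‖Y w‖ ≤ c * ‖w‖) w ?_ ?_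
    · exact isClosed_le (by fun_prop) (by fun_prop)
    · intro v
      show ‖Y (e v)‖ ≤ c * ‖e v‖
      rw [hYe, hen, hen]
      exact h2 v
  have hin : ∀ v w : V, ⟪e v, e w⟫_ℂ = ⟪v, w⟫_ℂ := fun v w => UniformSpace.Completion.inner_coe v w
  have k3 : IsSelfAdjoint Y := by
    rw [ContinuousLinearMap.isSelfAdjoint_iff_isSymmetric]
    intro v w
    refine hdense.induction_on (p := fun v => ⟪Y v, w⟫_ℂ = ⟪v, Y w⟫_ℂ) v ?_ ?_
    · exact isClosed_eq (by fun_prop) (by fun_prop)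
    · intro v
      refine hdense.induction_on (p := fun w => ⟪Y (e v), w⟫_ℂ = ⟪e v, Y w⟫_ℂ) w ?_ ?_
      · exact isClosed_eq (by fun_prop) (by fun_prop)
      · intro w
        show ⟪Y (e v), e w⟫_ℂ = ⟪e v, Y (e w)⟫_ℂ
        rw [hYe, hYe, hin, hin]
        exact hX v w
  have k4 := norm_aeval_le k3 k1 k2 hε hR
  have k5 : ∀ (n : ℕ) (v : V), (Y ^ n) (e v) = e ((X ^ n) v) := by
    intro n
    induction n with
    | zero => intro v; rfl
    | succ n ih =>
      intro v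
      rw [pow_succ, pow_succ]
      show (Y ^ n) (Y (e v)) = e ((X ^ n) (X v))
      rw [hYe, ih]
  have k6 : ∀ v : V, (aeval Y R) (e v) = e ((aeval X R) v) := by
    intro v
    rw [aeval_eq_sum_range, aeval_eq_sum_range, LinearMap.sum_apply, map_sum,
      sum_apply]
    refine Finset.sum_congr rfl fun n _ => ?_
    rw [smul_apply, k5, LinearMap.smul_apply]
    have h3 : ∀ (r : ℝ) (v : V), r • v = (r : ℂ) • v := fun r v => (Complex.coe_smul r v).symm
    rw [h3, map_smul]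
    exact (Complex.coe_smul _ _).symm
  intro v
  rw [← hen, ← k6, ← hen v]
  exact ((aeval Y R).le_opNorm _).trans (mul_le_mul_of_nonneg_right k4 (norm_nonneg _))

end Pool.Agent.H748.Hom
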