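import Pool.Agent.H748.Hom.Fin

/-!
# Signatures and Betti numbers of finite dimensional complexes
-/

set_option autoImplicit false
set_option linter.unusedSectionVars false

namespace Pool.Agent.H748.Hom

open Matrix Pool.Agent.H748.Sig Pool.Agent.H748.Art

variable {X : Type*} [Fintype X] [DecidableEq X]

/-- the vectors which are supported in the set `P` -/
def crd (P : X → Prop) : Submodule ℂ (X → ℂ) where
  carrier := {x | ∀ y, ¬ P y → x y = 0}
  zero_mem' := fun _ _ => rfl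
  add_mem' := fun {a b} ha hb y hy => by
    show a y + b y = 0
    rw [ha y hy, hb y hy, add_zero]
  smul_mem' := fun c x hx y hy => by
    show c * x y = 0
    rw [hx y hy, mul_zero]

theorem mem_crd {P : X → Prop} {x : X → ℂ} : x ∈ crd P ↔ ∀ y, ¬ P y → x y = 0 := Iff.rfl

/-- restriction of a vector to `P` -/
noncomputable def rs (P : X → Prop) (x : X → ℂ) : X → ℂ :=
  open Classical in fun y => if P y then x y else 0

theorem rs_pos {P : X → Prop} {x : X → ℂ} {y : X} (h : P y) : rs P x y = x y := if_pos h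

theorem rs_neg {P : X → Prop} {x : X → ℂ} {y : X} (h : ¬ P y) : rs P x y = 0 := if_neg h

theorem rs_mem (P : X → Prop) (x : X → ℂ) : rs P x ∈ crd P := fun _ hy => rs_neg hy

/-- dimension of a subspace which is invariant under the restriction -/
theorem finrank_split (K : Submodule ℂ (X → ℂ)) (P : X → Prop) (h : ∀ x ∈ K, rs P x ∈ K) :
    Module.finrank ℂ K = Module.finrank ℂ (K ⊓ crd P : Submodule ℂ (X → ℂ)) +
      Module.finrank ℂ (K ⊓ crd (fun y => ¬ P y) : Submodule ℂ (X → ℂ)) := by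
  have h1 := Submodule.finrank_sup_add_finrank_inf_eq (K ⊓ crd P) (K ⊓ crd (fun y => ¬ P y))
  have h2 : (K ⊓ crd P) ⊓ (K ⊓ crd (fun y => ¬ P y)) = ⊥ := by
    rw [Submodule.eq_bot_iff]
    rintro x ⟨⟨-, h3⟩, ⟨-, h4⟩⟩
    funext y
    by_cases hy : P y
    · exact h4 y (not_not.2 hy)
    · exact h3 y hy
  have h3 : (K ⊓ crd P) ⊔ (K ⊓ crd (fun y => ¬ P y)) = K := by
    apply le_antisymm (sup_le inf_le_left inf_le_left)
    intro x hx
    have h4 : x - rs P x ∈ K ⊓ crd (fun y => ¬ P y) := by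
      refine ⟨K.sub_mem hx (h x hx), fun y hy => ?_⟩
      show x y - rs P x y = 0
      rw [rs_pos (not_not.1 hy), sub_self]
    have h5 := Submodule.add_mem_sup
      (show rs P x ∈ K ⊓ crd P from ⟨h x hx, rs_mem P x⟩) h4
    rwa [add_sub_cancel] at h5
  rw [h2, h3, finrank_bot, add_zero] at h1
  exact h1

/-- the splitting into three parts -/
theorem finrank_three (K : Submodule ℂ (X → ℂ)) (deg : X → ℕ) (m : ℕ)
    (h : ∀ Q : ℕ → Prop, ∀ x ∈ K, rs (fun y => Q (deg y)) x ∈ K) :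
    Module.finrank ℂ K = Module.finrank ℂ (K ⊓ crd (fun y => deg y < m) : Submodule ℂ (X → ℂ)) +
      Module.finrank ℂ (K ⊓ crd (fun y => deg y = m) : Submodule ℂ (X → ℂ)) +
      Module.finrank ℂ (K ⊓ crd (fun y => m < deg y) : Submodule ℂ (X → ℂ)) := by
  rw [finrank_split K (fun y => deg y < m) (h fun i => i < m), add_assoc]
  congr 1
  have e1 : (K ⊓ crd (fun y => ¬ deg y < m)) ⊓ crd (fun y => deg y = m) =
      K ⊓ crd (fun y => deg y = m) := by
    ext x
    constructor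
    · rintro ⟨⟨h1, -⟩, h2⟩
      exact ⟨h1, h2⟩
    · rintro ⟨h1, h2⟩
      exact ⟨⟨h1, fun y hy => h2 y (by omega)⟩, h2⟩
  have e2 : (K ⊓ crd (fun y => ¬ deg y < m)) ⊓ crd (fun y => ¬ deg y = m) =
      K ⊓ crd (fun y => m < deg y) := by
    ext x
    constructor
    · rintro ⟨⟨h1, h2⟩, h3⟩
      refine ⟨h1, fun y hy => ?_⟩
      by_cases h4 : deg y = m
      · exact h3 y (not_not.2 h4)
      · exact h2 y (by omega)
    · rintro ⟨h1, h2⟩
      exact ⟨⟨h1, fun y hy => h2 y (by omega)⟩, fun y hy => h2 y (by omega)⟩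
  rw [finrank_split (K ⊓ crd (fun y => ¬ deg y < m)) (fun y => deg y = m) ?_, e1, e2]
  rintro x ⟨h1, h2⟩
  refine ⟨h (fun i => i = m) x h1, fun y hy => ?_⟩
  by_cases h3 : deg y = m
  · rw [rs_pos (P := fun y => deg y = m) h3]
    exact h2 y hy
  · exact rs_neg (P := fun y => deg y = m) h3

/-- compatibility of the differential and the restrictions -/
theorem mulVec_rs {B : Matrix X X ℂ} {deg : X → ℕ} (hB : ∀ x y, B x y ≠ 0 → deg y = deg x + 1)
    (Q Q' : ℕ → Prop) (hQ : ∀ i, Q' i ↔ Q (i + 1)) (z : X → ℂ) :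
    Bᴴ *ᵥ rs (fun y => Q' (deg y)) z = rs (fun y => Q (deg y)) (Bᴴ *ᵥ z) := by
  classical
  funext y
  have h1 : ∀ x, Bᴴ y x * rs (fun y => Q' (deg y)) z x =
      if Q (deg y) then Bᴴ y x * z x else 0 := by
    intro x
    by_cases h0 : B x y = 0
    · rw [conjTranspose_apply, h0, star_zero, zero_mul, zero_mul]
      split_ifs <;> rfl
    · have h2 := hB x y h0
      by_cases h3 : Q' (deg x)
      · rw [rs_pos (P := fun y => Q' (deg y)) h3, if_pos (by rw [h2]; exact (hQ _).1 h3)]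
      · rw [rs_neg (P := fun y => Q' (deg y)) h3,
          if_neg (by rw [h2]; exact fun h4 => h3 ((hQ _).2 h4)), mul_zero]
  show ∑ x, Bᴴ y x * rs (fun y => Q' (deg y)) z x = _
  rw [Finset.sum_congr rfl fun x _ => h1 x]
  by_cases h2 : Q (deg y)
  · rw [rs_pos (P := fun y => Q (deg y)) h2]
    simp only [if_pos h2]
    rfl
  · rw [rs_neg (P := fun y => Q (deg y)) h2]
    simp only [if_neg h2]
    exact Finset.sum_const_zero

section

variable {B S : Matrix X X ℂ} {deg : X → ℕ} {m : ℕ}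

theorem isotropic (hBB : B * B = 0) (hS : S.IsHermitian) (hBS : B * S + S * Bᴴ = 0)
    (hSd : ∀ x y, S x y ≠ 0 → deg x + deg y = 2 * m) (P : X → Prop)
    (hP : ∀ x y, deg x + deg y = 2 * m → P x → ¬ P y) {w : X → ℂ}
    (hw : w ∈ LinearMap.range (Matrix.mulVecLin Bᴴ) ⊔
      (LinearMap.ker (Matrix.mulVecLin Bᴴ) ⊓ crd P)) :
    star w ⬝ᵥ (B + Bᴴ + S) *ᵥ w = 0 := by
  obtain ⟨r, hr, k, hk, rfl⟩ := Submodule.mem_sup.1 hw
  obtain ⟨z, rfl⟩ := hr
  obtain ⟨hk1, hk2⟩ := hk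
  rw [Matrix.mulVecLin_apply] at *
  have hk1' : Bᴴ *ᵥ k = 0 := hk1
  have hBB' : Bᴴ * Bᴴ = 0 := by rw [← conjTranspose_mul, hBB, conjTranspose_zero]
  set w := Bᴴ *ᵥ z + k with hw'
  have hBw : Bᴴ *ᵥ w = 0 := by
    rw [hw', mulVec_add, mulVec_mulVec, hBB', zero_mulVec, hk1', add_zero]
  have hmove : ∀ u : X → ℂ, star w ⬝ᵥ B *ᵥ u = 0 := by
    intro u
    have h1 : star w ᵥ* B = star (Bᴴ *ᵥ w) := by
      rw [star_mulVec, conjTranspose_conjTranspose]
    rw [dotProduct_mulVec, h1, hBw, star_zero, zero_dotProduct]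
  have hSB : S * Bᴴ = -(B * S) := by
    rw [eq_neg_iff_add_eq_zero, add_comm]
    exact hBS
  have h1 : star w ⬝ᵥ S *ᵥ (Bᴴ *ᵥ z) = 0 := by
    rw [mulVec_mulVec, hSB, neg_mulVec, dotProduct_neg, ← mulVec_mulVec, hmove, neg_zero]
  have h2 : star k ⬝ᵥ S *ᵥ k = 0 := by
    show ∑ x, star (k x) * ∑ y, S x y * k y = 0
    refine Finset.sum_eq_zero fun x _ => ?_
    by_cases hx : P x
    · have : ∑ y, S x y * k y = 0 := by
        refine Finset.sum_eq_zero fun y _ => ?_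
        by_cases h0 : S x y = 0
        · rw [h0, zero_mul]
        · rw [hk2 y (hP x y (hSd x y h0) hx), mul_zero]
      rw [this, mul_zero]
    · rw [hk2 x hx, star_zero, zero_mul]
  have h3 : star w ⬝ᵥ S *ᵥ k = 0 := by
    rw [hw', star_add, add_dotProduct, h2, add_zero, form_star hS]
    have h4 : star k ⬝ᵥ S *ᵥ (Bᴴ *ᵥ z) = 0 := by
      have h5 : star k ᵥ* B = 0 := by
        have h6 : star k ᵥ* B = star (Bᴴ *ᵥ k) := by
          rw [star_mulVec, conjTranspose_conjTranspose]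
        rw [h6, hk1', star_zero]
      rw [mulVec_mulVec, hSB, neg_mulVec, dotProduct_neg, ← mulVec_mulVec, dotProduct_mulVec,
        h5, zero_dotProduct, neg_zero]
    rw [h4, star_zero]
  rw [add_mulVec, add_mulVec, dotProduct_add, dotProduct_add, hmove, hBw, dotProduct_zero,
    zero_add, zero_add]
  nth_rewrite 2 [hw']
  rw [mulVec_add, dotProduct_add, h1, h3, add_zero]

theorem sig_le_isotropic {A : Matrix X X ℂ} (hA : A.IsHermitian)
    (h0 : ∀ i, hA.eigenvalues i ≠ 0) (W : Submodule ℂ (X → ℂ))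
    (hW : ∀ w ∈ W, star w ⬝ᵥ A *ᵥ w = 0) :
    |sig A| ≤ (Fintype.card X : ℤ) - 2 * Module.finrank ℂ W := by
  have hX : Module.finrank ℂ (X → ℂ) = Fintype.card X := Module.finrank_fintype_fun_eq_card ℂ
  obtain ⟨Vp, Vn, hp, hn, hdim, hsig⟩ := exists_split hA h0
  have h1 : Vp ⊓ W = ⊥ := by
    rw [Submodule.eq_bot_iff]
    rintro x ⟨hx, hxW⟩
    by_contra hx0
    have := hp x hx hx0
    rw [hW x hxW] at this
    simp at this
  have h2 : Vn ⊓ W = ⊥ := by
    rw [Submodule.eq_bot_iff]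
    rintro x ⟨hx, hxW⟩
    by_contra hx0
    have := hn x hx hx0
    rw [hW x hxW] at this
    simp at this
  have h3 := Submodule.finrank_sup_add_finrank_inf_eq Vp W
  have h4 := Submodule.finrank_sup_add_finrank_inf_eq Vn W
  rw [h1, finrank_bot, add_zero] at h3
  rw [h2, finrank_bot, add_zero] at h4
  have h5 : Module.finrank ℂ (Vp ⊔ W : Submodule ℂ (X → ℂ)) ≤ Fintype.card X := by
    rw [← hX]
    exact Submodule.finrank_le _
  have h6 : Module.finrank ℂ (Vn ⊔ W : Submodule ℂ (X → ℂ)) ≤ Fintype.card X := by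
    rw [← hX]
    exact Submodule.finrank_le _
  rw [hsig, abs_le]
  constructor <;> omega

/-- the dimension of the degree `i` cohomology of `(ℂ^X, Bᴴ)` -/
noncomputable def hDim (B : Matrix X X ℂ) (deg : X → ℕ) (i : ℕ) : ℤ :=
  (Module.finrank ℂ (LinearMap.ker (Matrix.mulVecLin Bᴴ) ⊓ crd (fun y => deg y = i) :
    Submodule ℂ (X → ℂ)) : ℤ) -
  Module.finrank ℂ (LinearMap.range (Matrix.mulVecLin Bᴴ) ⊓ crd (fun y => deg y = i) :
    Submodule ℂ (X → ℂ))

theorem sig_le_half (hBB : B * B = 0) (hS : S.IsHermitian) (hBS : B * S + S * Bᴴ = 0)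
    (hSd : ∀ x y, S x y ≠ 0 → deg x + deg y = 2 * m)
    (h0 : ∀ hA : (B + Bᴴ + S).IsHermitian, ∀ i, hA.eigenvalues i ≠ 0) (P : X → Prop)
    (hP : ∀ x y, deg x + deg y = 2 * m → P x → ¬ P y) :
    |sig (B + Bᴴ + S)| ≤ (Module.finrank ℂ (LinearMap.ker (Matrix.mulVecLin Bᴴ)) : ℤ) -
      Module.finrank ℂ (LinearMap.range (Matrix.mulVecLin Bᴴ)) -
      2 * ((Module.finrank ℂ (LinearMap.ker (Matrix.mulVecLin Bᴴ) ⊓ crd P :
        Submodule ℂ (X → ℂ)) : ℤ) -
        Module.finrank ℂ (LinearMap.range (Matrix.mulVecLin Bᴴ) ⊓ crd P :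
          Submodule ℂ (X → ℂ))) := by
  have hA : (B + Bᴴ + S).IsHermitian := by
    refine Matrix.IsHermitian.add ?_ hS
    show (B + Bᴴ)ᴴ = B + Bᴴ
    rw [conjTranspose_add, conjTranspose_conjTranspose, add_comm]
  have h1 := sig_le_isotropic hA (h0 hA) _ fun w hw => isotropic hBB hS hBS hSd P hP hw
  set K := LinearMap.ker (Matrix.mulVecLin Bᴴ) with hK
  set R := LinearMap.range (Matrix.mulVecLin Bᴴ) with hR
  have hBB' : Bᴴ * Bᴴ = 0 := by rw [← conjTranspose_mul, hBB, conjTranspose_zero]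
  have hRK : R ≤ K := by
    rintro _ ⟨z, rfl⟩
    show Bᴴ *ᵥ (Bᴴ *ᵥ z) = 0
    rw [mulVec_mulVec, hBB', zero_mulVec]
  have h2 := Submodule.finrank_sup_add_finrank_inf_eq R (K ⊓ crd P)
  have h3 : R ⊓ (K ⊓ crd P) = R ⊓ crd P := by
    rw [← inf_assoc, inf_eq_left.2 hRK]
  rw [h3] at h2
  have h4 := LinearMap.finrank_range_add_finrank_ker (Matrix.mulVecLin Bᴴ)
  rw [Module.finrank_fintype_fun_eq_card, ← hK, ← hR] at h4
  omega

/-- **The signature is bounded by the middle Betti number.** -/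
theorem sig_le_hDim (hBB : B * B = 0) (hS : S.IsHermitian) (hBS : B * S + S * Bᴴ = 0)
    (hBd : ∀ x y, B x y ≠ 0 → deg y = deg x + 1)
    (hSd : ∀ x y, S x y ≠ 0 → deg x + deg y = 2 * m)
    (h0 : ∀ hA : (B + Bᴴ + S).IsHermitian, ∀ i, hA.eigenvalues i ≠ 0) :
    |sig (B + Bᴴ + S)| ≤ hDim B deg m := by
  have h1 := sig_le_half hBB hS hBS hSd h0 (fun y => deg y < m) (fun x y hxy hx => by omega)
  have h2 := sig_le_half hBB hS hBS hSd h0 (fun y => m < deg y) (fun x y hxy hx => by omega)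
  have h3 := finrank_three (LinearMap.ker (Matrix.mulVecLin Bᴴ)) deg m (by
    intro Q x hx
    show Bᴴ *ᵥ _ = 0
    rw [mulVec_rs hBd (fun i => Q (i - 1)) Q (fun i => by rw [Nat.add_sub_cancel])]
    have h4 : Bᴴ *ᵥ x = 0 := hx
    rw [h4]
    funext y
    by_cases h5 : Q (deg y - 1)
    · exact rs_pos (P := fun y => Q (deg y - 1)) h5
    · exact rs_neg (P := fun y => Q (deg y - 1)) h5)
  have h4 := finrank_three (LinearMap.range (Matrix.mulVecLin Bᴴ)) deg m (by
    rintro Q _ ⟨z, rfl⟩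
    exact ⟨rs (fun y => Q (deg y + 1)) z, mulVec_rs hBd Q (fun i => Q (i + 1)) (fun _ => Iff.rfl) z⟩)
  unfold hDim
  omega

end

end Pool.Agent.H748.Hom
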