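import Pool.Agent.H748.Hom.Fdim

/-!
# The Euler characteristic of a finite dimensional complex; twisted Betti numbers
-/

set_option autoImplicit false
set_option linter.unusedSectionVars false

namespace Pool.Agent.H748.Hom

open Matrix Pool.Agent.H748.Sig Pool.Agent.H748.Art

variable {X : Type*} [Fintype X] [DecidableEq X]

theorem finrank_crd (P : X → Prop) [DecidablePred P] :
    Module.finrank ℂ (crd P) = (Finset.univ.filter P).card := by
  let e : crd P ≃ₗ[ℂ] ({y // P y} → ℂ) :=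
    { toFun := fun x y => x.1 y.1
      map_add' := fun _ _ => rfl
      map_smul' := fun _ _ => rfl
      invFun := fun g => ⟨fun y => if h : P y then g ⟨y, h⟩ else 0, fun y hy => dif_neg hy⟩
      left_inv := fun x => by
        apply Subtype.ext
        funext y
        by_cases hy : P y
        · exact dif_pos hy
        · show (if h : P y then x.1 y else 0) = x.1 y
          rw [dif_neg hy, x.2 y hy]
      right_inv := fun g => by
        funext y
        exact dif_pos y.2 }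
  rw [e.finrank_eq, Module.finrank_fintype_fun_eq_card, Fintype.card_subtype]

theorem mulVec_mem {B : Matrix X X ℂ} {deg : X → ℕ} (hB : ∀ x y, B x y ≠ 0 → deg y = deg x + 1)
    {i : ℕ} {z : X → ℂ} (hz : z ∈ crd (fun y => deg y = i)) :
    Bᴴ *ᵥ z ∈ crd (fun y => deg y = i + 1) := by
  intro y hy
  show ∑ x, Bᴴ y x * z x = 0
  refine Finset.sum_eq_zero fun x _ => ?_
  by_cases h0 : B x y = 0
  · rw [conjTranspose_apply, h0, star_zero, zero_mul]
  · have h1 : ¬ deg y = i + 1 := hy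
    have h2 : z x = 0 := hz x (fun h => h1 (by
      have h3 : deg x = i := h
      rw [hB x y h0, h3]))
    rw [h2, mul_zero]

/-- rank and nullity in a fixed degree -/
theorem rank_nullity {B : Matrix X X ℂ} {deg : X → ℕ} (hB : ∀ x y, B x y ≠ 0 → deg y = deg x + 1)
    (i : ℕ) : Module.finrank ℂ (crd (fun y : X => deg y = i)) =
      Module.finrank ℂ (LinearMap.ker (Matrix.mulVecLin Bᴴ) ⊓ crd (fun y => deg y = i) :
        Submodule ℂ (X → ℂ)) +
      Module.finrank ℂ (LinearMap.range (Matrix.mulVecLin Bᴴ) ⊓ crd (fun y => deg y = i + 1) :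
        Submodule ℂ (X → ℂ)) := by
  set f := (Matrix.mulVecLin Bᴴ).domRestrict (crd (fun y : X => deg y = i)) with hf
  have h1 := LinearMap.finrank_range_add_finrank_ker f
  have h2 : LinearMap.range f =
      LinearMap.range (Matrix.mulVecLin Bᴴ) ⊓ crd (fun y => deg y = i + 1) := by
    ext r
    constructor
    · rintro ⟨z, rfl⟩
      exact ⟨⟨z.1, rfl⟩, mulVec_mem hB z.2⟩
    · rintro ⟨⟨z, rfl⟩, hr⟩
      refine ⟨⟨rs (fun y => deg y = i) z, rs_mem _ z⟩, ?_⟩
      show Bᴴ *ᵥ rs (fun y => deg y = i) z = Bᴴ *ᵥ z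
      rw [mulVec_rs hB (fun j => j = i + 1) (fun j => j = i) (fun j => by
        rw [Nat.add_right_cancel_iff])]
      funext y
      by_cases hy : deg y = i + 1
      · exact rs_pos (P := fun y => deg y = i + 1) hy
      · rw [rs_neg (P := fun y => deg y = i + 1) hy]
        exact (hr y hy).symm
  have h3 : (LinearMap.ker f).map (crd (fun y : X => deg y = i)).subtype =
      LinearMap.ker (Matrix.mulVecLin Bᴴ) ⊓ crd (fun y => deg y = i) := by
    ext x
    constructor
    · rintro ⟨z, hz, rfl⟩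
      exact ⟨hz, z.2⟩
    · rintro ⟨h4, h5⟩
      exact ⟨⟨x, h5⟩, h4, rfl⟩
  rw [← h3, ← h2, Submodule.finrank_map_subtype_eq]
  omega

theorem tele (r : ℕ → ℤ) (M : ℕ) :
    ∑ i ∈ Finset.range (M + 1), (-1) ^ i * (r i + r (i + 1)) = r 0 + (-1) ^ M * r (M + 1) := by
  induction M with
  | zero => simp
  | succ M ih =>
    rw [Finset.sum_range_succ, ih, pow_succ]
    ring

/-- the Euler characteristic -/
theorem euler_fd {B : Matrix X X ℂ} {deg : X → ℕ} (hB : ∀ x y, B x y ≠ 0 → deg y = deg x + 1)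
    {M : ℕ} (hdeg : ∀ x, deg x ≤ M) :
    ∑ i ∈ Finset.range (M + 1), (-1) ^ i * hDim B deg i = ∑ x, (-1) ^ deg x := by
  set r : ℕ → ℤ := fun i => Module.finrank ℂ
    (LinearMap.range (Matrix.mulVecLin Bᴴ) ⊓ crd (fun y => deg y = i) :
    Submodule ℂ (X → ℂ)) with hr
  have h1 : ∀ i, hDim B deg i = ((Finset.univ.filter fun x => deg x = i).card : ℤ) -
      (r i + r (i + 1)) := by
    intro i
    have h2 := rank_nullity hB i
    rw [finrank_crd] at h2
    unfold hDim
    rw [h2]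
    push_cast
    ring
  have h2 : r 0 = 0 := by
    have h3 : (LinearMap.range (Matrix.mulVecLin Bᴴ) ⊓ crd (fun y => deg y = 0) :
        Submodule ℂ (X → ℂ)) = ⊥ := by
      rw [Submodule.eq_bot_iff]
      rintro _ ⟨⟨z, rfl⟩, hz⟩
      funext y
      by_cases hy : deg y = 0
      · show ∑ x, Bᴴ y x * z x = 0
        refine Finset.sum_eq_zero fun x _ => ?_
        by_cases h0 : B x y = 0
        · rw [conjTranspose_apply, h0, star_zero, zero_mul]
        · have := hB x y h0
          omega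
      · exact hz y hy
    rw [hr]
    show ((Module.finrank ℂ _ : ℕ) : ℤ) = 0
    rw [h3, finrank_bot, Nat.cast_zero]
  have h4 : r (M + 1) = 0 := by
    have h3 : (LinearMap.range (Matrix.mulVecLin Bᴴ) ⊓ crd (fun y => deg y = M + 1) :
        Submodule ℂ (X → ℂ)) = ⊥ := by
      rw [Submodule.eq_bot_iff]
      rintro z ⟨-, hz⟩
      funext y
      exact hz y (by have := hdeg y; omega)
    rw [hr]
    show ((Module.finrank ℂ _ : ℕ) : ℤ) = 0
    rw [h3, finrank_bot, Nat.cast_zero]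
  have h5 : ∑ i ∈ Finset.range (M + 1), (-1) ^ i * hDim B deg i =
      ∑ i ∈ Finset.range (M + 1),
        (-1) ^ i * ((Finset.univ.filter fun x => deg x = i).card : ℤ) -
      ∑ i ∈ Finset.range (M + 1), (-1) ^ i * (r i + r (i + 1)) := by
    rw [← Finset.sum_sub_distrib]
    refine Finset.sum_congr rfl fun i _ => ?_
    rw [h1]
    ring
  rw [h5, tele, h2, h4, mul_zero, add_zero, sub_zero]
  have h6 : ∀ i, (-1 : ℤ) ^ i * ((Finset.univ.filter fun x => deg x = i).card : ℤ) =
      ∑ x with deg x = i, (-1) ^ deg x := by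
    intro i
    rw [Finset.sum_congr rfl (fun x hx => by rw [(Finset.mem_filter.1 hx).2] :
      ∀ x ∈ Finset.univ.filter (fun x => deg x = i), (-1 : ℤ) ^ deg x = (-1) ^ i),
      Finset.sum_const, nsmul_eq_mul, mul_comm]
  rw [Finset.sum_congr rfl fun i _ => h6 i]
  exact Finset.sum_fiberwise_of_maps_to
    (fun x _ => Finset.mem_range.2 (by have := hdeg x; omega)) _

theorem hDim_nonneg {B : Matrix X X ℂ} (hBB : B * B = 0) (deg : X → ℕ) (i : ℕ) :
    0 ≤ hDim B deg i := by
  have hBB' : Bᴴ * Bᴴ = 0 := by rw [← conjTranspose_mul, hBB, conjTranspose_zero]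
  have hRK : LinearMap.range (Matrix.mulVecLin Bᴴ) ⊓ crd (fun y => deg y = i) ≤
      LinearMap.ker (Matrix.mulVecLin Bᴴ) ⊓ crd (fun y => deg y = i) := by
    refine inf_le_inf_right _ ?_
    rintro _ ⟨z, rfl⟩
    show Bᴴ *ᵥ (Bᴴ *ᵥ z) = 0
    rw [mulVec_mulVec, hBB', zero_mulVec]
  have := Submodule.finrank_mono hRK
  unfold hDim
  omega

section twisted

variable {G : Type} [Group G]

/-- the dimension of the cohomology in degree `i` with coefficients in `τ` (a unitary
representation): kernel modulo image of `(τ b)ᴴ` in degree `i` -/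
noncomputable def cohDim {n : ℕ} {κ : Type} [Fintype κ] [DecidableEq κ] (τ : G → Matrix κ κ ℂ)
    (b : Matrix (Fin n) (Fin n) (MonoidAlgebra ℂ G)) (deg : Fin n → ℕ) (i : ℕ) : ℤ :=
  hDim (value τ b) (fun x => deg x.1) i

theorem value_ne {n : ℕ} {κ : Type} [Fintype κ] [DecidableEq κ] {τ : G → Matrix κ κ ℂ}
    {A : Matrix (Fin n) (Fin n) (MonoidAlgebra ℂ G)} {x y : Fin n × κ}
    (h : value τ A x y ≠ 0) : A x.1 y.1 ≠ 0 := by
  intro h0
  apply h
  unfold value
  rw [Matrix.of_apply, h0, MonoidAlgebra.coeff_zero, Finsupp.sum_zero_index]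

theorem cohSignature_le {n : ℕ} {b S : Matrix (Fin n) (Fin n) (MonoidAlgebra ℂ G)}
    (h : IsPoincare b S) {deg : Fin n → ℕ} {m : ℕ} (hb : ∀ i j, b i j ≠ 0 → deg j = deg i + 1)
    (hS : ∀ i j, S i j ≠ 0 → deg i + deg j = 2 * m) {d : ℕ}
    (ρ : G →* unitaryGroup (Fin d) ℂ) :
    |cohSignature (fun g => (ρ g).val) b S| ≤ cohDim (fun g => (ρ g).val) b deg m := by
  have hρ := um_isU ρ
  obtain ⟨a, ha, hgap⟩ := h.gap
  have hg := hgap (Fin d) (um ρ) hρ
  have h1 : sig (ev (um ρ) (b + adj b + S)) = cohSignature (fun g => (ρ g).val) b S :=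
    h.sig_ev (um ρ) hρ
  rw [← h1]
  rw [map_add, map_add, ev_adj hρ] at hg ⊢
  have h2 : value (fun g => (ρ g).val) b = ev (um ρ) b := value_eq (um ρ) b
  have h3 : value (fun g => (ρ g).val) S = ev (um ρ) S := value_eq (um ρ) S
  unfold cohDim
  rw [h2]
  refine sig_le_hDim ?_ ((herm_of_adj h.2.1).ev hρ) ?_ ?_ ?_ ?_
  · rw [← map_mul, h.1, map_zero]
  · rw [← ev_adj hρ, ← map_mul, ← map_mul, ← map_add, h.2.2.1, map_zero]
  · intro x y hxy
    rw [← h2] at hxy
    exact hb _ _ (value_ne hxy)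
  · intro x y hxy
    rw [← h3] at hxy
    exact hS _ _ (value_ne hxy)
  · intro hA i hi
    have h4 := (gap_eigenvalues hA hg i).1
    rw [hi, abs_zero] at h4
    linarith

theorem cohDim_euler {n : ℕ} {b : Matrix (Fin n) (Fin n) (MonoidAlgebra ℂ G)}
    {deg : Fin n → ℕ} {M : ℕ} (hb : ∀ i j, b i j ≠ 0 → deg j = deg i + 1)
    (hdeg : ∀ j, deg j ≤ M) {d : ℕ} (τ : G → Matrix (Fin d) (Fin d) ℂ) :
    ∑ i ∈ Finset.range (M + 1), (-1) ^ i * cohDim τ b deg i = d * ∑ j, (-1) ^ deg j := by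
  unfold cohDim
  rw [euler_fd (fun x y hxy => hb _ _ (value_ne hxy)) (fun x => hdeg x.1),
    Fintype.sum_prod_type, Finset.mul_sum]
  refine Finset.sum_congr rfl fun j _ => ?_
  show ∑ _y : Fin d, (-1 : ℤ) ^ deg j = _
  rw [Finset.sum_const, Finset.card_univ, Fintype.card_fin, nsmul_eq_mul]

theorem cohDim_nonneg {n : ℕ} {b : Matrix (Fin n) (Fin n) (MonoidAlgebra ℂ G)} (hbb : b * b = 0)
    (deg : Fin n → ℕ) {d : ℕ} (ρ : G →* unitaryGroup (Fin d) ℂ) (i : ℕ) :
    0 ≤ cohDim (fun g => (ρ g).val) b deg i := by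
  refine hDim_nonneg ?_ _ i
  have h2 : value (fun g => (ρ g).val) b = ev (um ρ) b := value_eq (um ρ) b
  rw [h2, ← map_mul, hbb, map_zero]

end twisted

end Pool.Agent.H748.Hom
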