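import Pool.Agent.H748.Hom.Clo

/-!
# Complexes of matrices indexed by `Fin n`
-/

set_option autoImplicit false
set_option linter.unusedSectionVars false

namespace Pool.Agent.H748.Hom

open Matrix Polynomial Filter Pool.Agent.H748.Sig Pool.Agent.H748.Art

variable {ι κ : Type} [Fintype ι] [DecidableEq ι] [Fintype κ] [DecidableEq κ]

/-- reindexing -/
noncomputable def rx {G : Type*} [Group G] (e : ι ≃ κ) :
    Matrix ι ι (MonoidAlgebra ℂ G) →ₐ[ℂ] Matrix κ κ (MonoidAlgebra ℂ G) :=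
  (Matrix.reindexAlgEquiv ℂ (MonoidAlgebra ℂ G) e).toAlgHom

theorem rx_apply {G : Type*} [Group G] (e : ι ≃ κ) (A : Matrix ι ι (MonoidAlgebra ℂ G))
    (i j : κ) : rx e A i j = A (e.symm i) (e.symm j) := rfl

theorem adj_rx {G : Type*} [Group G] (e : ι ≃ κ) (A : Matrix ι ι (MonoidAlgebra ℂ G)) :
    adj (rx e A) = rx e (adj A) := rfl

theorem tau_rx {G : Type*} [Group G] (e : ι ≃ κ) (A : Matrix ι ι (MonoidAlgebra ℂ G)) :
    tau (rx e A) = tau A := by
  unfold tau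
  rw [← Equiv.sum_comp e]
  refine Finset.sum_congr rfl fun i _ => ?_
  rw [rx_apply, e.symm_apply_apply]

theorem aeval_rx {G : Type*} [Group G] (e : ι ≃ κ) (A : Matrix ι ι (MonoidAlgebra ℂ G))
    (P : ℝ[X]) : aeval (rx e A) P = rx e (aeval A P) :=
  aeval_algHom_apply ((rx e).restrictScalars ℝ) A P

theorem sig_rx {G : Type*} [Group G] (e : ι ≃ κ) {A : Matrix ι ι (MonoidAlgebra ℂ G)} {a b : ℝ}
    (ha : 0 < a) (hA : Herm A) (hg : GapA A a b) : sig (aug (rx e A)) = sig (aug A) := by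
  have hH : Herm (rx e A) := fun i j g => hA (e.symm i) (e.symm j) g
  have hG : Gap (aug (rx e A)) a b := hg.aug.congr e.symm fun p q => rfl
  have h1 := sig_two ha hH.aug hA.aug hG hg.aug 1 1 (by
    intro P
    rw [Int.cast_one, one_mul, one_mul]
    have h2 : ∀ (l : Type) [Fintype l] [DecidableEq l] (B : Matrix l l (MonoidAlgebra ℂ G)),
        aeval (aug B) P = aug (aeval B P) := fun l _ _ B =>
      aeval_algHom_apply (aug.restrictScalars ℝ) B P
    rw [h2, h2, aeval_rx]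
    unfold Matrix.trace
    rw [← Equiv.sum_comp e]
    refine Finset.sum_congr rfl fun i _ => ?_
    show MonoidAlgebra.lift ℂ ℂ G 1 (aeval A P (e.symm (e i)) (e.symm (e i))) = _
    rw [e.symm_apply_apply]
    rfl)
  simpa using h1

/-- the `L²`-signature of a complex -/
def L2SignatureIs {G : Type} [Group G] {n : ℕ} (b S : Matrix (Fin n) (Fin n) (MonoidAlgebra ℂ G))
    (x : ℤ) : Prop :=
  ∀ P : ℕ → ℝ[X],
    (∀ a c ε : ℝ, 0 < a → 0 < ε → ∀ᶠ k in atTop, ∀ y : ℝ, a ≤ |y| → |y| ≤ c →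
      |(P k).eval y - ((SignType.sign y : SignType) : ℝ)| ≤ ε) →
    Tendsto (fun k => ∑ i, (aeval (b + adj b + S) (P k) i i).coeff 1) atTop (nhds (x : ℂ))

theorem L2S.of_fin {G : Type} [Group G]
    (h : ∀ (n : ℕ) (b S : Matrix (Fin n) (Fin n) (MonoidAlgebra ℂ G)), IsPoincare b S →
      L2SignatureIs b S (augSignature b S)) : L2S G := by
  refine L2S.of_lim fun ι _ _ b S T p s hP => ?_
  set e : ι ≃ Fin (Fintype.card ι) := Fintype.equivFin ι with he
  have h1 := hP.map (rx e) (adj_rx e)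
  have h2 : IsPoincare (rx e b) (rx e S) :=
    ⟨h1.bb, h1.SS, h1.bS, rx e T, rx e p, rx e s, h1.bT, h1.hp, h1.hs⟩
  have h3 : rx e b + adj (rx e b) + rx e S = rx e (b + adj b + S) := by
    rw [adj_rx, ← map_add, ← map_add]
  obtain ⟨a, ha, hg⟩ := gapA_complex hP.bb hP.SS hP.bS hP.bT hP.hp hP.hs
  have h4 := h2.sig_aug
  rw [h3, sig_rx e ha (herm_of_adj hP.adj_A) hg] at h4
  intro P hPs
  have h5 := h _ _ _ h2 P hPs
  rw [h3, ← h4] at h5
  refine h5.congr fun k => ?_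
  rw [← tau_rx e, ← aeval_rx]
  rfl

theorem L2S.fin {G : Type} [Group G] (hG : L2S G) {n : ℕ}
    {b S : Matrix (Fin n) (Fin n) (MonoidAlgebra ℂ G)} (h : IsPoincare b S) :
    (∀ (d : ℕ) (ρ : G →* unitaryGroup (Fin d) ℂ),
      cohSignature (fun g => (ρ g).val) b S = d * augSignature b S) ∧
    L2SignatureIs b S (augSignature b S) := by
  obtain ⟨h1, h2, h3, T, p, s, h4, h5, h6⟩ := h
  have hPD : PD b S T p s := ⟨h1, h2, h3, h4, h5, h6⟩
  have hIs : IsPoincare b S := ⟨h1, h2, h3, T, p, s, h4, h5, h6⟩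
  constructor
  · intro d ρ
    have h7 := hG.rig hPD (um_isU ρ)
    rw [hIs.sig_aug, hIs.sig_ev _ (um_isU ρ), Fintype.card_fin] at h7
    exact h7
  · intro P hP
    have h7 := hG.lim hPD P hP
    rw [hIs.sig_aug] at h7
    exact h7

theorem dvd_eq {G : Type} [Group G] (φ : G →* Multiplicative ℤ) (m : ℕ) :
    dvd φ m = (Subgroup.zpowers (Multiplicative.ofAdd (m : ℤ))).comap φ := by
  ext g
  rw [mem_dvd, Subgroup.mem_comap, Subgroup.mem_zpowers_iff]
  constructor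
  · rintro ⟨k, hk⟩
    refine ⟨k, ?_⟩
    apply Multiplicative.toAdd.injective
    rw [toAdd_zpow, hk, smul_eq_mul, mul_comm]
    rfl
  · rintro ⟨k, hk⟩
    refine ⟨k, ?_⟩
    rw [← hk, toAdd_zpow, smul_eq_mul, mul_comm]
    rfl

end Pool.Agent.H748.Hom
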