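import Pool.Agent.H748.Hom.Path

/-!
# Poincaré complexes have a spectral gap in all unitary homomorphisms
-/

set_option autoImplicit false
set_option linter.unusedSectionVars false

namespace Pool.Agent.H748.Hom

open Matrix Polynomial Filter Pool.Agent.H748.Sig Pool.Agent.H748.Art
open scoped InnerProductSpace

theorem ring_ids {R : Type*} [Ring R] {b b' S T p s : R} (hbS : b * S + S * b' = 0)
    (hT : b' * T + T * b = 0) (hp : b * p + p * b + S * T = 1)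
    (hs : b' * s + s * b' + T * S = 1) :
    b * (p - p * (S * s + p * S)) + S * (T + (s - T * (S * s + p * S))) + p * (b + S) -
        p * (S * s + p * S) * b' = 1 ∧
      b' * (T + (s - T * (S * s + p * S))) + T * (b + S) + (s - T * (S * s + p * S)) * b' = 1 := by
  set X := S * s + p * S with hX
  have hbS' : b * S = -(S * b') := eq_neg_of_add_eq_zero_left hbS
  have hp' : b * p = 1 - S * T - p * b := by
    rw [← hp]
    abel
  have hs' : b' * s = 1 - T * S - s * b' := by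
    rw [← hs]
    abel
  have hT' : b' * T = -(T * b) := eq_neg_of_add_eq_zero_left hT
  have hbX : b * X = X * b' := by
    rw [hX]
    calc b * (S * s + p * S) = (b * S) * s + (b * p) * S := by noncomm_ring
      _ = -(S * (b' * s)) + (b * p) * S := by rw [hbS']; noncomm_ring
      _ = -(S * (1 - T * S - s * b')) + (1 - S * T - p * b) * S := by rw [hs', hp']
      _ = S * s * b' - p * (b * S) := by noncomm_ring
      _ = (S * s + p * S) * b' := by rw [hbS']; noncomm_ring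
  constructor
  · calc b * (p - p * X) + S * (T + (s - T * X)) + p * (b + S) - p * X * b'
        = (b * p + p * b + S * T) + (S * s + p * S) - (b * p) * X - S * T * X - p * (X * b') := by
          noncomm_ring
      _ = 1 + X - (1 - S * T - p * b) * X - S * T * X - p * (b * X) := by
          rw [hp, ← hX, hp', hbX]
      _ = 1 := by noncomm_ring
  · calc b' * (T + (s - T * X)) + T * (b + S) + (s - T * X) * b'
        = (b' * T + T * b) + (b' * s + s * b' + T * S) - (b' * T) * X - T * (X * b') := by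
          noncomm_ring
      _ = 0 + 1 - (-(T * b)) * X - T * (b * X) := by rw [hT, hs, hT', hbX]
      _ = 1 := by noncomm_ring

section op

variable {V : Type*} [NormedAddCommGroup V] [InnerProductSpace ℂ V]

theorem norm_gap {B B' S T p s : Module.End ℂ V} (hB : ∀ v w : V, ⟪B v, w⟫_ℂ = ⟪v, B' w⟫_ℂ)
    (hS : Sym S) (hbb : B * B = 0) (hbS : B * S + S * B' = 0) (hT : B' * T + T * B = 0)
    (hp : B * p + p * B + S * T = 1) (hs : B' * s + s * B' + T * S = 1) {κ : ℝ} (hκ : 0 ≤ κ)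
    (bS : Bd S κ) (bT : Bd T κ) (bp : Bd p κ) (bs : Bd s κ) (v : V) :
    ‖v‖ ≤ (3 * κ + 4 * κ ^ 3) * ‖(B + B' + S) v‖ := by
  obtain ⟨i1, i2⟩ := ring_ids hbS hT hp hs
  set X := S * s + p * S with hX
  set q := p * X with hq
  set r := s - T * X with hr
  set y := B v + S v with hy
  set z := B' v with hz
  have hB' : ∀ v w : V, ⟪B' v, w⟫_ℂ = ⟪v, B w⟫_ℂ := by
    intro v w
    rw [← inner_conj_symm, ← hB, inner_conj_symm]
  -- orthogonality
  have ho : (⟪y, z⟫_ℂ).re = 0 := by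
    have e1 : ⟪B v, B' v⟫_ℂ = 0 := by
      rw [← hB, ← Module.End.mul_apply, hbb, LinearMap.zero_apply, inner_zero_left]
    have e2 : ⟪S v, B' v⟫_ℂ = -(starRingEnd ℂ) ⟪S v, B' v⟫_ℂ := by
      conv_lhs => rw [← hB, ← Module.End.mul_apply, eq_neg_of_add_eq_zero_left hbS,
        LinearMap.neg_apply, inner_neg_left, Module.End.mul_apply, hS]
      rw [inner_conj_symm]
    have e3 := congrArg Complex.re e2
    rw [Complex.neg_re, Complex.conj_re] at e3
    rw [hy, hz, inner_add_left, e1, zero_add]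
    linarith
  have hA : (B + B' + S) v = y + z := by
    rw [LinearMap.add_apply, LinearMap.add_apply, hy, hz]
    abel
  have hn : ‖(B + B' + S) v‖ ^ 2 = ‖y‖ ^ 2 + ‖z‖ ^ 2 := by
    rw [hA, @norm_add_sq ℂ]
    have : RCLike.re ⟪y, z⟫_ℂ = 0 := ho
    rw [this]
    ring
  set N := ‖(B + B' + S) v‖ with hN
  have hN0 : 0 ≤ N := norm_nonneg _
  have hyN : ‖y‖ ≤ N := by
    apply norm_le_of_sq hN0
    rw [hn]
    have := sq_nonneg ‖z‖
    linarith
  have hzN : ‖z‖ ≤ N := by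
    apply norm_le_of_sq hN0
    rw [hn]
    have := sq_nonneg ‖y‖
    linarith
  -- bounds
  have bX : Bd X (2 * κ ^ 2) := by
    have := (bS.mul hκ bs).add (bp.mul hκ bS)
    refine this.mono (le_of_eq ?_)
    ring
  have bq : Bd q (2 * κ ^ 3) := (bp.mul hκ bX).mono (le_of_eq (by ring))
  have bneg : ∀ {Y : Module.End ℂ V} {K : ℝ}, Bd Y K → Bd (-Y) K := by
    intro Y K hY v
    rw [LinearMap.neg_apply, norm_neg]
    exact hY v
  have bnq : Bd (-q) (2 * κ ^ 3) := bneg bq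
  have br : Bd r (κ + 2 * κ ^ 3) := by
    rw [hr, sub_eq_add_neg]
    exact (bs.add (bneg (bT.mul hκ bX))).mono (le_of_eq (by ring))
  have bTr : Bd (T + r) (2 * κ + 2 * κ ^ 3) := (bT.add br).mono (le_of_eq (by ring))
  have bpq : Bd (p + -q) (κ + 2 * κ ^ 3) := bp.add bnq
  have bTp : Bd (T + p) (2 * κ) := (bT.add bp).mono (le_of_eq (by ring))
  have brq : Bd (r + -q) (κ + 4 * κ ^ 3) := (br.add bnq).mono (le_of_eq (by ring))
  -- the identity
  have j1 := LinearMap.congr_fun i1 v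
  have j2 := LinearMap.congr_fun i2 v
  have k1 : v = B ((p + -q) v) + S ((T + r) v) + p y + (-q) z := by
    conv_lhs => rw [← Module.End.one_apply (R := ℂ) v, ← j1]
    simp only [LinearMap.add_apply, LinearMap.sub_apply, Module.End.mul_apply,
      LinearMap.neg_apply, map_add, map_sub, map_neg, hy, hz, hq]
    abel
  have k2 : v = B' ((T + r) v) + T y + r z := by
    conv_lhs => rw [← Module.End.one_apply (R := ℂ) v, ← j2]
    simp only [LinearMap.add_apply, Module.End.mul_apply, map_add, hy, hz]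
  have hid : ⟪v, v⟫_ℂ + ⟪v, v⟫_ℂ = ⟪y, (T + r) v⟫_ℂ + ⟪z, (p + -q) v⟫_ℂ + ⟪v, (T + p) y⟫_ℂ +
      ⟪v, (r + -q) z⟫_ℂ := by
    have l1 : ⟪v, v⟫_ℂ = ⟪z, (p + -q) v⟫_ℂ + ⟪S v, (T + r) v⟫_ℂ + ⟪v, p y⟫_ℂ +
        ⟪v, (-q) z⟫_ℂ := by
      have hS' : ∀ v w : V, ⟪S v, w⟫_ℂ = ⟪v, S w⟫_ℂ := hS
      have := congrArg (fun u => ⟪v, u⟫_ℂ) k1
      simp only [inner_add_right, ← hB', ← hS'] at this
      exact this
    have l2 : ⟪v, v⟫_ℂ = ⟪B v, (T + r) v⟫_ℂ + ⟪v, T y⟫_ℂ + ⟪v, r z⟫_ℂ := by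
      have := congrArg (fun u => ⟪v, u⟫_ℂ) k2
      simp only [inner_add_right, ← hB] at this
      exact this
    have l3 : ⟪y, (T + r) v⟫_ℂ = ⟪B v, (T + r) v⟫_ℂ + ⟪S v, (T + r) v⟫_ℂ := by
      rw [hy, inner_add_left]
    have l4 : ⟪v, (T + p) y⟫_ℂ = ⟪v, T y⟫_ℂ + ⟪v, p y⟫_ℂ := by
      rw [LinearMap.add_apply, inner_add_right]
    have l5 : ⟪v, (r + -q) z⟫_ℂ = ⟪v, r z⟫_ℂ + ⟪v, (-q) z⟫_ℂ := by
      rw [LinearMap.add_apply, inner_add_right]
    rw [l3, l4, l5]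
    nth_rewrite 1 [l1]
    rw [l2]
    ring
  have hnn : ‖v‖ ^ 2 + ‖v‖ ^ 2 = ‖⟪v, v⟫_ℂ + ⟪v, v⟫_ℂ‖ := by
    rw [inner_self_eq_norm_sq_to_K, ← two_mul, ← two_mul, norm_mul, norm_pow]
    simp
  have key : ‖v‖ ^ 2 + ‖v‖ ^ 2 ≤ (6 * κ + 8 * κ ^ 3) * N * ‖v‖ := by
    rw [hnn, hid]
    have hb : ∀ {Y : Module.End ℂ V} {K : ℝ} (u : V), 0 ≤ K → Bd Y K → ‖u‖ ≤ N →
        ‖⟪u, Y v⟫_ℂ‖ ≤ K * N * ‖v‖ := by
      intro Y K u hK hY hu
      calc _ ≤ ‖u‖ * ‖Y v‖ := norm_inner_le_norm _ _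
        _ ≤ N * (K * ‖v‖) := mul_le_mul hu (hY v) (norm_nonneg _) hN0
        _ = _ := by ring
    have hb' : ∀ {Y : Module.End ℂ V} {K : ℝ} (u : V), 0 ≤ K → Bd Y K → ‖u‖ ≤ N →
        ‖⟪v, Y u⟫_ℂ‖ ≤ K * N * ‖v‖ := by
      intro Y K u hK hY hu
      calc _ ≤ ‖v‖ * ‖Y u‖ := norm_inner_le_norm _ _
        _ ≤ ‖v‖ * (K * N) := by
            apply mul_le_mul_of_nonneg_left _ (norm_nonneg _)
            exact (hY u).trans (mul_le_mul_of_nonneg_left hu hK)
        _ = _ := by ring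
    have m1 := hb y (by positivity) bTr hyN
    have m2 := hb z (by positivity) bpq hzN
    have m3 := hb' y (by positivity) bTp hyN
    have m4 := hb' z (by positivity) brq hzN
    calc _ ≤ ‖⟪y, (T + r) v⟫_ℂ‖ + ‖⟪z, (p + -q) v⟫_ℂ‖ + ‖⟪v, (T + p) y⟫_ℂ‖ +
        ‖⟪v, (r + -q) z⟫_ℂ‖ := norm_add₄_le
      _ ≤ (2 * κ + 2 * κ ^ 3) * N * ‖v‖ + (κ + 2 * κ ^ 3) * N * ‖v‖ + 2 * κ * N * ‖v‖ +
        (κ + 4 * κ ^ 3) * N * ‖v‖ := by linarith
      _ = _ := by ring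
  rcases (norm_nonneg v).lt_or_eq with h0 | h0
  · have h1 : ‖v‖ * ‖v‖ ≤ ((3 * κ + 4 * κ ^ 3) * N) * ‖v‖ := by nlinarith
    exact le_of_mul_le_mul_right h1 h0
  · rw [← h0]
    positivity

end op

variable {G Q : Type*} [Group G] [Group Q]
variable {ι : Type} [Fintype ι] [DecidableEq ι]

/-- Poincaré complexes, with bounds -/
structure PD (b S T p s : Matrix ι ι (MonoidAlgebra ℂ G)) : Prop where
  bb : b * b = 0
  SS : adj S = S
  bS : b * S + S * adj b = 0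
  bT : adj b * T + T * b = 0
  hp : b * p + p * b + S * T = 1
  hs : adj b * s + s * adj b + T * S = 1

/-- the gap -/
noncomputable def gp (κ : ℝ) : ℝ := 1 / (3 * κ + 4 * κ ^ 3 + 1)

theorem gp_pos {κ : ℝ} (hκ : 0 ≤ κ) : 0 < gp κ := by
  unfold gp
  positivity

theorem gp_le {κ : ℝ} (hκ : 0 ≤ κ) : gp κ ≤ 1 := by
  unfold gp
  rw [div_le_one (by positivity)]
  have : 0 ≤ 3 * κ + 4 * κ ^ 3 := by positivity
  linarith

/-- **Uniform gap.** -/
theorem PD.gap {b S T p s : Matrix ι ι (MonoidAlgebra ℂ G)} (h : PD b S T p s) {κ : ℝ}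
    (hκ : 0 ≤ κ) (hS : L1 S ≤ κ) (hT : L1 T ≤ κ) (hp : L1 p ≤ κ) (hs : L1 s ≤ κ)
    {Φ : G →* MonoidAlgebra ℂ Q} (hΦ : UH Φ) (v : Vc ι Q) :
    gp κ * ‖v‖ ≤ ‖act (mp Φ (b + adj b + S)) v‖ := by
  have hm : ∀ X Y : Matrix ι ι (MonoidAlgebra ℂ G), act (mp Φ (X * Y)) =
      act (mp Φ X) * act (mp Φ Y) := fun X Y => by rw [map_mul, map_mul]
  have ha : ∀ X Y : Matrix ι ι (MonoidAlgebra ℂ G), act (mp Φ (X + Y)) =
      act (mp Φ X) + act (mp Φ Y) := fun X Y => by rw [map_add, map_add]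
  have h1 := norm_gap (B := act (mp Φ b)) (B' := act (mp Φ (adj b))) (S := act (mp Φ S))
    (T := act (mp Φ T)) (p := act (mp Φ p)) (s := act (mp Φ s))
    (by
      intro v w
      rw [inner_act, mp_adj hΦ]) (sym_act (by rw [← mp_adj hΦ, h.SS]))
    (by rw [← hm, h.bb, map_zero, map_zero]) (by rw [← hm, ← hm, ← ha, h.bS, map_zero, map_zero])
    (by rw [← hm, ← hm, ← ha, h.bT, map_zero, map_zero])
    (by rw [← hm, ← hm, ← hm, ← ha, ← ha, h.hp, map_one, map_one])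
    (by rw [← hm, ← hm, ← hm, ← ha, ← ha, h.hs, map_one, map_one]) hκ
    ((bd_mp hΦ S).mono hS) ((bd_mp hΦ T).mono hT) ((bd_mp hΦ p).mono hp) ((bd_mp hΦ s).mono hs) v
  rw [ha, ha]
  set n := ‖(act (mp Φ b) + act (mp Φ (adj b)) + act (mp Φ S)) v‖ with hn
  have hn0 : 0 ≤ n := norm_nonneg _
  unfold gp
  rw [div_mul_eq_mul_div, one_mul, div_le_iff₀ (by positivity)]
  nlinarith

end Pool.Agent.H748.Hom
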