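import Pool.Agent.H748.Hom.Path

/-!
# Unitary paths from `1` to elements of finite order
-/

set_option autoImplicit false
set_option linter.unusedSectionVars false

namespace Pool.Agent.H748.Hom

open Pool.Agent.H748.Art

/-- a primitive root of unity -/
noncomputable def om (N : ℕ) : ℂ := Complex.exp (2 * Real.pi * Complex.I / N)

theorem om_prim {N : ℕ} (hN : N ≠ 0) : IsPrimitiveRoot (om N) N :=
  Complex.isPrimitiveRoot_exp N hN

theorem om_ne (N : ℕ) : om N ≠ 0 := Complex.exp_ne_zero _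

theorem geom_zero {z : ℂ} {N : ℕ} (h1 : z ≠ 1) (hz : z ^ N = 1) :
    ∑ k ∈ Finset.range N, z ^ k = 0 := by
  have h2 := mul_geom_sum z N
  rw [hz, sub_self] at h2
  exact (mul_eq_zero.1 h2).resolve_left (sub_ne_zero.2 h1)

section

variable {𝔸 : Type*} [Ring 𝔸] [Algebra ℂ 𝔸]

/-- the spectral projections of an element with `x ^ N = 1` -/
noncomputable def pj (N : ℕ) (x : 𝔸) (j : ℕ) : 𝔸 :=
  (N : ℂ)⁻¹ • ∑ k ∈ Finset.range N, ((om N ^ j)⁻¹ ^ k) • x ^ k

theorem mul_pj {N : ℕ} (hN : N ≠ 0) {x : 𝔸} (hx : x ^ N = 1) (j : ℕ) :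
    x * pj N x j = om N ^ j • pj N x j := by
  have h0 : om N ^ j ≠ 0 := pow_ne_zero _ (om_ne N)
  set f : ℕ → 𝔸 := fun k => ((om N ^ j)⁻¹ ^ k) • x ^ k with hf
  have hfN : f N = f 0 := by
    rw [hf]
    simp only [pow_zero, hx]
    rw [inv_pow, ← pow_mul, mul_comm j N, pow_mul, (om_prim hN).pow_eq_one, one_pow, inv_one]
  have h1 : ∑ k ∈ Finset.range N, f (k + 1) = ∑ k ∈ Finset.range N, f k := by
    have h2 := Finset.sum_range_succ' f N
    have h3 := Finset.sum_range_succ f N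
    rw [h3, hfN] at h2
    exact (add_right_cancel h2).symm
  rw [pj, mul_smul_comm, smul_comm]
  congr 1
  show x * ∑ k ∈ Finset.range N, f k = om N ^ j • ∑ k ∈ Finset.range N, f k
  rw [← h1, Finset.smul_sum]
  rw [h1, Finset.mul_sum]
  refine Finset.sum_congr rfl fun k _ => ?_
  rw [hf]
  simp only
  rw [mul_smul_comm, ← pow_succ', smul_smul, pow_succ ((om N ^ j)⁻¹) k, mul_comm _ (om N ^ j)⁻¹,
    ← mul_assoc, mul_inv_cancel₀ h0, one_mul]

theorem pow_mul_pj {N : ℕ} (hN : N ≠ 0) {x : 𝔸} (hx : x ^ N = 1) (j k : ℕ) :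
    x ^ k * pj N x j = (om N ^ j) ^ k • pj N x j := by
  induction k with
  | zero => rw [pow_zero, pow_zero, one_mul, one_smul]
  | succ k ih => rw [pow_succ, mul_assoc, mul_pj hN hx, mul_smul_comm, ih, smul_smul, pow_succ']

theorem pj_mul_of_eig {N : ℕ} (hN : N ≠ 0) {x y : 𝔸} {j l : ℕ} (hj : j < N) (hl : l < N)
    (h : ∀ k, x ^ k * y = (om N ^ l) ^ k • y) : pj N x j * y = if j = l then y else 0 := by
  have hNC : (N : ℂ) ≠ 0 := Nat.cast_ne_zero.2 hN
  have h0 : om N ^ j ≠ 0 := pow_ne_zero _ (om_ne N)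
  rw [pj, smul_mul_assoc, Finset.sum_mul]
  have h1 : ∀ k ∈ Finset.range N, ((om N ^ j)⁻¹ ^ k) • x ^ k * y =
      ((om N ^ j)⁻¹ * om N ^ l) ^ k • y := by
    intro k _
    rw [smul_mul_assoc, h, smul_smul, mul_pow]
  rw [Finset.sum_congr rfl h1, ← Finset.sum_smul, smul_smul]
  split_ifs with hjl
  · rw [hjl, inv_mul_cancel₀ (pow_ne_zero _ (om_ne N))]
    simp only [one_pow, Finset.sum_const, Finset.card_range, nsmul_eq_mul, mul_one]
    rw [inv_mul_cancel₀ hNC, one_smul]
  · rw [geom_zero, mul_zero, zero_smul]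
    · intro hc
      apply hjl
      have h2 : om N ^ l = om N ^ j := by
        have := congrArg (fun z => om N ^ j * z) hc
        simp only [mul_one] at this
        rwa [← mul_assoc, mul_inv_cancel₀ h0, one_mul] at this
      exact ((om_prim hN).pow_inj hl hj h2).symm
    · rw [mul_pow, inv_pow, ← pow_mul, ← pow_mul, mul_comm j N, mul_comm l N, pow_mul, pow_mul,
        (om_prim hN).pow_eq_one, one_pow, one_pow, inv_one, one_mul]

theorem pj_mul_pj {N : ℕ} (hN : N ≠ 0) {x : 𝔸} (hx : x ^ N = 1) {j l : ℕ} (hj : j < N)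
    (hl : l < N) : pj N x j * pj N x l = if j = l then pj N x l else 0 :=
  pj_mul_of_eig hN hj hl fun k => pow_mul_pj hN hx l k

theorem sum_pj {N : ℕ} (hN : N ≠ 0) (x : 𝔸) : ∑ j ∈ Finset.range N, pj N x j = 1 := by
  have hNC : (N : ℂ) ≠ 0 := Nat.cast_ne_zero.2 hN
  unfold pj
  rw [← Finset.smul_sum, Finset.sum_comm]
  have h1 : ∀ k ∈ Finset.range N, ∑ j ∈ Finset.range N, ((om N ^ j)⁻¹ ^ k) • x ^ k =
      if k = 0 then (N : ℂ) • (1 : 𝔸) else 0 := by
    intro k hk
    rw [← Finset.sum_smul]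
    have h2 : ∀ j ∈ Finset.range N, (om N ^ j)⁻¹ ^ k = ((om N ^ k)⁻¹) ^ j := by
      intro j _
      rw [inv_pow, inv_pow, ← pow_mul, ← pow_mul, mul_comm]
    rw [Finset.sum_congr rfl h2]
    split_ifs with h0
    · rw [h0]
      simp
    · rw [geom_zero, zero_smul]
      · intro hc
        have h3 : om N ^ k = om N ^ 0 := by
          rw [pow_zero]
          exact inv_eq_one.1 hc
        exact h0 ((om_prim hN).pow_inj (Finset.mem_range.1 hk) (Nat.pos_of_ne_zero hN) h3)
      · rw [inv_pow, ← pow_mul, mul_comm k N, pow_mul, (om_prim hN).pow_eq_one, one_pow, inv_one]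
  rw [Finset.sum_congr rfl h1, Finset.sum_ite_eq', if_pos (Finset.mem_range.2
    (Nat.pos_of_ne_zero hN)), smul_smul, inv_mul_cancel₀ hNC, one_smul]

/-- the path -/
noncomputable def up (N : ℕ) (x : 𝔸) (s : ℝ) : 𝔸 :=
  ∑ j ∈ Finset.range N, Complex.exp (2 * Real.pi * Complex.I * (j * s / N)) • pj N x j

theorem up_zero {N : ℕ} (hN : N ≠ 0) (x : 𝔸) : up N x 0 = 1 := by
  rw [up, ← sum_pj hN x]
  refine Finset.sum_congr rfl fun j _ => ?_
  simp

theorem up_one {N : ℕ} (hN : N ≠ 0) {x : 𝔸} (hx : x ^ N = 1) : up N x 1 = x := by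
  have h1 : x = ∑ j ∈ Finset.range N, x * pj N x j := by
    rw [← Finset.mul_sum, sum_pj hN, mul_one]
  conv_rhs => rw [h1]
  rw [up]
  refine Finset.sum_congr rfl fun j _ => ?_
  rw [mul_pj hN hx, om, ← Complex.exp_nat_mul]
  congr 2
  push_cast
  ring

theorem up_mul {N : ℕ} (hN : N ≠ 0) {x : 𝔸} (hx : x ^ N = 1) (s t : ℝ) :
    up N x s * up N x t = up N x (s + t) := by
  rw [up, up, up, Finset.sum_mul]
  refine Finset.sum_congr rfl fun j hj => ?_
  rw [Finset.mul_sum, Finset.sum_eq_single j]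
  · rw [smul_mul_smul_comm, pj_mul_pj hN hx (Finset.mem_range.1 hj) (Finset.mem_range.1 hj),
      if_pos rfl, ← Complex.exp_add]
    congr 2
    push_cast
    ring
  · intro l hl hlj
    rw [smul_mul_smul_comm, pj_mul_pj hN hx (Finset.mem_range.1 hj) (Finset.mem_range.1 hl),
      if_neg (Ne.symm hlj), smul_zero]
  · intro h
    exact absurd hj h

theorem commute_pj {N : ℕ} {x y : 𝔸} (h : Commute x y) (j : ℕ) : Commute (pj N x j) y := by
  unfold pj
  refine Commute.smul_left ?_ _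
  refine Commute.sum_left _ _ _ fun k _ => ?_
  exact (h.pow_left k).smul_left _

theorem commute_up {N : ℕ} {x y : 𝔸} (h : Commute x y) (s t : ℝ) :
    Commute (up N x s) (up N y t) := by
  have h1 : ∀ {x y : 𝔸}, Commute x y → ∀ s : ℝ, Commute (up N x s) y := by
    intro x y h s
    unfold up
    exact Commute.sum_left _ _ _ fun j _ => (commute_pj h j).smul_left _
  exact h1 (h1 h.symm t).symm s

theorem conj_up {N : ℕ} (m : 𝔸ˣ) (x : 𝔸) (s : ℝ) :
    (m : 𝔸) * up N x s * ((m⁻¹ : 𝔸ˣ) : 𝔸) = up N ((m : 𝔸) * x * ((m⁻¹ : 𝔸ˣ) : 𝔸)) s := by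
  unfold up pj
  simp only [Finset.smul_sum, Finset.mul_sum, Finset.sum_mul, mul_smul_comm, smul_mul_assoc,
    Units.conj_pow]

theorem rp_up (N : ℕ) (x : 𝔸) : ∃ F' : ℝ → 𝔸, Rp (fun s => up N x s) F' := by
  refine ⟨fun s => ∑ j : Fin N, (Complex.exp (2 * Real.pi * Complex.I * (j * s / N)) *
    (2 * Real.pi * Complex.I * (j / N))) • pj N x j, Fin N, inferInstance,
    fun j s => Complex.exp (2 * Real.pi * Complex.I * (j * s / N)),
    fun j s => Complex.exp (2 * Real.pi * Complex.I * (j * s / N)) *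
      (2 * Real.pi * Complex.I * (j / N)), fun j => pj N x j, ?_, ?_, ?_, fun s => rfl⟩
  · intro j s
    have h1 : HasDerivAt (fun z : ℂ => Complex.exp (2 * Real.pi * Complex.I * (j * z / N)))
        (Complex.exp (2 * Real.pi * Complex.I * (j * (s : ℂ) / N)) *
          (2 * Real.pi * Complex.I * (j / N))) (s : ℂ) := by
      apply HasDerivAt.cexp
      have h2 : HasDerivAt (fun z : ℂ => 2 * Real.pi * Complex.I * (j * z / N))
          (2 * Real.pi * Complex.I * (j * 1 / N)) (s : ℂ) :=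
        (((hasDerivAt_id (s : ℂ)).const_mul (j : ℂ)).div_const (N : ℂ)).const_mul _
      rwa [mul_one] at h2
    exact h1.comp_ofReal
  · intro j
    fun_prop
  · intro s
    show up N x s = _
    unfold up
    exact Finset.sum_range _

end

section adjoint

variable {Q : Type*} [Group Q]

theorem adjE_pj {N : ℕ} (hN : N ≠ 0) {x : MonoidAlgebra ℂ Q} (hx : x ^ N = 1)
    (hu : adjE x * x = 1) (j : ℕ) : adjE (pj N x j) = pj N x j := by
  set p := pj N x j with hp
  have h0 : om N ^ j ≠ 0 := pow_ne_zero _ (om_ne N)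
  have hnorm : star (om N ^ j) = (om N ^ j)⁻¹ := by
    rw [Complex.star_def, map_pow, ← inv_pow]
    congr 1
    rw [om, ← Complex.exp_conj, ← Complex.exp_neg]
    congr 1
    have h2 : (starRingEnd ℂ) 2 = 2 := map_ofNat _ 2
    simp [h2]
    ring
  have h1 : adjE p * adjE x = (om N ^ j)⁻¹ • adjE p := by
    rw [← adjE_mul, hp, mul_pj hN hx, adjE_smul, hnorm]
  have h2 : adjE p * x = om N ^ j • adjE p := by
    have h3 := congrArg (fun z => z * x) h1
    simp only [mul_assoc, hu, mul_one, smul_mul_assoc] at h3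
    calc adjE p * x = om N ^ j • ((om N ^ j)⁻¹ • (adjE p * x)) := by
          rw [smul_smul, mul_inv_cancel₀ h0, one_smul]
      _ = om N ^ j • adjE p := by rw [← h3]
  -- `adjE p * p_j = adjE p`
  have h3 : ∀ k, adjE p * x ^ k = (om N ^ j) ^ k • adjE p := by
    intro k
    induction k with
    | zero => rw [pow_zero, pow_zero, mul_one, one_smul]
    | succ k ih => rw [pow_succ, ← mul_assoc, ih, smul_mul_assoc, h2, smul_smul, pow_succ]
  have h4' : ∀ y : MonoidAlgebra ℂ Q, (∀ k, y * x ^ k = (om N ^ j) ^ k • y) →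
      y * pj N x j = y := by
    intro y hy
    have hNC : (N : ℂ) ≠ 0 := Nat.cast_ne_zero.2 hN
    rw [pj, mul_smul_comm, Finset.mul_sum]
    have h5 : ∀ k ∈ Finset.range N, y * ((om N ^ j)⁻¹ ^ k) • x ^ k = y := by
      intro k _
      rw [mul_smul_comm, hy, smul_smul, ← mul_pow, inv_mul_cancel₀ h0, one_pow, one_smul]
    rw [Finset.sum_congr rfl h5, Finset.sum_const, Finset.card_range, ← Nat.cast_smul_eq_nsmul ℂ,
      smul_smul, inv_mul_cancel₀ hNC, one_smul]
  have h4 : adjE p * p = adjE p := h4' _ h3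
  have h5 : adjE (adjE p * p) = adjE p * p := by rw [adjE_mul, adjE_adjE]
  rw [h4, adjE_adjE] at h5
  exact h5.symm

theorem adjE_up {N : ℕ} (hN : N ≠ 0) {x : MonoidAlgebra ℂ Q} (hx : x ^ N = 1)
    (hu : adjE x * x = 1) (s : ℝ) : adjE (up N x s) = up N x (-s) := by
  rw [up, up, adjE_sum]
  refine Finset.sum_congr rfl fun j _ => ?_
  rw [adjE_smul, adjE_pj hN hx hu, Complex.star_def, ← Complex.exp_conj]
  congr 2
  have h2 : (starRingEnd ℂ) 2 = 2 := map_ofNat _ 2
  simp [h2]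
  ring

end adjoint

end Pool.Agent.H748.Hom
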