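import Pool.Agent.H748.Hom.Idem
import Pool.Graph.R_pool_sql_team_ae5b0c61.H65.RaagRF

/-!
# Right-angled Artin groups with an action and their quotients
-/

set_option autoImplicit false
set_option linter.unusedSectionVars false

namespace Pool.Agent.H748.Hom

open Pool.Agent.H748.Art Pool.Agent.H65

section pres

variable {V M : Type} [Group M] [MulAction M V]

/-- the endomorphism of a presented group given by a permutation of the generators -/
def pgHom (R : Set (FreeGroup V)) (hR : ∀ m : M, ∀ r ∈ R, FreeGroup.map (m • ·) r ∈ R) (m : M) :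
    PresentedGroup R →* PresentedGroup R :=
  PresentedGroup.toGroup (f := fun v => PresentedGroup.of (m • v)) (by
    intro r hr
    have h1 : FreeGroup.lift (fun v => (PresentedGroup.of (m • v) : PresentedGroup R)) =
        (PresentedGroup.mk R).comp (FreeGroup.map (m • ·)) := by
      ext v
      rw [FreeGroup.lift_apply_of, MonoidHom.comp_apply, FreeGroup.map.of]
      rfl
    rw [h1, MonoidHom.comp_apply]
    exact PresentedGroup.one_of_mem (hR m r hr))

theorem pgHom_of (R : Set (FreeGroup V)) (hR : ∀ m : M, ∀ r ∈ R, FreeGroup.map (m • ·) r ∈ R)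
    (m : M) (v : V) : pgHom R hR m (PresentedGroup.of v) = PresentedGroup.of (m • v) :=
  PresentedGroup.toGroup.of _

/-- the action on a presented group given by an action on the generators -/
def pgAct (R : Set (FreeGroup V)) (hR : ∀ m : M, ∀ r ∈ R, FreeGroup.map (m • ·) r ∈ R) :
    M →* MulAut (PresentedGroup R) :=
  MonoidHom.mk' (fun m => (pgHom R hR m).toMulEquiv (pgHom R hR m⁻¹)
    (PresentedGroup.ext fun v => by
      rw [MonoidHom.comp_apply, pgHom_of, pgHom_of, inv_smul_smul]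
      rfl)
    (PresentedGroup.ext fun v => by
      rw [MonoidHom.comp_apply, pgHom_of, pgHom_of, smul_inv_smul]
      rfl)) (by
    intro m m'
    apply MulEquiv.toMonoidHom_injective
    refine PresentedGroup.ext fun v => ?_
    show pgHom R hR (m * m') (PresentedGroup.of v) =
      pgHom R hR m (pgHom R hR m' (PresentedGroup.of v))
    rw [pgHom_of, pgHom_of, pgHom_of, mul_smul])

theorem pgAct_of (R : Set (FreeGroup V)) (hR : ∀ m : M, ∀ r ∈ R, FreeGroup.map (m • ·) r ∈ R)
    (m : M) (v : V) : pgAct R hR m (PresentedGroup.of v) = PresentedGroup.of (m • v) :=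
  pgHom_of R hR m v

end pres

variable {V M : Type} [Group M] [MulAction M V]

/-- the commutation relations of a graph -/
def relC (Γ : SimpleGraph V) : Set (FreeGroup V) :=
  {r | ∃ s t, Γ.Adj s t ∧
    r = FreeGroup.of s * FreeGroup.of t * (FreeGroup.of s)⁻¹ * (FreeGroup.of t)⁻¹}

/-- the relations `v ^ N = 1` -/
def relN (Γ : SimpleGraph V) (N : ℕ) : Set (FreeGroup V) :=
  relC Γ ∪ {r | ∃ s, r = FreeGroup.of s ^ N}

theorem relC_inv {Γ : SimpleGraph V} (h : ∀ (m : M) (s t : V), Γ.Adj s t → Γ.Adj (m • s) (m • t)) :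
    ∀ m : M, ∀ r ∈ relC Γ, FreeGroup.map (m • ·) r ∈ relC Γ := by
  rintro m _ ⟨s, t, hst, rfl⟩
  refine ⟨m • s, m • t, h m s t hst, ?_⟩
  simp only [map_mul, map_inv, FreeGroup.map.of]

theorem relN_inv {Γ : SimpleGraph V} (h : ∀ (m : M) (s t : V), Γ.Adj s t → Γ.Adj (m • s) (m • t))
    (N : ℕ) : ∀ m : M, ∀ r ∈ relN Γ N, FreeGroup.map (m • ·) r ∈ relN Γ N := by
  rintro m r (hr | ⟨s, rfl⟩)
  · exact Or.inl (relC_inv h m r hr)
  · refine Or.inr ⟨m • s, ?_⟩
    rw [map_pow, FreeGroup.map.of]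

/-- the semidirect product of a right-angled Artin group and a group acting on the graph -/
abbrev RE (M : Type) [Group M] [MulAction M V] (Γ : SimpleGraph V)
    (h : ∀ (m : M) (s t : V), Γ.Adj s t → Γ.Adj (m • s) (m • t)) : Type :=
  PresentedGroup (relC Γ) ⋊[pgAct (relC Γ) (relC_inv h)] M

/-- the quotient by the relations `v ^ N = 1` -/
abbrev QE (M : Type) [Group M] [MulAction M V] (Γ : SimpleGraph V)
    (h : ∀ (m : M) (s t : V), Γ.Adj s t → Γ.Adj (m • s) (m • t)) (N : ℕ) : Type :=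
  PresentedGroup (relN Γ N) ⋊[pgAct (relN Γ N) (relN_inv h N)] M

variable {Γ : SimpleGraph V}

/-- the universal property -/
def liftC {G : Type} [Group G] (f : V → G) (h : ∀ s t, Γ.Adj s t → Commute (f s) (f t)) :
    PresentedGroup (relC Γ) →* G :=
  PresentedGroup.toGroup (f := f) (by
    rintro _ ⟨s, t, hst, rfl⟩
    simp only [map_mul, map_inv, FreeGroup.lift_apply_of]
    exact commutatorElement_eq_one_iff_commute.2 (h s t hst))

theorem liftC_of {G : Type} [Group G] (f : V → G) (h : ∀ s t, Γ.Adj s t → Commute (f s) (f t))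
    (v : V) : liftC f h (PresentedGroup.of v) = f v := PresentedGroup.toGroup.of _

/-- the universal property of the quotient -/
def liftN {G : Type} [Group G] (N : ℕ) (f : V → G) (h : ∀ s t, Γ.Adj s t → Commute (f s) (f t))
    (hN : ∀ s, f s ^ N = 1) : PresentedGroup (relN Γ N) →* G :=
  PresentedGroup.toGroup (f := f) (by
    rintro _ (⟨s, t, hst, rfl⟩ | ⟨s, rfl⟩)
    · simp only [map_mul, map_inv, FreeGroup.lift_apply_of]
      exact commutatorElement_eq_one_iff_commute.2 (h s t hst)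
    · rw [map_pow, FreeGroup.lift_apply_of]
      exact hN s)

theorem liftN_of {G : Type} [Group G] (N : ℕ) (f : V → G)
    (h : ∀ s t, Γ.Adj s t → Commute (f s) (f t)) (hN : ∀ s, f s ^ N = 1) (v : V) :
    liftN N f h hN (PresentedGroup.of v) = f v := PresentedGroup.toGroup.of _

theorem commN (N : ℕ) {s t : V} (h : Γ.Adj s t) :
    Commute (PresentedGroup.of s : PresentedGroup (relN Γ N)) (PresentedGroup.of t) := by
  have := PresentedGroup.one_of_mem (rels := relN Γ N) (Or.inl ⟨s, t, h, rfl⟩)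
  exact commutatorElement_eq_one_iff_commute.1 this

theorem powN (N : ℕ) (s : V) :
    (PresentedGroup.of s : PresentedGroup (relN Γ N)) ^ N = 1 :=
  PresentedGroup.one_of_mem (rels := relN Γ N) (Or.inr ⟨s, rfl⟩)

/-- the projection -/
def toN (Γ : SimpleGraph V) (N : ℕ) : PresentedGroup (relC Γ) →* PresentedGroup (relN Γ N) :=
  liftC PresentedGroup.of fun _ _ h => commN N h

theorem toN_of (N : ℕ) (v : V) : toN Γ N (PresentedGroup.of v) = PresentedGroup.of v :=
  liftC_of _ _ v

theorem exists_toN_ne (a : PresentedGroup (relC Γ)) (ha : a ≠ 1) :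
    ∃ N : ℕ, 0 < N ∧ ∀ k : ℕ, toN Γ (N * k) a ≠ 1 := by
  have hrf : Group.ResiduallyFinite (PresentedGroup (relC Γ)) := Raag.raagRF (Γ := Γ)
  obtain ⟨K, hK⟩ := Group.exists_finiteIndexNormalSubgroup_notMem a ha
  set q : PresentedGroup (relC Γ) →* PresentedGroup (relC Γ) ⧸ K.toSubgroup :=
    QuotientGroup.mk' K.toSubgroup with hq
  have hfin : Finite (PresentedGroup (relC Γ) ⧸ K.toSubgroup) := inferInstance
  refine ⟨Nat.card (PresentedGroup (relC Γ) ⧸ K.toSubgroup), Nat.card_pos, ?_⟩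
  intro k hc
  apply hK
  have hcomm : ∀ s t, Γ.Adj s t → Commute (q (PresentedGroup.of s)) (q (PresentedGroup.of t)) := by
    intro s t h
    exact (Raag.comm h).map q
  have h1 : (liftN (Nat.card (PresentedGroup (relC Γ) ⧸ K.toSubgroup) * k)
      (fun v => q (PresentedGroup.of v)) hcomm
      (fun s => by rw [pow_mul, pow_card_eq_one', one_pow])).comp (toN Γ _) = q := by
    refine PresentedGroup.ext fun v => ?_
    rw [MonoidHom.comp_apply, toN_of, liftN_of]
  have h2 : q a = 1 := by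
    rw [← h1, MonoidHom.comp_apply, hc, map_one]
  exact (QuotientGroup.eq_one_iff a).1 h2

variable (h : ∀ (m : M) (s t : V), Γ.Adj s t → Γ.Adj (m • s) (m • t))

/-- the projection of the semidirect products -/
def th (N : ℕ) : RE M Γ h →* QE M Γ h N :=
  SemidirectProduct.map (toN Γ N) (MonoidHom.id M) (by
    intro m
    refine PresentedGroup.ext fun v => ?_
    show toN Γ N (pgAct (relC Γ) (relC_inv h) m (PresentedGroup.of v)) =
      pgAct (relN Γ N) (relN_inv h N) m (toN Γ N (PresentedGroup.of v))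
    rw [pgAct_of, toN_of, toN_of, pgAct_of])

theorem th_left (N : ℕ) (g : RE M Γ h) : (th h N g).left = toN Γ N g.left :=
  SemidirectProduct.map_left _ _ _ g

theorem th_right (N : ℕ) (g : RE M Γ h) : (th h N g).right = g.right := by
  have h1 := SemidirectProduct.map_right (fn := toN Γ N) (fg := MonoidHom.id M)
    (φ₁ := pgAct (relC Γ) (relC_inv h)) (φ₂ := pgAct (relN Γ N) (relN_inv h N)) (by
    intro m
    refine PresentedGroup.ext fun v => ?_
    show toN Γ N (pgAct (relC Γ) (relC_inv h) m (PresentedGroup.of v)) =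
      pgAct (relN Γ N) (relN_inv h N) m (toN Γ N (PresentedGroup.of v))
    rw [pgAct_of, toN_of, toN_of, pgAct_of]) g
  rw [MonoidHom.id_apply] at h1
  exact h1

theorem exists_th_ne_one (g : RE M Γ h) (hg : g ≠ 1) :
    ∃ N : ℕ, 0 < N ∧ ∀ k : ℕ, th h (N * k) g ≠ 1 := by
  by_cases hr : g.right = 1
  · have hl : g.left ≠ 1 := by
      intro hc
      exact hg (SemidirectProduct.ext hc hr)
    obtain ⟨N', h1, h2⟩ := exists_toN_ne g.left hl
    refine ⟨N', h1, fun k hc => h2 k ?_⟩
    rw [← th_left, hc, SemidirectProduct.one_left]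
  · refine ⟨1, one_pos, fun k hc => hr ?_⟩
    rw [← th_right h (1 * k), hc, SemidirectProduct.one_right]

theorem exists_th_ne (F : Finset (RE M Γ h)) (hF : ∀ g ∈ F, g ≠ 1) :
    ∃ N : ℕ, 0 < N ∧ ∀ g ∈ F, th h N g ≠ 1 := by
  choose! n hn1 hn2 using exists_th_ne_one h
  refine ⟨∏ g ∈ F, n g, Finset.prod_pos fun g hg => hn1 g (hF g hg), ?_⟩
  intro g hg
  obtain ⟨k, hk⟩ := Finset.dvd_prod_of_mem n hg
  rw [hk]
  exact hn2 g (hF g hg) k

variable {N : ℕ}

/-- the generators in the group algebra -/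
noncomputable def xv (N : ℕ) (v : V) : MonoidAlgebra ℂ (QE M Γ h N) :=
  MonoidAlgebra.of ℂ (QE M Γ h N) (SemidirectProduct.inl (PresentedGroup.of v))

theorem xv_pow (v : V) : xv h N v ^ N = 1 := by
  rw [xv, ← map_pow, ← map_pow, powN, map_one, map_one]

theorem xv_adj (v : V) : adjE (xv h N v) * xv h N v = 1 := by
  rw [xv, MonoidAlgebra.of_apply, adjE_single, MonoidAlgebra.single_mul_single, inv_mul_cancel,
    star_one, mul_one, MonoidAlgebra.one_def]

theorem xv_comm {s t : V} (hst : Γ.Adj s t) : Commute (xv h N s) (xv h N t) :=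
  ((commN N hst).map (SemidirectProduct.inl (φ := pgAct (relN Γ N) (relN_inv h N)))).map
    (MonoidAlgebra.of ℂ (QE M Γ h N))

/-- the path of unitaries -/
noncomputable def uu (hN : N ≠ 0) (s : ℝ) (v : V) : (MonoidAlgebra ℂ (QE M Γ h N))ˣ where
  val := up N (xv h N v) s
  inv := up N (xv h N v) (-s)
  val_inv := by rw [up_mul hN (xv_pow h v), add_neg_cancel, up_zero hN]
  inv_val := by rw [up_mul hN (xv_pow h v), neg_add_cancel, up_zero hN]

/-- the elements of `M` in the group algebra -/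
noncomputable def gm (N : ℕ) : M →* (MonoidAlgebra ℂ (QE M Γ h N))ˣ :=
  (Units.map (MonoidAlgebra.of ℂ (QE M Γ h N))).comp
    ((toUnits (G := QE M Γ h N)).toMonoidHom.comp SemidirectProduct.inr)

theorem gm_val (m : M) : ((gm h N m : (MonoidAlgebra ℂ (QE M Γ h N))ˣ) :
    MonoidAlgebra ℂ (QE M Γ h N)) =
    MonoidAlgebra.of ℂ (QE M Γ h N) (SemidirectProduct.inr m) := rfl

theorem gm_inv_val (m : M) : (((gm h N m)⁻¹ : (MonoidAlgebra ℂ (QE M Γ h N))ˣ) :
    MonoidAlgebra ℂ (QE M Γ h N)) =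
    MonoidAlgebra.of ℂ (QE M Γ h N) (SemidirectProduct.inr m⁻¹) := by
  rw [← map_inv, gm_val]

theorem xv_smul (m : M) (v : V) : xv h N (m • v) =
    ((gm h N m : (MonoidAlgebra ℂ (QE M Γ h N))ˣ) : MonoidAlgebra ℂ (QE M Γ h N)) * xv h N v *
      (((gm h N m)⁻¹ : (MonoidAlgebra ℂ (QE M Γ h N))ˣ) : MonoidAlgebra ℂ (QE M Γ h N)) := by
  rw [gm_val, gm_inv_val, xv, xv, ← map_mul, ← map_mul, ← SemidirectProduct.inl_aut, pgAct_of]

theorem uu_comm (hN : N ≠ 0) (s : ℝ) :
    ∀ v w, Γ.Adj v w → Commute (uu h hN s v) (uu h hN s w) := fun _ _ hvw =>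
  Units.ext (commute_up (xv_comm h hvw) s s).eq

/-- the path of homomorphisms -/
noncomputable def PhU (hN : N ≠ 0) (s : ℝ) : RE M Γ h →* (MonoidAlgebra ℂ (QE M Γ h N))ˣ :=
  SemidirectProduct.lift (liftC (uu h hN s) (uu_comm h hN s)) (gm h N) (by
    intro m
    refine PresentedGroup.ext fun v => ?_
    show liftC (uu h hN s) (uu_comm h hN s)
        (pgAct (relC Γ) (relC_inv h) m (PresentedGroup.of v)) =
      gm h N m * liftC (uu h hN s) (uu_comm h hN s) (PresentedGroup.of v) * (gm h N m)⁻¹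
    rw [pgAct_of, liftC_of, liftC_of]
    apply Units.ext
    show up N (xv h N (m • v)) s =
      ((gm h N m : (MonoidAlgebra ℂ (QE M Γ h N))ˣ) : MonoidAlgebra ℂ (QE M Γ h N)) *
        up N (xv h N v) s *
        (((gm h N m)⁻¹ : (MonoidAlgebra ℂ (QE M Γ h N))ˣ) : MonoidAlgebra ℂ (QE M Γ h N))
    rw [conj_up, xv_smul])

theorem PhU_inl (hN : N ≠ 0) (s : ℝ) (v : V) :
    PhU h hN s (SemidirectProduct.inl (PresentedGroup.of v)) = uu h hN s v := by
  unfold PhU
  rw [SemidirectProduct.lift_inl, liftC_of]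

theorem PhU_inr (hN : N ≠ 0) (s : ℝ) (m : M) :
    PhU h hN s (SemidirectProduct.inr m) = gm h N m := by
  unfold PhU
  rw [SemidirectProduct.lift_inr]

theorem PhU_zero (hN : N ≠ 0) : PhU h hN 0 = (gm h N).comp SemidirectProduct.rightHom := by
  apply SemidirectProduct.hom_ext
  · refine PresentedGroup.ext fun v => ?_
    rw [MonoidHom.comp_apply, PhU_inl, MonoidHom.comp_apply, MonoidHom.comp_apply,
      SemidirectProduct.rightHom_inl, map_one]
    apply Units.ext
    exact up_zero hN _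
  · ext m : 1
    rw [MonoidHom.comp_apply, PhU_inr, MonoidHom.comp_apply, MonoidHom.comp_apply,
      SemidirectProduct.rightHom_inr]

theorem PhU_one (hN : N ≠ 0) : PhU h hN 1 = (Units.map (MonoidAlgebra.of ℂ (QE M Γ h N))).comp
    ((toUnits (G := QE M Γ h N)).toMonoidHom.comp (th h N)) := by
  apply SemidirectProduct.hom_ext
  · refine PresentedGroup.ext fun v => ?_
    rw [MonoidHom.comp_apply, PhU_inl]
    apply Units.ext
    show up N (xv h N v) 1 = MonoidAlgebra.of ℂ (QE M Γ h N) (th h N (SemidirectProduct.inl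
      (PresentedGroup.of v)))
    rw [up_one hN (xv_pow h v), xv]
    unfold th
    rw [SemidirectProduct.map_inl, toN_of]
  · ext m : 1
    rw [MonoidHom.comp_apply, PhU_inr]
    apply Units.ext
    show MonoidAlgebra.of ℂ (QE M Γ h N) (SemidirectProduct.inr m) =
      MonoidAlgebra.of ℂ (QE M Γ h N) (th h N (SemidirectProduct.inr m))
    unfold th
    rw [SemidirectProduct.map_inr, MonoidHom.id_apply]

/-- the path of homomorphisms -/
noncomputable def Ph (hN : N ≠ 0) (s : ℝ) : RE M Γ h →* MonoidAlgebra ℂ (QE M Γ h N) :=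
  (Units.coeHom _).comp (PhU h hN s)

theorem Ph_apply (hN : N ≠ 0) (s : ℝ) (g : RE M Γ h) :
    Ph h hN s g = ((PhU h hN s g : (MonoidAlgebra ℂ (QE M Γ h N))ˣ) :
      MonoidAlgebra ℂ (QE M Γ h N)) := rfl

theorem Ph_zero (hN : N ≠ 0) : Ph h hN 0 = (MonoidAlgebra.of ℂ (QE M Γ h N)).comp
    (SemidirectProduct.inr.comp SemidirectProduct.rightHom) := by
  unfold Ph
  rw [PhU_zero]
  rfl

theorem Ph_one (hN : N ≠ 0) : Ph h hN 1 = (MonoidAlgebra.of ℂ (QE M Γ h N)).comp (th h N) := by
  unfold Ph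
  rw [PhU_one]
  rfl

theorem pg_ind {R : Set (FreeGroup V)} {P : PresentedGroup R → Prop} (h1 : P 1)
    (h2 : ∀ v, P (PresentedGroup.of v)) (h3 : ∀ g g', P g → P g' → P (g * g'))
    (h4 : ∀ g, P g → P g⁻¹) (g : PresentedGroup R) : P g := by
  have hg : g ∈ Subgroup.closure (Set.range (PresentedGroup.of (rels := R))) := by
    rw [PresentedGroup.closure_range_of]
    trivial
  induction hg using Subgroup.closure_induction with
  | mem x hx => exact hx.elim fun v e => e ▸ h2 v
  | one => exact h1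
  | mul x y _ _ hx hy => exact h3 x y hx hy
  | inv x _ hx => exact h4 x hx

/-- induction over the elements of the semidirect product -/
theorem re_ind {P : RE M Γ h → Prop} (h1 : ∀ v, P (SemidirectProduct.inl (PresentedGroup.of v)))
    (h2 : ∀ m, P (SemidirectProduct.inr m)) (h3 : ∀ g g', P g → P g' → P (g * g'))
    (h4 : ∀ g, P g → P g⁻¹) (g : RE M Γ h) : P g := by
  rw [← SemidirectProduct.inl_left_mul_inr_right g]
  refine h3 _ _ ?_ (h2 _)
  have hone : P 1 := by
    have := h2 1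
    rwa [map_one] at this
  refine pg_ind (P := fun a => P (SemidirectProduct.inl a)) ?_ h1 ?_ ?_ _
  · rw [map_one]
    exact hone
  · intro a b ha hb
    rw [map_mul]
    exact h3 _ _ ha hb
  · intro a ha
    rw [map_inv]
    exact h4 _ ha

theorem uh_Ph (hN : N ≠ 0) (s : ℝ) : UH (Ph h hN s) := by
  refine re_ind h (P := fun g => adjE (Ph h hN s g) = Ph h hN s g⁻¹) ?_ ?_ ?_ ?_
  · intro v
    rw [Ph_apply, Ph_apply, map_inv, PhU_inl]
    exact adjE_up hN (xv_pow h v) (xv_adj h v) s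
  · intro m
    rw [Ph_apply, Ph_apply, map_inv, PhU_inr, gm_inv_val, gm_val, MonoidAlgebra.of_apply,
      adjE_single, star_one, MonoidAlgebra.of_apply, map_inv]
  · intro g g' hg hg'
    rw [map_mul, adjE_mul, hg, hg', _root_.mul_inv_rev, map_mul]
  · intro g hg
    rw [← hg, adjE_adjE, inv_inv]

theorem Rp.adjE {Q : Type*} [Group Q] {F F' : ℝ → MonoidAlgebra ℂ Q} (hF : Rp F F') :
    Rp (fun s => Art.adjE (F s)) (fun s => Art.adjE (F' s)) := by
  obtain ⟨I, _, c, c', V, h1, h2, h3, h4⟩ := hF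
  refine ⟨I, inferInstance, fun i s => star (c i s), fun i s => star (c' i s),
    fun i => Art.adjE (V i), ?_, ?_, ?_, ?_⟩
  · intro i s
    exact (h1 i s).star
  · intro i
    exact (h2 i).star
  · intro s
    show Art.adjE (F s) = _
    rw [h3, adjE_sum]
    exact Finset.sum_congr rfl fun i _ => adjE_smul _ _
  · intro s
    show Art.adjE (F' s) = _
    rw [h4, adjE_sum]
    exact Finset.sum_congr rfl fun i _ => adjE_smul _ _

theorem rp_Ph (hN : N ≠ 0) (g : RE M Γ h) :
    ∃ F' : ℝ → MonoidAlgebra ℂ (QE M Γ h N), Rp (fun s => Ph h hN s g) F' := by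
  refine re_ind h (P := fun g => ∃ F' : ℝ → MonoidAlgebra ℂ (QE M Γ h N),
    Rp (fun s => Ph h hN s g) F') ?_ ?_ ?_ ?_ g
  · intro v
    simp only [Ph_apply, PhU_inl]
    exact rp_up N (xv h N v)
  · intro m
    simp only [Ph_apply, PhU_inr]
    exact ⟨_, Rp.const _⟩
  · rintro g g' ⟨F, hF⟩ ⟨F', hF'⟩
    simp only [map_mul]
    exact ⟨_, hF.mul hF'⟩
  · rintro g ⟨F, hF⟩
    have h1 := hF.adjE
    have h2 : (fun s => Art.adjE (Ph h hN s g)) = fun s => Ph h hN s g⁻¹ := by
      funext s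
      exact uh_Ph h hN s g
    rw [h2] at h1
    exact ⟨_, h1⟩

theorem rp_mp {ι : Type} [Fintype ι] [DecidableEq ι] (hN : N ≠ 0)
    (A : Matrix ι ι (MonoidAlgebra ℂ (RE M Γ h))) :
    ∃ F' : ℝ → Matrix ι ι (MonoidAlgebra ℂ (QE M Γ h N)), Rp (fun s => mp (Ph h hN s) A) F' := by
  choose F hF using rp_Ph h hN
  have h1 : ∀ i j : ι, Rp (fun s => ∑ g ∈ (A i j).coeff.support,
      Matrix.singleLinearMap ℂ i j (((A i j).coeff g • (LinearMap.id :
        MonoidAlgebra ℂ (QE M Γ h N) →ₗ[ℂ] _)) (Ph h hN s g)))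
      (fun s => ∑ g ∈ (A i j).coeff.support,
      Matrix.singleLinearMap ℂ i j (((A i j).coeff g • (LinearMap.id :
        MonoidAlgebra ℂ (QE M Γ h N) →ₗ[ℂ] _)) (F g s))) := by
    intro i j
    exact Rp.sum _ fun g _ => ((hF g).map _).map _
  have h2 : ∀ i : ι, Rp _ _ := fun i => Rp.sum Finset.univ fun j _ => h1 i j
  have h3 := Rp.sum Finset.univ fun i _ => h2 i
  have h4 : (fun s => mp (Ph h hN s) A) = fun s => ∑ i, ∑ j, ∑ g ∈ (A i j).coeff.support,
      Matrix.singleLinearMap ℂ i j (((A i j).coeff g • (LinearMap.id :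
        MonoidAlgebra ℂ (QE M Γ h N) →ₗ[ℂ] _)) (Ph h hN s g)) := by
    funext s
    rw [Matrix.matrix_eq_sum_single (mp (Ph h hN s) A)]
    refine Finset.sum_congr rfl fun i _ => Finset.sum_congr rfl fun j _ => ?_
    rw [mp_apply, MonoidAlgebra.lift_apply, Finsupp.sum]
    show Matrix.singleLinearMap ℂ i j _ = _
    rw [map_sum]
    rfl
  rw [h4]
  exact ⟨_, h3⟩

end Pool.Agent.H748.Hom
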