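import Pool.Agent.H748.Hom.Push
import Pool.Agent.H748.Hom.Raag

/-!
# The class of groups with `L²`-signature = signature
-/

set_option autoImplicit false
set_option linter.unusedSectionVars false

namespace Pool.Agent.H748.Hom

open Matrix Polynomial Filter Pool.Agent.H748.Sig Pool.Agent.H748.Art

variable {G H Q : Type*} [Group G] [Group H] [Group Q]
variable {ι : Type} [Fintype ι] [DecidableEq ι]

theorem uh_of : UH (MonoidAlgebra.of ℂ Q) := by
  intro g
  show adjE (MonoidAlgebra.single g 1) = MonoidAlgebra.single g⁻¹ 1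
  rw [adjE_single, star_one]

theorem mp_of_comp (f : G →* H) (A : Matrix ι ι (MonoidAlgebra ℂ G)) :
    mp ((MonoidAlgebra.of ℂ H).comp f) A = pM f A := by
  ext i j : 1
  rw [mp_apply, MonoidAlgebra.lift_apply, pM_apply, pm_apply]
  refine Finsupp.sum_congr fun g _ => ?_
  show _ • MonoidAlgebra.single (f g) (1 : ℂ) = _
  rw [MonoidAlgebra.smul_single, smul_eq_mul, mul_one]

theorem pM_id (A : Matrix ι ι (MonoidAlgebra ℂ G)) : pM (id : G → G) A = A := by
  ext i j : 1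
  rw [pM_apply, pm_apply]
  exact (eq_sum_single (A i j)).symm

theorem mp_of (A : Matrix ι ι (MonoidAlgebra ℂ Q)) : mp (MonoidAlgebra.of ℂ Q) A = A := by
  have h1 := mp_of_comp (MonoidHom.id Q) A
  rw [MonoidHom.comp_id] at h1
  rw [h1]
  exact pM_id A

theorem pM_comp {K : Type*} [Group K] (f : G → H) (g : H → K)
    (A : Matrix ι ι (MonoidAlgebra ℂ G)) : pM (g ∘ f) A = pM g (pM f A) := by
  ext i j : 1
  rw [pM_apply, pM_apply, pM_apply, eq_sum_single (A i j), map_sum, map_sum, map_sum]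
  refine Finset.sum_congr rfl fun x _ => ?_
  rw [pm_single, pm_single, pm_single]
  rfl

theorem aeval_mp (Φ : G →* MonoidAlgebra ℂ Q) (A : Matrix ι ι (MonoidAlgebra ℂ G)) (P : ℝ[X]) :
    aeval (mp Φ A) P = mp Φ (aeval A P) :=
  aeval_algHom_apply ((mp Φ).restrictScalars ℝ) A P

theorem PD.adj_A {b S T p s : Matrix ι ι (MonoidAlgebra ℂ G)} (h : PD b S T p s) :
    adj (b + adj b + S) = b + adj b + S := by
  have hadd : ∀ X Y : Matrix ι ι (MonoidAlgebra ℂ G), adj (X + Y) = adj X + adj Y := by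
    intro X Y
    ext i j : 1
    exact adjE_add _ _
  rw [hadd, hadd, adj_adj, h.SS]
  abel

/-- bounds for the data of a complex -/
def Bdd (κ : ℝ) (S T p s : Matrix ι ι (MonoidAlgebra ℂ G)) : Prop :=
  L1 S ≤ κ ∧ L1 T ≤ κ ∧ L1 p ≤ κ ∧ L1 s ≤ κ

theorem exists_bdd (S T p s : Matrix ι ι (MonoidAlgebra ℂ G)) : ∃ κ : ℝ, 0 ≤ κ ∧ Bdd κ S T p s := by
  have h1 := L1_nonneg S
  have h2 := L1_nonneg T
  have h3 := L1_nonneg p
  have h4 := L1_nonneg s
  exact ⟨L1 S + L1 T + L1 p + L1 s, by linarith, by linarith, by linarith, by linarith,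
    by linarith⟩

theorem PD.tail {b S T p s : Matrix ι ι (MonoidAlgebra ℂ G)} (h : PD b S T p s) {κ c : ℝ}
    (hκ : 0 ≤ κ) (hb : Bdd κ S T p s) (hc : 1 < c) (hA : L1 (b + adj b + S) ≤ c) (k m : ℕ) :
    ‖tau (aeval (b + adj b + S) (Sig.Q c (k + m))) - tau (aeval (b + adj b + S) (Sig.Q c k))‖ ≤
      Fintype.card ι * eta (gp κ) c k := by
  refine tau_tail h.adj_A (gp_pos hκ) ((gp_le hκ).trans_lt hc) ?_ ?_ k m
  · intro v
    have h1 := h.gap hκ hb.1 hb.2.1 hb.2.2.1 hb.2.2.2 (uh_of (Q := G)) v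
    rwa [mp_of] at h1
  · have h1 := bd_mp (uh_of (Q := G)) (b + adj b + S)
    rw [mp_of] at h1
    exact h1.mono hA

/-- the `L²`-signature of Poincaré complexes over `ℂ[G]` is the signature -/
def L2S (G : Type) [Group G] : Prop :=
  ∀ (ι : Type) [Fintype ι] [DecidableEq ι] (b S T p s : Matrix ι ι (MonoidAlgebra ℂ G)),
    PD b S T p s → ∀ c : ℝ, 1 < c → L1 (b + adj b + S) ≤ c →
      Tendsto (fun k => tau (aeval (b + adj b + S) (Sig.Q c k))) atTop
        (nhds ((sig (aug (b + adj b + S)) : ℤ) : ℂ))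

theorem L2S.quant {G : Type} [Group G] (hG : L2S G) {b S T p s : Matrix ι ι (MonoidAlgebra ℂ G)}
    (h : PD b S T p s) {κ c : ℝ} (hκ : 0 ≤ κ) (hb : Bdd κ S T p s) (hc : 1 < c)
    (hA : L1 (b + adj b + S) ≤ c) (k : ℕ) :
    ‖tau (aeval (b + adj b + S) (Sig.Q c k)) - ((sig (aug (b + adj b + S)) : ℤ) : ℂ)‖ ≤
      Fintype.card ι * eta (gp κ) c k := by
  have h1 := hG ι b S T p s h c hc hA
  have h2 := (h1.comp (tendsto_add_atTop_nat k)).sub_const
    (tau (aeval (b + adj b + S) (Sig.Q c k)))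
  have h3 := h2.norm
  rw [norm_sub_rev]
  refine le_of_tendsto' h3 fun m => ?_
  show ‖tau (aeval (b + adj b + S) (Sig.Q c (m + k))) - _‖ ≤ _
  rw [add_comm m k]
  exact h.tail hκ hb hc hA k m

theorem tendsto_of_quant {x : ℕ → ℂ} {L : ℂ} {κ c C : ℝ} (hκ : 0 ≤ κ) (hc : 1 < c)
    (h : ∀ k, ‖x k - L‖ ≤ C * eta (gp κ) c k) : Tendsto x atTop (nhds L) := by
  rw [tendsto_iff_norm_sub_tendsto_zero]
  refine squeeze_zero (fun _ => norm_nonneg _) h ?_
  have := (tendsto_eta (gp_pos hκ) ((gp_le hκ).trans_lt hc)).const_mul C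
  rwa [mul_zero] at this

section raag

variable {V M : Type} [Group M] [MulAction M V] {Γ : SimpleGraph V}
variable (h : ∀ (m : M) (s t : V), Γ.Adj s t → Γ.Adj (m • s) (m • t))

/-- **Comparison.** The `L²`-signatures over `A_Γ ⋊ M` and over `M` agree. -/
theorem compare {b S T p s : Matrix ι ι (MonoidAlgebra ℂ (RE M Γ h))} (hP : PD b S T p s)
    {κ c : ℝ} (hκ : 0 ≤ κ) (hb : Bdd κ S T p s) (hc : 1 < c) (hA : L1 (b + adj b + S) ≤ c)
    (k : ℕ) :
    ‖tau (aeval (b + adj b + S) (Sig.Q c k)) -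
      tau (aeval (pM (SemidirectProduct.rightHom : RE M Γ h →* M) (b + adj b + S))
        (Sig.Q c k))‖ ≤ 2 * (Fintype.card ι * eta (gp κ) c k) := by
  classical
  set A := b + adj b + S with hAdef
  set P := Sig.Q c k with hPdef
  -- the quotient
  set F : Finset (RE M Γ h) := (Finset.univ.biUnion fun i => ((aeval A P) i i).coeff.support).erase 1
    with hF
  obtain ⟨N, hN, hN2⟩ := exists_th_ne h F fun g hg => Finset.ne_of_mem_erase hg
  have hN0 : N ≠ 0 := hN.ne'
  have hA1 : mp (Ph h hN0 1) A = pM (th h N) A := by rw [Ph_one, mp_of_comp]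
  have e1 : tau (aeval (mp (Ph h hN0 1) A) P) = tau (aeval A P) := by
    rw [aeval_mp, Ph_one, mp_of_comp]
    refine tau_pM ?_ (map_one _)
    intro i g hg hg1
    by_contra hne
    refine hN2 g ?_ hg1
    rw [hF, Finset.mem_erase]
    exact ⟨hne, Finset.mem_biUnion.2 ⟨i, Finset.mem_univ i, Finsupp.mem_support_iff.2 hg⟩⟩
  have e0 : tau (aeval (mp (Ph h hN0 0) A) P) =
      tau (aeval (pM (SemidirectProduct.rightHom : RE M Γ h →* M) A) P) := by
    have e2 : aeval (pM (SemidirectProduct.rightHom : RE M Γ h →* M) A) P =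
        pM (SemidirectProduct.rightHom : RE M Γ h →* M) (aeval A P) := by
      rw [← mp_of_comp, aeval_mp, mp_of_comp]
    rw [aeval_mp, Ph_zero, mp_of_comp, e2]
    have e3 : pM (SemidirectProduct.inr.comp SemidirectProduct.rightHom :
        RE M Γ h →* QE M Γ h N) (aeval A P) =
        pM (SemidirectProduct.inr : M →* QE M Γ h N)
          (pM (SemidirectProduct.rightHom : RE M Γ h →* M) (aeval A P)) :=
      pM_comp (SemidirectProduct.rightHom : RE M Γ h →* M)
        (SemidirectProduct.inr : M →* QE M Γ h N) _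
    rw [e3]
    refine tau_pM ?_ (map_one _)
    intro i g _ hg1
    exact SemidirectProduct.inr_injective (by rw [hg1, map_one])
  obtain ⟨F', hF'⟩ := rp_mp h hN0 A
  have h1 := homotopy hF' (fun s => by rw [← mp_adj (uh_Ph h hN0 s), hP.adj_A])
    (gp_pos hκ) ((gp_le hκ).trans_lt hc)
    (fun s v => hP.gap hκ hb.1 hb.2.1 hb.2.2.1 hb.2.2.2 (uh_Ph h hN0 s) v)
    (fun s => (bd_mp (uh_Ph h hN0 s) A).mono hA) k
  rw [← hPdef, e1, e0] at h1
  exact h1

/-- the class is closed under extensions by right-angled Artin groups -/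
theorem L2S.raag (hM : L2S M) : L2S (RE M Γ h) := by
  intro ι _ _ b S T p s hP c hc hA
  obtain ⟨κ, hκ, hb⟩ := exists_bdd S T p s
  set r : RE M Γ h →* M := SemidirectProduct.rightHom with hr
  have hm : ∀ X Y : Matrix ι ι (MonoidAlgebra ℂ (RE M Γ h)), pM r (X * Y) = pM r X * pM r Y := by
    intro X Y
    rw [← mp_of_comp, map_mul, mp_of_comp, mp_of_comp]
  have hadj : ∀ X : Matrix ι ι (MonoidAlgebra ℂ (RE M Γ h)), pM r (adj X) = adj (pM r X) := by
    intro X
    rw [← mp_of_comp r X, ← mp_adj (Φ := (MonoidAlgebra.of ℂ M).comp r)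
      (fun g => by
        show adjE (MonoidAlgebra.single (r g) 1) = MonoidAlgebra.single (r g⁻¹) 1
        rw [adjE_single, star_one, map_inv]), mp_of_comp]
  have hadd : pM r (b + adj b + S) = pM r b + adj (pM r b) + pM r S := by
    rw [map_add, map_add, hadj]
  have hP' : PD (pM r b) (pM r S) (pM r T) (pM r p) (pM r s) := by
    constructor
    · rw [← hm, hP.bb, map_zero]
    · rw [← hadj, hP.SS]
    · rw [← hadj, ← hm, ← hm, ← map_add, hP.bS, map_zero]
    · rw [← hadj, ← hm, ← hm, ← map_add, hP.bT, map_zero]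
    · rw [← hm, ← hm, ← hm, ← map_add, ← map_add, hP.hp, pM_one (map_one r)]
    · rw [← hadj, ← hm, ← hm, ← hm, ← map_add, ← map_add, hP.hs, pM_one (map_one r)]
  have hA' : L1 (pM r b + adj (pM r b) + pM r S) ≤ c := by
    rw [← hadd]
    exact (L1_pM _ _).trans hA
  have hb' : Bdd κ (pM r S) (pM r T) (pM r p) (pM r s) :=
    ⟨(L1_pM _ _).trans hb.1, (L1_pM _ _).trans hb.2.1, (L1_pM _ _).trans hb.2.2.1,
      (L1_pM _ _).trans hb.2.2.2⟩
  refine tendsto_of_quant (κ := κ) (c := c) (C := 3 * Fintype.card ι) hκ hc fun k => ?_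
  have h1 := compare h hP hκ hb hc hA k
  have h2 := hM.quant hP' hκ hb' hc hA' k
  rw [← hadd, aug_pM] at h2
  calc _ ≤ ‖tau (aeval (b + adj b + S) (Sig.Q c k)) -
      tau (aeval (pM r (b + adj b + S)) (Sig.Q c k))‖ +
      ‖tau (aeval (pM r (b + adj b + S)) (Sig.Q c k)) -
        ((sig (aug (b + adj b + S)) : ℤ) : ℂ)‖ := norm_sub_le_norm_sub_add_norm_sub _ _ _
    _ ≤ 2 * (Fintype.card ι * eta (gp κ) c k) + Fintype.card ι * eta (gp κ) c k :=
        add_le_add h1 h2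
    _ = _ := by ring

end raag

/-- the class is closed under limits -/
theorem L2S.limit {G : Type} [Group G] (hG : ∀ F : Finset G, ∃ (H : Type) (_ : Group H)
    (f : G → H), L2S H ∧ Set.InjOn f F ∧ ∀ x ∈ F, ∀ y ∈ F, f (x * y) = f x * f y) : L2S G := by
  classical
  intro ι _ _ b S T p s hP c hc hA
  obtain ⟨κ, hκ, hb⟩ := exists_bdd S T p s
  obtain ⟨W1, hW1⟩ := exists_msup b
  obtain ⟨W2, hW2⟩ := exists_msup (adj b)
  obtain ⟨W3, hW3⟩ := exists_msup S
  obtain ⟨W4, hW4⟩ := exists_msup T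
  obtain ⟨W5, hW5⟩ := exists_msup p
  obtain ⟨W6, hW6⟩ := exists_msup s
  set W : Finset G := W1 ∪ W2 ∪ W3 ∪ W4 ∪ W5 ∪ W6 with hW
  have hmono : ∀ {W' : Finset G} {X : Matrix ι ι (MonoidAlgebra ℂ G)}, W' ⊆ W →
      MSup (W' : Set G) 1 X → MSup (W : Set G) 1 X := by
    intro W' X hs hX i j g hg
    obtain ⟨l, h1, h2, h3⟩ := hX i j g hg
    exact ⟨l, h1, fun x hx => Finset.mem_coe.2 (hs (Finset.mem_coe.1 (h2 x hx))), h3⟩
  have m1 := hmono (W' := W1) (fun x hx => by simp [hW, hx]) hW1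
  have m2 := hmono (W' := W2) (fun x hx => by simp [hW, hx]) hW2
  have m3 := hmono (W' := W3) (fun x hx => by simp [hW, hx]) hW3
  have m4 := hmono (W' := W4) (fun x hx => by simp [hW, hx]) hW4
  have m5 := hmono (W' := W5) (fun x hx => by simp [hW, hx]) hW5
  have m6 := hmono (W' := W6) (fun x hx => by simp [hW, hx]) hW6
  have mA : MSup (W : Set G) 1 (b + adj b + S) := fun i j =>
    ((m1 i j).add (m2 i j)).add (m3 i j)
  refine tendsto_of_quant (κ := κ) (c := c) (C := Fintype.card ι) hκ hc fun k => ?_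
  set K : ℕ := 3 ^ k with hK
  have hK1 : 1 ≤ K := Nat.one_le_pow _ _ (by norm_num)
  obtain ⟨H, _, f, hH, hinj, hmul⟩ := hG (finite_wd W.finite_toSet K).toFinset
  have hf : Good f (W : Set G) K := by
    refine ⟨fun g hg g' hg' => hmul g ?_ g' ?_, ?_⟩
    · exact (Set.Finite.mem_toFinset _).2 hg
    · exact (Set.Finite.mem_toFinset _).2 hg'
    · rwa [Set.Finite.coe_toFinset] at hinj
  have hP' := hP.push hf hK1 m1 m2 m3 m4 m5 m6
  have hmonoK : ∀ {X : Matrix ι ι (MonoidAlgebra ℂ G)}, MSup (W : Set G) 1 X →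
      MSup (W : Set G) K X := fun hX i j => (hX i j).mono hK1
  have hadd : pM f (b + adj b + S) = pM f b + adj (pM f b) + pM f S := by
    rw [map_add, map_add, pM_adj hf (hmonoK m1) (hmonoK m2)]
  have hA' : L1 (pM f b + adj (pM f b) + pM f S) ≤ c := by
    rw [← hadd]
    exact (L1_pM _ _).trans hA
  have hb' : Bdd κ (pM f S) (pM f T) (pM f p) (pM f s) :=
    ⟨(L1_pM _ _).trans hb.1, (L1_pM _ _).trans hb.2.1, (L1_pM _ _).trans hb.2.2.1,
      (L1_pM _ _).trans hb.2.2.2⟩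
  have h2 := hH.quant hP' hκ hb' hc hA' k
  rw [← hadd, aug_pM, ← pM_aeval hf hK1 mA (natDegree_Q c k),
    hf.tau (mA.aeval (natDegree_Q c k))] at h2
  exact h2

end Pool.Agent.H748.Hom
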