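import Pool.Agent.H748.Sig.Newton

/-!
# The Newton-Schulz iteration for symmetric operators on pre-Hilbert spaces
-/

set_option autoImplicit false
set_option linter.unusedSectionVars false

namespace Pool.Agent.H748.Hom

open Filter
open scoped InnerProductSpace

variable {V : Type*} [NormedAddCommGroup V] [InnerProductSpace ℂ V]

/-- symmetric operators -/
def Sym (X : Module.End ℂ V) : Prop := ∀ v w : V, ⟪X v, w⟫_ℂ = ⟪v, X w⟫_ℂ

/-- bounded operators -/
def Bd (X : Module.End ℂ V) (K : ℝ) : Prop := ∀ v : V, ‖X v‖ ≤ K * ‖v‖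

theorem Bd.mul {X Y : Module.End ℂ V} {K L : ℝ} (hK : 0 ≤ K) (hX : Bd X K) (hY : Bd Y L) :
    Bd (X * Y) (K * L) := by
  intro v
  calc ‖X (Y v)‖ ≤ K * ‖Y v‖ := hX _
    _ ≤ K * (L * ‖v‖) := mul_le_mul_of_nonneg_left (hY v) hK
    _ = _ := by ring

theorem Bd.add {X Y : Module.End ℂ V} {K L : ℝ} (hX : Bd X K) (hY : Bd Y L) :
    Bd (X + Y) (K + L) := by
  intro v
  calc ‖X v + Y v‖ ≤ ‖X v‖ + ‖Y v‖ := norm_add_le _ _
    _ ≤ K * ‖v‖ + L * ‖v‖ := add_le_add (hX v) (hY v)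
    _ = _ := by ring

theorem Bd.smul {X : Module.End ℂ V} {K : ℝ} (c : ℂ) (hX : Bd X K) : Bd (c • X) (‖c‖ * K) := by
  intro v
  rw [LinearMap.smul_apply, norm_smul, mul_assoc]
  exact mul_le_mul_of_nonneg_left (hX v) (norm_nonneg c)

theorem Bd.mono {X : Module.End ℂ V} {K L : ℝ} (h : K ≤ L) (hX : Bd X K) : Bd X L := fun v =>
  (hX v).trans (mul_le_mul_of_nonneg_right h (norm_nonneg v))

theorem Bd.one : Bd (1 : Module.End ℂ V) 1 := by
  intro v
  rw [Module.End.one_apply, one_mul]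

theorem Sym.mul_self {X : Module.End ℂ V} (hX : Sym X) (v : V) :
    ⟪v, X (X v)⟫_ℂ = ((‖X v‖ ^ 2 : ℝ) : ℂ) := by
  rw [← hX, inner_self_eq_norm_sq_to_K]
  push_cast
  rfl

/-- positive operators are bounded by their numerical range -/
theorem bd_of_numerical {Y : Module.End ℂ V} (hY : Sym Y) {q : ℝ} (hq : 0 < q)
    (h0 : ∀ v : V, 0 ≤ (⟪v, Y v⟫_ℂ).re) (h1 : ∀ v : V, (⟪v, Y v⟫_ℂ).re ≤ q * ‖v‖ ^ 2) : Bd Y q := by
  intro v
  have h2 := h0 (((q : ℂ) • v) - Y v)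
  have h3 := h1 (Y v)
  have e1 : (⟪((q : ℂ) • v) - Y v, Y (((q : ℂ) • v) - Y v)⟫_ℂ).re =
      q ^ 2 * (⟪v, Y v⟫_ℂ).re - 2 * q * ‖Y v‖ ^ 2 + (⟪Y v, Y (Y v)⟫_ℂ).re := by
    rw [map_sub, map_smul, inner_sub_left, inner_sub_right, inner_sub_right, inner_smul_left,
      inner_smul_right, inner_smul_left, inner_smul_right, Complex.conj_ofReal, hY.mul_self,
      inner_self_eq_norm_sq_to_K (𝕜 := ℂ) (Y v)]
    simp only [Complex.sub_re, Complex.re_ofReal_mul, Complex.ofReal_re]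
    have e2 : ((‖Y v‖ : ℂ) ^ 2).re = ‖Y v‖ ^ 2 := by
      rw [← Complex.ofReal_pow, Complex.ofReal_re]
    simp only [Complex.coe_algebraMap, e2]
    ring
  rw [e1] at h2
  have h4 := h1 v
  have h5 : ‖Y v‖ ^ 2 ≤ (q * ‖v‖) ^ 2 := by
    have h6 : q * ‖Y v‖ ^ 2 ≤ q * (q * ‖v‖) ^ 2 := by nlinarith
    exact le_of_mul_le_mul_left h6 hq
  exact le_of_sq_le_sq h5 (mul_nonneg hq.le (norm_nonneg v))

/-- the Newton-Schulz iteration -/
noncomputable def ns (X : Module.End ℂ V) (c : ℝ) : ℕ → Module.End ℂ V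
  | 0 => ((c⁻¹ : ℝ) : ℂ) • X
  | k + 1 => (2⁻¹ : ℂ) • (ns X c k * (3 - ns X c k ^ 2))

theorem Sym.pow {X : Module.End ℂ V} (hX : Sym X) (n : ℕ) : Sym (X ^ n) := by
  induction n with
  | zero => intro v w; rfl
  | succ n ih =>
    intro v w
    have h1 : (X ^ (n + 1)) v = (X ^ n) (X v) := by rw [pow_succ]; rfl
    have h2 : (X ^ (n + 1)) w = X ((X ^ n) w) := by rw [pow_succ']; rfl
    rw [h1, h2, ih, hX]

theorem end_three (v : V) : (3 : Module.End ℂ V) v = (3 : ℂ) • v := by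
  have h1 : (3 : Module.End ℂ V) = (3 : ℂ) • (1 : Module.End ℂ V) := by
    rw [show (3 : ℂ) = ((3 : ℕ) : ℂ) by norm_num, Nat.cast_smul_eq_nsmul, nsmul_one]
    norm_num
  rw [h1]
  rfl

theorem sym_ns {X : Module.End ℂ V} (hX : Sym X) (c : ℝ) (k : ℕ) : Sym (ns X c k) := by
  induction k with
  | zero =>
    intro v w
    rw [ns, LinearMap.smul_apply, LinearMap.smul_apply, inner_smul_left, inner_smul_right, hX,
      Complex.conj_ofReal]
  | succ k ih =>
    intro v w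
    have h1 : ns X c (k + 1) = (3 / 2 : ℂ) • ns X c k - (2⁻¹ : ℂ) • ns X c k ^ 3 := by
      rw [ns]
      ext u
      simp only [LinearMap.smul_apply, Module.End.mul_apply, LinearMap.sub_apply, map_sub,
        end_three, map_smul, smul_sub, smul_smul]
      congr 1
      norm_num
    have h2 := ih.pow 3
    rw [h1, LinearMap.sub_apply, LinearMap.sub_apply, inner_sub_left, inner_sub_right,
      LinearMap.smul_apply, LinearMap.smul_apply, LinearMap.smul_apply, LinearMap.smul_apply,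
      inner_smul_left, inner_smul_left, inner_smul_right, inner_smul_right, ih, h2]
    congr 1
    · congr 1
      rw [show (3 / 2 : ℂ) = ((3 / 2 : ℝ) : ℂ) by push_cast; ring, Complex.conj_ofReal]
    · congr 1
      rw [show (2⁻¹ : ℂ) = ((2⁻¹ : ℝ) : ℂ) by push_cast; ring, Complex.conj_ofReal]

/-- the defect of the iteration -/
noncomputable def yk (X : Module.End ℂ V) (c : ℝ) (k : ℕ) : Module.End ℂ V := 1 - ns X c k ^ 2

theorem yk_succ (X : Module.End ℂ V) (c : ℝ) (k : ℕ) :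
    yk X c (k + 1) = (4⁻¹ : ℂ) • (yk X c k ^ 2 * (3 + yk X c k)) := by
  have h1 : ns X c (k + 1) ^ 2 = (4⁻¹ : ℂ) • (ns X c k * (3 - ns X c k ^ 2)) ^ 2 := by
    rw [ns, smul_pow]
    norm_num
  have h2 : (4 : ℂ) • (1 : Module.End ℂ V) = 4 := by
    rw [show (4 : ℂ) = ((4 : ℕ) : ℂ) by norm_num, Nat.cast_smul_eq_nsmul, nsmul_one]
    norm_num
  set N := ns X c k with hN
  have h3 : Commute N (3 - N ^ 2) := by
    apply Commute.sub_right
    · exact (Nat.cast_commute 3 N).symm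
    · exact (Commute.refl N).pow_right 2
  have h4 : (N * (3 - N ^ 2)) ^ 2 = N ^ 2 * (3 - N ^ 2) ^ 2 := h3.mul_pow 2
  have h5 : (4 : ℂ) • (1 - (4⁻¹ : ℂ) • (N ^ 2 * (3 - N ^ 2) ^ 2)) =
      (1 - N ^ 2) ^ 2 * (3 + (1 - N ^ 2)) := by
    rw [smul_sub, smul_smul, mul_inv_cancel₀ (by norm_num), one_smul, h2]
    have h6 : ∀ M : Module.End ℂ V, 4 - M * (3 - M) ^ 2 = (1 - M) ^ 2 * (3 + (1 - M)) := by
      intro M
      have h40 : (4 : ℤ) • (1 : Module.End ℂ V) = 4 := by simp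
      noncomm_ring
      rw [h40]
      abel
    exact h6 (N ^ 2)
  have h7 : yk X c (k + 1) = 1 - (4⁻¹ : ℂ) • (N ^ 2 * (3 - N ^ 2) ^ 2) := by
    rw [yk, h1, h4]
  rw [h7]
  have h8 := congrArg (fun Z : Module.End ℂ V => (4⁻¹ : ℂ) • Z) h5
  simp only [smul_smul] at h8
  rw [inv_mul_cancel₀ (by norm_num), one_smul] at h8
  exact h8

theorem bd_yk {X : Module.End ℂ V} (hX : Sym X) {a c : ℝ} (ha : 0 < a) (hac : a < c)
    (h1 : ∀ v : V, a * ‖v‖ ≤ ‖X v‖) (h2 : Bd X c) (k : ℕ) :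
    Bd (yk X c k) ((1 - a ^ 2 / c ^ 2) ^ (2 ^ k)) := by
  have hc : 0 < c := ha.trans hac
  have hq : 0 < 1 - a ^ 2 / c ^ 2 := by
    rw [sub_pos, div_lt_one (by positivity)]
    exact pow_lt_pow_left₀ hac ha.le (by norm_num)
  have hq1 : 1 - a ^ 2 / c ^ 2 ≤ 1 := by
    have : 0 ≤ a ^ 2 / c ^ 2 := by positivity
    linarith
  induction k with
  | zero =>
    rw [pow_zero, pow_one]
    have hns := sym_ns hX c 0
    have hval : ∀ v : V, (⟪v, yk X c 0 v⟫_ℂ).re = ‖v‖ ^ 2 - ‖X v‖ ^ 2 / c ^ 2 := by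
      intro v
      have e1 : yk X c 0 v = v - ns X c 0 (ns X c 0 v) := by
        rw [yk, LinearMap.sub_apply, pow_two]
        rfl
      rw [e1, inner_sub_right, hns.mul_self, inner_self_eq_norm_sq_to_K, Complex.sub_re,
        Complex.ofReal_re]
      have e2 : (((‖v‖ : ℝ) : ℂ) ^ 2).re = ‖v‖ ^ 2 := by
        rw [← Complex.ofReal_pow, Complex.ofReal_re]
      have e3 : ‖ns X c 0 v‖ ^ 2 = ‖X v‖ ^ 2 / c ^ 2 := by
        rw [ns, LinearMap.smul_apply, norm_smul, mul_pow, Complex.norm_real, Real.norm_eq_abs,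
          sq_abs, inv_pow, mul_comm, div_eq_mul_inv]
      rw [e3]
      simp only [Complex.coe_algebraMap, e2]
    refine bd_of_numerical ?_ hq ?_ ?_
    · intro v w
      have hp := hns.pow 2 v w
      rw [yk, LinearMap.sub_apply, LinearMap.sub_apply, inner_sub_left, inner_sub_right, hp]
      rfl
    · intro v
      rw [hval, sub_nonneg, div_le_iff₀ (by positivity)]
      calc ‖X v‖ ^ 2 ≤ (c * ‖v‖) ^ 2 := pow_le_pow_left₀ (norm_nonneg _) (h2 v) 2
        _ = _ := by ring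
    · intro v
      rw [hval]
      have h3 : (a * ‖v‖) ^ 2 ≤ ‖X v‖ ^ 2 := pow_le_pow_left₀ (by positivity) (h1 v) 2
      have h4 : a ^ 2 / c ^ 2 * ‖v‖ ^ 2 ≤ ‖X v‖ ^ 2 / c ^ 2 := by
        rw [div_mul_eq_mul_div]
        apply div_le_div_of_nonneg_right _ (by positivity)
        rw [← mul_pow]
        exact h3
      linarith
  | succ k ih =>
    set r := (1 - a ^ 2 / c ^ 2) ^ (2 ^ k) with hr
    have hr0 : 0 ≤ r := pow_nonneg hq.le _
    have hr1 : r ≤ 1 := pow_le_one₀ hq.le hq1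
    have hr2 : (1 - a ^ 2 / c ^ 2) ^ (2 ^ (k + 1)) = r ^ 2 := by
      rw [hr, ← pow_mul]
      ring_nf
    rw [yk_succ, hr2]
    have h3 : Bd (3 + yk X c k) (3 + r) := by
      refine Bd.add ?_ ih
      intro v
      rw [end_three, norm_smul]
      norm_num
    have h4 : Bd (yk X c k ^ 2) (r ^ 2) := by
      rw [pow_two, pow_two]
      exact Bd.mul hr0 ih ih
    have h5 := (Bd.mul (by positivity) h4 h3).smul (4⁻¹ : ℂ)
    refine h5.mono ?_
    rw [norm_inv]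
    have h6 : ‖(4 : ℂ)‖ = 4 := by norm_num
    rw [h6]
    nlinarith [pow_nonneg hr0 2]

theorem bd_ns {X : Module.End ℂ V} (hX : Sym X) {a c : ℝ} (ha : 0 < a) (hac : a < c)
    (h1 : ∀ v : V, a * ‖v‖ ≤ ‖X v‖) (h2 : Bd X c) (k : ℕ) : Bd (ns X c k) 2 := by
  have hc : 0 < c := ha.trans hac
  have hq : 0 < 1 - a ^ 2 / c ^ 2 := by
    rw [sub_pos, div_lt_one (by positivity)]
    exact pow_lt_pow_left₀ hac ha.le (by norm_num)
  have hq1 : 1 - a ^ 2 / c ^ 2 ≤ 1 := by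
    have : 0 ≤ a ^ 2 / c ^ 2 := by positivity
    linarith
  intro v
  have h3 := bd_yk hX ha hac h1 h2 k v
  have h4 : (1 - a ^ 2 / c ^ 2) ^ (2 ^ k) ≤ 1 := pow_le_one₀ hq.le hq1
  have hns := sym_ns hX c k
  have e1 : yk X c k v = v - ns X c k (ns X c k v) := by
    rw [yk, LinearMap.sub_apply, pow_two]
    rfl
  have e2 : ns X c k (ns X c k v) = v - yk X c k v := by rw [e1]; abel
  have h5 : ‖ns X c k v‖ ^ 2 ≤ ‖v‖ * ‖v - yk X c k v‖ := by
    have h6 : ‖⟪v, ns X c k (ns X c k v)⟫_ℂ‖ ≤ ‖v‖ * ‖ns X c k (ns X c k v)‖ :=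
      norm_inner_le_norm _ _
    rw [hns.mul_self, Complex.norm_real, Real.norm_eq_abs, abs_of_nonneg (sq_nonneg _), e2] at h6
    exact h6
  have h6 : ‖v - yk X c k v‖ ≤ 2 * ‖v‖ := by
    calc _ ≤ ‖v‖ + ‖yk X c k v‖ := norm_sub_le _ _
      _ ≤ ‖v‖ + 1 * ‖v‖ := by
          have h7 := h3.trans (mul_le_mul_of_nonneg_right h4 (norm_nonneg v))
          linarith
      _ = _ := by ring
  have h7 : ‖ns X c k v‖ ^ 2 ≤ (2 * ‖v‖) ^ 2 := by
    have h8 := mul_le_mul_of_nonneg_left h6 (norm_nonneg v)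
    nlinarith [norm_nonneg v, sq_nonneg ‖v‖]
  exact le_of_sq_le_sq h7 (by positivity)

theorem ns_succ_sub (X : Module.End ℂ V) (c : ℝ) (k : ℕ) :
    ns X c (k + 1) - ns X c k = (2⁻¹ : ℂ) • (ns X c k * yk X c k) := by
  rw [ns, yk]
  ext v
  simp only [LinearMap.sub_apply, LinearMap.smul_apply, Module.End.mul_apply, map_sub, end_three,
    map_smul, smul_sub, smul_smul, Module.End.one_apply]
  have h1 : (2⁻¹ : ℂ) * 3 = 1 + 2⁻¹ := by norm_num
  rw [h1, add_smul, one_smul]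
  abel

/-- the tail of the iteration -/
theorem bd_ns_sub {X : Module.End ℂ V} (hX : Sym X) {a c : ℝ} (ha : 0 < a) (hac : a < c)
    (h1 : ∀ v : V, a * ‖v‖ ≤ ‖X v‖) (h2 : Bd X c) (k m : ℕ) :
    Bd (ns X c (k + m) - ns X c k)
      ((1 - a ^ 2 / c ^ 2) ^ k / (a ^ 2 / c ^ 2)) := by
  have hc : 0 < c := ha.trans hac
  set q := 1 - a ^ 2 / c ^ 2 with hqdef
  have hq : 0 < q := by
    rw [hqdef, sub_pos, div_lt_one (by positivity)]
    exact pow_lt_pow_left₀ hac ha.le (by norm_num)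
  have hp : 0 < a ^ 2 / c ^ 2 := by positivity
  have hq1 : q < 1 := by linarith
  have hpq : a ^ 2 / c ^ 2 = 1 - q := by rw [hqdef]; ring
  have key : ∀ m : ℕ, Bd (ns X c (k + m) - ns X c k) (q ^ k * (1 - q ^ m) / (1 - q)) := by
    intro m
    induction m with
    | zero =>
      intro v
      rw [Nat.add_zero, sub_self, LinearMap.zero_apply, norm_zero, pow_zero, sub_self, mul_zero,
        zero_div, zero_mul]
    | succ m ih =>
      have e1 : ns X c (k + (m + 1)) - ns X c k = (ns X c (k + m) - ns X c k) +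
          (2⁻¹ : ℂ) • (ns X c (k + m) * yk X c (k + m)) := by
        rw [← ns_succ_sub, ← add_assoc]
        abel
      rw [e1]
      have h3 := ih.add (((bd_ns hX ha hac h1 h2 (k + m)).mul (by norm_num)
        (bd_yk hX ha hac h1 h2 (k + m))).smul (2⁻¹ : ℂ))
      refine h3.mono ?_
      have h4 : ‖(2⁻¹ : ℂ)‖ = 2⁻¹ := by norm_num
      rw [h4]
      have h5 : q ^ (2 ^ (k + m)) ≤ q ^ (k + m) :=
        pow_le_pow_of_le_one hq.le hq1.le Nat.lt_two_pow_self.le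
      have h6 : q ^ k * (1 - q ^ (m + 1)) / (1 - q) = q ^ k * (1 - q ^ m) / (1 - q) + q ^ (k + m) := by
        have : (1 - q) ≠ 0 := by linarith
        field_simp
        ring
      rw [h6]
      linarith
  refine (key m).mono ?_
  rw [hpq]
  apply div_le_div_of_nonneg_right _ (by linarith)
  have h3 : 0 ≤ q ^ m := pow_nonneg hq.le _
  have h4 : 0 ≤ q ^ k := pow_nonneg hq.le _
  nlinarith

/-- the derivative of the iteration -/
noncomputable def dk (X : Module.End ℂ V) (c : ℝ) : ℕ → Module.End ℂ V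
  | 0 => ((c⁻¹ : ℝ) : ℂ) • 1
  | k + 1 => (3 / 2 : ℂ) • (yk X c k * dk X c k)

/-- a bound for the derivative -/
noncomputable def dlt (q c : ℝ) : ℕ → ℝ
  | 0 => c⁻¹
  | k + 1 => (3 / 2) * (q ^ k * dlt q c k)

theorem dlt_nonneg {q c : ℝ} (hq : 0 ≤ q) (hc : 0 < c) (k : ℕ) : 0 ≤ dlt q c k := by
  induction k with
  | zero => exact inv_nonneg.2 hc.le
  | succ k ih =>
    rw [dlt]
    positivity

theorem tendsto_dlt {q c : ℝ} (hq : 0 ≤ q) (hq1 : q < 1) (hc : 0 < c) :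
    Tendsto (dlt q c) atTop (nhds 0) := by
  have h1 : Tendsto (fun k => (3 / 2 : ℝ) * q ^ k) atTop (nhds 0) := by
    have := (tendsto_pow_atTop_nhds_zero_of_lt_one hq hq1).const_mul (3 / 2 : ℝ)
    rwa [mul_zero] at this
  have h2 : ∀ᶠ k in atTop, (3 / 2 : ℝ) * q ^ k ≤ 1 / 2 := by
    have := (tendsto_order.1 h1).2 (1 / 2) (by norm_num)
    filter_upwards [this] with k hk using hk.le
  obtain ⟨K, hK⟩ := eventually_atTop.1 h2
  have h3 : ∀ m, dlt q c (K + m) ≤ dlt q c K * (1 / 2) ^ m := by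
    intro m
    induction m with
    | zero => simp
    | succ m ih =>
      have h4 : dlt q c (K + (m + 1)) = ((3 / 2) * q ^ (K + m)) * dlt q c (K + m) := by
        rw [← add_assoc, dlt]
        ring
      rw [h4]
      calc ((3 / 2) * q ^ (K + m)) * dlt q c (K + m) ≤ (1 / 2) * (dlt q c K * (1 / 2) ^ m) := by
            apply mul_le_mul (hK _ (Nat.le_add_right _ _)) ih (dlt_nonneg hq hc _) (by norm_num)
        _ = _ := by ring
  rw [← tendsto_add_atTop_iff_nat K]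
  have h5 : Tendsto (fun m : ℕ => dlt q c K * (1 / 2 : ℝ) ^ m) atTop (nhds 0) := by
    have := (tendsto_pow_atTop_nhds_zero_of_lt_one (r := (1 / 2 : ℝ)) (by norm_num)
      (by norm_num)).const_mul (dlt q c K)
    rwa [mul_zero] at this
  refine squeeze_zero (fun m => dlt_nonneg hq hc _) (fun m => ?_) h5
  rw [add_comm m K]
  exact h3 m

theorem bd_dk {X : Module.End ℂ V} (hX : Sym X) {a c : ℝ} (ha : 0 < a) (hac : a < c)
    (h1 : ∀ v : V, a * ‖v‖ ≤ ‖X v‖) (h2 : Bd X c) (k : ℕ) :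
    Bd (dk X c k) (dlt (1 - a ^ 2 / c ^ 2) c k) := by
  have hc : 0 < c := ha.trans hac
  set q := 1 - a ^ 2 / c ^ 2 with hqdef
  have hq : 0 < q := by
    rw [hqdef, sub_pos, div_lt_one (by positivity)]
    exact pow_lt_pow_left₀ hac ha.le (by norm_num)
  have hq1 : q ≤ 1 := by
    have : 0 ≤ a ^ 2 / c ^ 2 := by positivity
    linarith
  induction k with
  | zero =>
    intro v
    rw [dk, dlt, LinearMap.smul_apply, Module.End.one_apply, norm_smul, Complex.norm_real,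
      Real.norm_eq_abs, abs_of_pos (inv_pos.2 hc)]
  | succ k ih =>
    rw [dk, dlt]
    have h3 := ((bd_yk hX ha hac h1 h2 k).mul (pow_nonneg hq.le _) ih).smul (3 / 2 : ℂ)
    refine h3.mono ?_
    have h4 : ‖(3 / 2 : ℂ)‖ = 3 / 2 := by norm_num
    rw [h4]
    apply mul_le_mul_of_nonneg_left _ (by norm_num)
    apply mul_le_mul_of_nonneg_right _ (dlt_nonneg hq.le hc k)
    exact pow_le_pow_of_le_one hq.le hq1 Nat.lt_two_pow_self.le

end Pool.Agent.H748.Hom
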