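import Pool.Agent.H748.Hom.Vec

/-!
# Homotopy invariance of the trace of the sign
-/

set_option autoImplicit false
set_option linter.unusedSectionVars false

namespace Pool.Agent.H748.Hom

open Matrix Polynomial Filter Pool.Agent.H748.Sig Pool.Agent.H748.Art
open scoped InnerProductSpace

section paths

variable {𝔸 : Type*} [Ring 𝔸] [Algebra ℂ 𝔸]

/-- `F` is a continuously differentiable path in a finite dimensional subspace, with derivative
`F'` -/
def Rp (F F' : ℝ → 𝔸) : Prop :=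
  ∃ (I : Type) (_ : Fintype I) (c c' : I → ℝ → ℂ) (V : I → 𝔸),
    (∀ i s, HasDerivAt (c i) (c' i s) s) ∧ (∀ i, Continuous (c' i)) ∧
    (∀ s, F s = ∑ i, c i s • V i) ∧ (∀ s, F' s = ∑ i, c' i s • V i)

theorem Rp.const (x : 𝔸) : Rp (fun _ => x) (fun _ => 0) := by
  refine ⟨Unit, inferInstance, fun _ _ => 1, fun _ _ => 0, fun _ => x, ?_, ?_, ?_, ?_⟩
  · intro i s
    exact hasDerivAt_const s 1
  · intro i
    exact continuous_const
  · intro s
    simp
  · intro s
    simp

theorem Rp.add {F F' G G' : ℝ → 𝔸} (hF : Rp F F') (hG : Rp G G') :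
    Rp (fun s => F s + G s) (fun s => F' s + G' s) := by
  obtain ⟨I, _, c, c', V, h1, h2, h3, h4⟩ := hF
  obtain ⟨J, _, d, d', W, k1, k2, k3, k4⟩ := hG
  refine ⟨I ⊕ J, inferInstance, Sum.elim c d, Sum.elim c' d', Sum.elim V W, ?_, ?_, ?_, ?_⟩
  · rintro (i | j) s
    · exact h1 i s
    · exact k1 j s
  · rintro (i | j)
    · exact h2 i
    · exact k2 j
  · intro s
    show F s + G s = _
    rw [Fintype.sum_sum_type, h3, k3]
    rfl
  · intro s
    show F' s + G' s = _
    rw [Fintype.sum_sum_type, h4, k4]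
    rfl

theorem Rp.mul {F F' G G' : ℝ → 𝔸} (hF : Rp F F') (hG : Rp G G') :
    Rp (fun s => F s * G s) (fun s => F' s * G s + F s * G' s) := by
  obtain ⟨I, _, c, c', V, h1, h2, h3, h4⟩ := hF
  obtain ⟨J, _, d, d', W, k1, k2, k3, k4⟩ := hG
  refine ⟨I × J, inferInstance, fun p s => c p.1 s * d p.2 s,
    fun p s => c' p.1 s * d p.2 s + c p.1 s * d' p.2 s, fun p => V p.1 * W p.2, ?_, ?_, ?_, ?_⟩
  · intro p s
    exact (h1 p.1 s).mul (k1 p.2 s)
  · intro p
    have hc : Continuous (c p.1) := continuous_iff_continuousAt.2 fun s => (h1 p.1 s).continuousAt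
    have hd : Continuous (d p.2) := continuous_iff_continuousAt.2 fun s => (k1 p.2 s).continuousAt
    exact ((h2 p.1).mul hd).add (hc.mul (k2 p.2))
  · intro s
    show F s * G s = _
    rw [h3, k3, Fintype.sum_prod_type, Finset.sum_mul]
    refine Finset.sum_congr rfl fun i _ => ?_
    rw [Finset.mul_sum]
    refine Finset.sum_congr rfl fun j _ => ?_
    rw [smul_mul_smul_comm]
  · intro s
    show F' s * G s + F s * G' s = _
    rw [h3, k3, h4, k4, Fintype.sum_prod_type, Finset.sum_mul, Finset.sum_mul,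
      ← Finset.sum_add_distrib]
    refine Finset.sum_congr rfl fun i _ => ?_
    rw [Finset.mul_sum, Finset.mul_sum, ← Finset.sum_add_distrib]
    refine Finset.sum_congr rfl fun j _ => ?_
    rw [smul_mul_smul_comm, smul_mul_smul_comm, add_smul]

theorem Rp.sum {α : Type} (t : Finset α) {F F' : α → ℝ → 𝔸} (h : ∀ a ∈ t, Rp (F a) (F' a)) :
    Rp (fun s => ∑ a ∈ t, F a s) (fun s => ∑ a ∈ t, F' a s) := by
  classical
  induction t using Finset.induction_on with
  | empty => simpa using Rp.const (0 : 𝔸)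
  | insert a t ha ih =>
    simp only [Finset.sum_insert ha]
    exact (h a (Finset.mem_insert_self a t)).add
      (ih fun b hb => h b (Finset.mem_insert_of_mem hb))

theorem Rp.map {𝔹 : Type*} [Ring 𝔹] [Algebra ℂ 𝔹] {F F' : ℝ → 𝔸} (h : Rp F F')
    (L : 𝔸 →ₗ[ℂ] 𝔹) : Rp (fun s => L (F s)) (fun s => L (F' s)) := by
  obtain ⟨I, _, c, c', V, h1, h2, h3, h4⟩ := h
  refine ⟨I, inferInstance, c, c', fun i => L (V i), h1, h2, ?_, ?_⟩
  · intro s
    show L (F s) = _
    rw [h3, map_sum]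
    simp only [map_smul]
  · intro s
    show L (F' s) = _
    rw [h4, map_sum]
    simp only [map_smul]

theorem Rp.hasDerivAt {F F' : ℝ → 𝔸} (h : Rp F F') (L : 𝔸 →ₗ[ℂ] ℂ) (s : ℝ) :
    HasDerivAt (fun s => L (F s)) (L (F' s)) s := by
  obtain ⟨I, _, c, c', V, h1, h2, h3, h4⟩ := h
  have e1 : (fun s => L (F s)) = fun s => ∑ i, c i s * L (V i) := by
    funext s
    rw [h3, map_sum]
    simp only [map_smul, smul_eq_mul]
  have e2 : L (F' s) = ∑ i, c' i s * L (V i) := by
    rw [h4, map_sum]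
    simp only [map_smul, smul_eq_mul]
  rw [e1, e2]
  exact HasDerivAt.fun_sum fun i _ => (h1 i s).mul_const _

theorem Rp.pow {F F' : ℝ → 𝔸} (h : Rp F F') (n : ℕ) :
    ∃ G : ℝ → 𝔸, Rp (fun s => F s ^ n) G ∧ ∀ (t : 𝔸 →ₗ[ℂ] ℂ), (∀ x y, t (x * y) = t (y * x)) →
      ∀ s j, t (G s * F s ^ j) = n * t (F s ^ (n - 1 + j) * F' s) := by
  induction n with
  | zero =>
    refine ⟨fun _ => 0, ?_, ?_⟩
    · simpa using Rp.const (1 : 𝔸)
    · intro t _ s j
      rw [zero_mul, map_zero, Nat.cast_zero, zero_mul]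
  | succ n ih =>
    obtain ⟨G, hG, hG2⟩ := ih
    refine ⟨fun s => G s * F s + F s ^ n * F' s, ?_, ?_⟩
    · have h1 := hG.mul h
      simpa only [pow_succ] using h1
    · intro t ht s j
      rw [add_mul, map_add, mul_assoc, ← pow_succ', hG2 t ht s (j + 1), ht (F s ^ n * F' s),
        ← mul_assoc, ← pow_add, Nat.add_sub_cancel]
      rcases n with _ | n
      · simp
      · rw [Nat.add_sub_cancel, show n + (j + 1) = n + 1 + j by ring, add_comm j (n + 1)]
        push_cast
        ring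

theorem Rp.aeval_deriv [Algebra ℝ 𝔸] [IsScalarTower ℝ ℂ 𝔸] {F F' : ℝ → 𝔸} (h : Rp F F')
    (t : 𝔸 →ₗ[ℂ] ℂ)
    (ht : ∀ x y, t (x * y) = t (y * x)) (P : ℝ[X]) (s : ℝ) :
    HasDerivAt (fun s => t (aeval (F s) P)) (t (aeval (F s) (derivative P) * F' s)) s := by
  have hsm : ∀ (r : ℝ) (x : 𝔸), r • x = ((r : ℂ)) • x := by
    intro r x
    have := smul_assoc r (1 : ℂ) x
    rw [one_smul] at this
    rw [← this]
    congr 1
    simp
  induction P using Polynomial.induction_on' with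
  | add P R hP hR =>
    simp only [map_add, add_mul]
    exact hP.add hR
  | monomial n r =>
    obtain ⟨G, hG, hG2⟩ := h.pow n
    have h1 := (hG.hasDerivAt t s).const_mul (r : ℂ)
    have e1 : (fun s => t (aeval (F s) (monomial n r))) = fun s => (r : ℂ) * t (F s ^ n) := by
      funext s
      rw [aeval_monomial, ← Algebra.smul_def, hsm, map_smul, smul_eq_mul]
    have e2 : t (aeval (F s) (derivative (monomial n r)) * F' s) = (r : ℂ) * t (G s) := by
      have h3 := hG2 t ht s 0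
      rw [pow_zero, mul_one, add_zero] at h3
      rw [h3, derivative_monomial, aeval_monomial, ← Algebra.smul_def, hsm, smul_mul_assoc,
        map_smul, smul_eq_mul]
      push_cast
      ring
    rw [e1, e2]
    exact h1

end paths

variable {Q : Type*} [Group Q]
variable {ι : Type} [Fintype ι] [DecidableEq ι]

theorem real_smul_eq (r : ℝ) (x : Matrix ι ι (MonoidAlgebra ℂ Q)) : r • x = (r : ℂ) • x := by
  ext i j g
  simp

theorem act_Q (A : Matrix ι ι (MonoidAlgebra ℂ Q)) (c : ℝ) (k : ℕ) :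
    act (aeval A (Sig.Q c k)) = ns (act A) c k := by
  induction k with
  | zero =>
    rw [Sig.Q, map_mul, aeval_C, aeval_X, ← Algebra.smul_def, real_smul_eq, map_smul, ns]
  | succ k ih =>
    rw [Sig.Q, map_mul, aeval_C, ← Algebra.smul_def, real_smul_eq, map_smul, map_mul, map_sub,
      map_pow, aeval_C, ns, map_mul, map_sub, map_pow, ih]
    congr 1
    · push_cast
      ring
    · congr 2
      have h1 : (algebraMap ℝ (Matrix ι ι (MonoidAlgebra ℂ Q))) 3 = 3 := map_ofNat _ 3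
      rw [h1, map_ofNat]

theorem derivative_Q (c : ℝ) (k : ℕ) : derivative (Sig.Q c (k + 1)) =
    C (3 / 2) * ((1 - Sig.Q c k ^ 2) * derivative (Sig.Q c k)) := by
  have h1 : (C (3 / 2) : ℝ[X]) = C 2⁻¹ * C 3 := by rw [← C_mul]; norm_num
  have h3 : (C 3 : ℝ[X]) = 3 := map_ofNat _ 3
  have h4 : (C ((2 : ℕ) : ℝ) : ℝ[X]) = 2 := by rw [Nat.cast_ofNat]; exact map_ofNat _ 2
  rw [Sig.Q, derivative_C_mul, derivative_mul, derivative_sub, derivative_C, derivative_pow, h1,
    h3, h4]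
  have h5 : ∀ H D R : ℝ[X], H * (D * (3 - R ^ 2) + R * (0 - 2 * R ^ (2 - 1) * D)) =
      H * 3 * ((1 - R ^ 2) * D) := by
    intro H D R
    norm_num
    ring
  exact h5 _ _ _

theorem act_dQ (A : Matrix ι ι (MonoidAlgebra ℂ Q)) (c : ℝ) (k : ℕ) :
    act (aeval A (derivative (Sig.Q c k))) = dk (act A) c k := by
  induction k with
  | zero =>
    rw [Sig.Q, derivative_C_mul, derivative_X, map_mul, aeval_C, ← Algebra.smul_def, real_smul_eq,
      map_smul, map_one, map_one, dk]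
  | succ k ih =>
    rw [derivative_Q, map_mul, aeval_C, ← Algebra.smul_def, real_smul_eq, map_smul, map_mul,
      map_mul, map_sub, map_sub, map_pow, map_pow, map_one, map_one, act_Q, ih, dk, yk]
    congr 1
    push_cast
    ring

theorem bd_act (A : Matrix ι ι (MonoidAlgebra ℂ Q)) : ∃ K : ℝ, 0 ≤ K ∧ Bd (act A) K := by
  have hU : UH (MonoidAlgebra.of ℂ Q) := by
    intro g
    show adjE (MonoidAlgebra.single g 1) = MonoidAlgebra.single g⁻¹ 1
    rw [adjE_single, star_one]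
  refine ⟨L1 A, L1_nonneg A, ?_⟩
  have h1 := bd_mp hU A
  have h2 : mp (MonoidAlgebra.of ℂ Q) A = A := by
    ext i j : 1
    rw [mp_apply]
    have h3 := MonoidAlgebra.lift_unique (R := ℂ) (M := Q)
      (AlgHom.id ℂ (MonoidAlgebra ℂ Q)) (A i j)
    rw [MonoidAlgebra.lift_apply]
    exact h3.symm
  rwa [h2] at h1

/-- the error of the Newton-Schulz iteration -/
noncomputable def eta (a c : ℝ) (k : ℕ) : ℝ := (1 - a ^ 2 / c ^ 2) ^ k / (a ^ 2 / c ^ 2)

theorem tendsto_eta {a c : ℝ} (ha : 0 < a) (hac : a < c) : Tendsto (eta a c) atTop (nhds 0) := by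
  have hc : 0 < c := ha.trans hac
  have hq : 0 < 1 - a ^ 2 / c ^ 2 := by
    rw [sub_pos, div_lt_one (by positivity)]
    exact pow_lt_pow_left₀ hac ha.le (by norm_num)
  have hp : 0 < a ^ 2 / c ^ 2 := by positivity
  have := (tendsto_pow_atTop_nhds_zero_of_lt_one hq.le (by linarith)).div_const (a ^ 2 / c ^ 2)
  rwa [zero_div] at this

theorem tau_sub (X Y : Matrix ι ι (MonoidAlgebra ℂ Q)) : tau (X - Y) = tau X - tau Y :=
  map_sub tauL X Y

/-- the traces of the iteration form a Cauchy sequence, with explicit error -/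
theorem tau_tail {A : Matrix ι ι (MonoidAlgebra ℂ Q)} (hA : adj A = A) {a c : ℝ} (ha : 0 < a)
    (hac : a < c) (h1 : ∀ v, a * ‖v‖ ≤ ‖act A v‖) (h2 : Bd (act A) c) (k m : ℕ) :
    ‖tau (aeval A (Sig.Q c (k + m))) - tau (aeval A (Sig.Q c k))‖ ≤
      Fintype.card ι * eta a c k := by
  rw [← tau_sub]
  apply norm_tau_le
  rw [map_sub, act_Q, act_Q]
  exact bd_ns_sub (sym_act hA) ha hac h1 h2 k m

/-- **Homotopy invariance.** -/
theorem homotopy {A A' : ℝ → Matrix ι ι (MonoidAlgebra ℂ Q)} (h : Rp A A')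
    (hA : ∀ s, adj (A s) = A s) {a c : ℝ} (ha : 0 < a) (hac : a < c)
    (h1 : ∀ s v, a * ‖v‖ ≤ ‖act (A s) v‖) (h2 : ∀ s, Bd (act (A s)) c) (k : ℕ) :
    ‖tau (aeval (A 1) (Sig.Q c k)) - tau (aeval (A 0) (Sig.Q c k))‖ ≤
      2 * (Fintype.card ι * eta a c k) := by
  have hc : 0 < c := ha.trans hac
  have hq : 0 < 1 - a ^ 2 / c ^ 2 := by
    rw [sub_pos, div_lt_one (by positivity)]
    exact pow_lt_pow_left₀ hac ha.le (by norm_num)
  have hp : 0 < a ^ 2 / c ^ 2 := by positivity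
  -- bound for the derivative
  obtain ⟨C, hC0, hC⟩ : ∃ C : ℝ, 0 ≤ C ∧ ∀ s ∈ Set.Icc (0 : ℝ) 1, Bd (act (A' s)) C := by
    obtain ⟨I, _, co, co', V, k1, k2, k3, k4⟩ := h
    choose K hK0 hK using fun i => bd_act (V i)
    have hb : ∀ i, ∃ B : ℝ, ∀ s ∈ Set.Icc (0 : ℝ) 1, ‖co' i s‖ ≤ B := fun i =>
      isCompact_Icc.exists_bound_of_continuousOn (k2 i).continuousOn
    choose B hB using hb
    refine ⟨∑ i, |B i| * K i, Finset.sum_nonneg fun i _ => mul_nonneg (abs_nonneg _) (hK0 i), ?_⟩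
    intro s hs v
    rw [k4, map_sum, LinearMap.sum_apply, Finset.sum_mul]
    refine (norm_sum_le _ _).trans (Finset.sum_le_sum fun i _ => ?_)
    rw [map_smul, LinearMap.smul_apply, norm_smul, mul_assoc]
    exact mul_le_mul ((hB i s hs).trans (le_abs_self _)) (hK i v) (norm_nonneg _) (abs_nonneg _)
  have hder : ∀ m, ‖tau (aeval (A 1) (Sig.Q c m)) - tau (aeval (A 0) (Sig.Q c m))‖ ≤
      Fintype.card ι * (dlt (1 - a ^ 2 / c ^ 2) c m * C) := by
    intro m
    refine norm_image_sub_le_of_norm_deriv_le_segment_01'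
      (f := fun s => tau (aeval (A s) (Sig.Q c m)))
      (f' := fun s => tau (aeval (A s) (derivative (Sig.Q c m)) * A' s)) ?_ ?_
    · intro s _
      exact (h.aeval_deriv tauL tau_comm (Sig.Q c m) s).hasDerivWithinAt
    · intro s hs
      apply norm_tau_le
      rw [map_mul, act_dQ]
      exact (bd_dk (sym_act (hA s)) ha hac (h1 s) (h2 s) m).mul (dlt_nonneg hq.le hc m)
        (hC s ⟨hs.1, hs.2.le⟩)
  have hlim : Tendsto (fun m => 2 * (Fintype.card ι * eta a c k) +
      Fintype.card ι * (dlt (1 - a ^ 2 / c ^ 2) c (k + m) * C)) atTop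
      (nhds (2 * (Fintype.card ι * eta a c k) + Fintype.card ι * (0 * C))) := by
    apply Tendsto.const_add
    apply Tendsto.const_mul
    apply Tendsto.mul_const
    have h3 := tendsto_dlt (q := 1 - a ^ 2 / c ^ 2) (c := c) hq.le (by linarith) hc
    exact h3.comp (tendsto_add_atTop_nat k |>.congr fun m => add_comm m k)
  rw [zero_mul, mul_zero, add_zero] at hlim
  refine ge_of_tendsto' hlim fun m => ?_
  have t1 := tau_tail (hA 1) ha hac (h1 1) (h2 1) k m
  have t0 := tau_tail (hA 0) ha hac (h1 0) (h2 0) k m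
  have t2 := hder (k + m)
  rw [norm_sub_rev] at t1
  calc ‖tau (aeval (A 1) (Sig.Q c k)) - tau (aeval (A 0) (Sig.Q c k))‖
      = ‖(tau (aeval (A 1) (Sig.Q c k)) - tau (aeval (A 1) (Sig.Q c (k + m)))) +
        (tau (aeval (A 1) (Sig.Q c (k + m))) - tau (aeval (A 0) (Sig.Q c (k + m)))) +
        (tau (aeval (A 0) (Sig.Q c (k + m))) - tau (aeval (A 0) (Sig.Q c k)))‖ := by
          congr 1
          ring
    _ ≤ Fintype.card ι * eta a c k +
        Fintype.card ι * (dlt (1 - a ^ 2 / c ^ 2) c (k + m) * C) +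
        Fintype.card ι * eta a c k := by
          refine (norm_add_le _ _).trans (add_le_add ((norm_add_le _ _).trans
            (add_le_add t1 t2)) t0)
    _ = _ := by ring

end Pool.Agent.H748.Hom
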