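import Pool.Agent.H748.Hom.Gap

/-!
# Pushing forward along maps which are multiplicative on finite sets
-/

set_option autoImplicit false
set_option linter.unusedSectionVars false

namespace Pool.Agent.H748.Hom

open Matrix Polynomial Filter Pool.Agent.H748.Sig Pool.Agent.H748.Art

variable {G H : Type*} [Group G] [Group H]
variable {ι : Type} [Fintype ι] [DecidableEq ι]

/-- the linear extension of a map -/
noncomputable def pm (f : G → H) : MonoidAlgebra ℂ G →ₗ[ℂ] MonoidAlgebra ℂ H where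
  toFun x := x.coeff.sum fun g c => MonoidAlgebra.single (f g) c
  map_add' x y := by
    rw [MonoidAlgebra.coeff_add, Finsupp.sum_add_index']
    · intro g
      exact MonoidAlgebra.single_zero _
    · intro g a b
      exact MonoidAlgebra.single_add _ _ _
  map_smul' c x := by
    rw [MonoidAlgebra.coeff_smul, Finsupp.sum_smul_index', RingHom.id_apply, Finsupp.smul_sum]
    · refine Finsupp.sum_congr fun g _ => ?_
      rw [MonoidAlgebra.smul_single]
    · intro g
      exact MonoidAlgebra.single_zero _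

theorem pm_apply (f : G → H) (x : MonoidAlgebra ℂ G) :
    pm f x = x.coeff.sum fun g c => MonoidAlgebra.single (f g) c := rfl

theorem pm_single (f : G → H) (g : G) (c : ℂ) :
    pm f (MonoidAlgebra.single g c) = MonoidAlgebra.single (f g) c := by
  rw [pm_apply, MonoidAlgebra.coeff_single, Finsupp.sum_single_index]
  exact MonoidAlgebra.single_zero _

theorem eq_sum_single (x : MonoidAlgebra ℂ G) :
    x = ∑ g ∈ x.coeff.support, MonoidAlgebra.single g (x.coeff g) := by
  classical
  ext h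
  rw [MonoidAlgebra.coeff_sum, Finsupp.finsetSum_apply]
  simp only [MonoidAlgebra.coeff_single, Finsupp.single_apply]
  rw [Finset.sum_ite_eq']
  split_ifs with h1
  · rfl
  · exact Finsupp.notMem_support_iff.1 h1

theorem pm_mul {f : G → H} {x y : MonoidAlgebra ℂ G}
    (h : ∀ g, x.coeff g ≠ 0 → ∀ k, y.coeff k ≠ 0 → f (g * k) = f g * f k) :
    pm f (x * y) = pm f x * pm f y := by
  conv_lhs => rw [eq_sum_single x, eq_sum_single y]
  conv_rhs => rw [eq_sum_single x, eq_sum_single y]
  rw [Finset.sum_mul_sum, map_sum, map_sum, map_sum, Finset.sum_mul_sum]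
  refine Finset.sum_congr rfl fun g hg => ?_
  rw [map_sum]
  refine Finset.sum_congr rfl fun k hk => ?_
  rw [MonoidAlgebra.single_mul_single, pm_single, pm_single, pm_single,
    MonoidAlgebra.single_mul_single, h g (Finsupp.mem_support_iff.1 hg) k
      (Finsupp.mem_support_iff.1 hk)]

theorem pm_adjE {f : G → H} {x : MonoidAlgebra ℂ G}
    (h : ∀ g, x.coeff g ≠ 0 → f g⁻¹ = (f g)⁻¹) : pm f (adjE x) = adjE (pm f x) := by
  conv_lhs => rw [eq_sum_single x]
  conv_rhs => rw [eq_sum_single x]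
  rw [adjE_sum, map_sum, map_sum, adjE_sum]
  refine Finset.sum_congr rfl fun g hg => ?_
  rw [adjE_single, pm_single, pm_single, adjE_single, h g (Finsupp.mem_support_iff.1 hg)]

theorem pm_coeff_one {f : G → H} {x : MonoidAlgebra ℂ G}
    (h : ∀ g, x.coeff g ≠ 0 → f g = 1 → g = 1) (h1 : f 1 = 1) :
    (pm f x).coeff 1 = x.coeff 1 := by
  classical
  conv_lhs => rw [eq_sum_single x]
  conv_rhs => rw [eq_sum_single x]
  rw [map_sum, MonoidAlgebra.coeff_sum, MonoidAlgebra.coeff_sum, Finsupp.finsetSum_apply,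
    Finsupp.finsetSum_apply]
  refine Finset.sum_congr rfl fun g hg => ?_
  rw [pm_single, MonoidAlgebra.coeff_single, MonoidAlgebra.coeff_single, Finsupp.single_apply,
    Finsupp.single_apply]
  by_cases hg1 : g = 1
  · rw [hg1, h1]
    simp
  · rw [if_neg hg1, if_neg (fun hc => hg1 (h g (Finsupp.mem_support_iff.1 hg) hc))]

theorem pm_aug (f : G → H) (x : MonoidAlgebra ℂ G) :
    MonoidAlgebra.lift ℂ ℂ H 1 (pm f x) = MonoidAlgebra.lift ℂ ℂ G 1 x := by
  induction x using MonoidAlgebra.induction_linear with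
  | zero => rw [map_zero, map_zero, map_zero]
  | add x y hx hy => rw [map_add, map_add, map_add, hx, hy]
  | single g c =>
    rw [pm_single, MonoidAlgebra.lift_single, MonoidAlgebra.lift_single]
    rfl

theorem l1_add (x y : MonoidAlgebra ℂ G) : l1 (x + y) ≤ l1 x + l1 y := by
  classical
  have h1 : ∀ (z : MonoidAlgebra ℂ G) (s : Finset G), z.coeff.support ⊆ s →
      l1 z = ∑ g ∈ s, ‖z.coeff g‖ := by
    intro z s hs
    rw [l1, Finsupp.sum]
    refine Finset.sum_subset hs fun g _ hg => ?_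
    rw [Finsupp.notMem_support_iff.1 hg, norm_zero]
  rw [h1 (x + y) (x.coeff.support ∪ y.coeff.support) (by
      rw [MonoidAlgebra.coeff_add]
      exact Finsupp.support_add), h1 x _ Finset.subset_union_left,
    h1 y (x.coeff.support ∪ y.coeff.support) Finset.subset_union_right, ← Finset.sum_add_distrib]
  refine Finset.sum_le_sum fun g _ => ?_
  rw [MonoidAlgebra.coeff_add, Finsupp.add_apply]
  exact norm_add_le _ _

theorem l1_single (g : G) (c : ℂ) : l1 (MonoidAlgebra.single g c) = ‖c‖ := by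
  rw [l1, MonoidAlgebra.coeff_single, Finsupp.sum_single_index (by exact norm_zero)]

theorem l1_pm (f : G → H) (x : MonoidAlgebra ℂ G) : l1 (pm f x) ≤ l1 x := by
  classical
  have h1 : ∀ s : Finset G, l1 (∑ g ∈ s, MonoidAlgebra.single (f g) (x.coeff g)) ≤
      ∑ g ∈ s, ‖x.coeff g‖ := by
    intro s
    induction s using Finset.induction_on with
    | empty => simp [l1]
    | insert a s ha ih =>
      rw [Finset.sum_insert ha, Finset.sum_insert ha]
      refine (l1_add _ _).trans (add_le_add (le_of_eq (l1_single _ _)) ih)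
  exact h1 x.coeff.support

/-- on matrices -/
noncomputable def pM (f : G → H) :
    Matrix ι ι (MonoidAlgebra ℂ G) →ₗ[ℂ] Matrix ι ι (MonoidAlgebra ℂ H) := (pm f).mapMatrix

theorem pM_apply (f : G → H) (A : Matrix ι ι (MonoidAlgebra ℂ G)) (i j : ι) :
    pM f A i j = pm f (A i j) := rfl

theorem L1_pM (f : G → H) (A : Matrix ι ι (MonoidAlgebra ℂ G)) : L1 (pM f A) ≤ L1 A :=
  Finset.sum_le_sum fun i _ => Finset.sum_le_sum fun j _ => l1_pm f (A i j)

theorem aug_pM (f : G → H) (A : Matrix ι ι (MonoidAlgebra ℂ G)) : aug (pM f A) = aug A := by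
  ext i j
  exact pm_aug f (A i j)

/-- `f` is multiplicative and injective on words of length `≤ K` -/
def Good (f : G → H) (W : Set G) (K : ℕ) : Prop :=
  (∀ g ∈ Wd W K, ∀ h ∈ Wd W K, f (g * h) = f g * f h) ∧ Set.InjOn f (Wd W K)

theorem Good.one {f : G → H} {W : Set G} {K : ℕ} (h : Good f W K) : f 1 = 1 := by
  have h1 := h.1 1 (Wd.one K) 1 (Wd.one K)
  rw [mul_one] at h1
  exact (left_eq_mul.1 h1)

theorem Good.inv {f : G → H} {W : Set G} {K : ℕ} (h : Good f W K) {g : G} (hg : g ∈ Wd W K)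
    (hg' : g⁻¹ ∈ Wd W K) : f g⁻¹ = (f g)⁻¹ := by
  have h1 := h.1 g hg g⁻¹ hg'
  rw [mul_inv_cancel, h.one] at h1
  exact (inv_eq_of_mul_eq_one_right h1.symm).symm

theorem pM_mul {f : G → H} {W : Set G} {K L N : ℕ} (h : Good f W N)
    {X Y : Matrix ι ι (MonoidAlgebra ℂ G)} (hX : MSup W K X) (hY : MSup W L Y) (hK : K ≤ N)
    (hL : L ≤ N) : pM f (X * Y) = pM f X * pM f Y := by
  ext i j : 1
  rw [pM_apply, Matrix.mul_apply, map_sum, Matrix.mul_apply]
  refine Finset.sum_congr rfl fun k _ => ?_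
  exact pm_mul fun g hg g' hg' => h.1 g (Wd.mono hK (hX i k g hg)) g' (Wd.mono hL (hY k j g' hg'))

theorem pm_one {f : G → H} (h1 : f 1 = 1) : pm f 1 = 1 := by
  rw [MonoidAlgebra.one_def, pm_single, h1, ← MonoidAlgebra.one_def]

theorem pM_one {f : G → H} (h1 : f 1 = 1) : pM f (1 : Matrix ι ι (MonoidAlgebra ℂ G)) = 1 := by
  ext i j : 1
  rw [pM_apply, Matrix.one_apply, Matrix.one_apply]
  split_ifs
  · exact pm_one h1
  · exact map_zero _

theorem pM_adj {f : G → H} {W : Set G} {K : ℕ} (h : Good f W K)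
    {X : Matrix ι ι (MonoidAlgebra ℂ G)} (hX : MSup W K X) (hX' : MSup W K (adj X)) :
    pM f (adj X) = adj (pM f X) := by
  ext i j : 1
  show pm f (adjE (X j i)) = adjE (pm f (X j i))
  refine pm_adjE fun g hg => h.inv (hX j i g hg) ?_
  refine hX' i j g⁻¹ ?_
  rw [adj_coeff, inv_inv]
  exact star_ne_zero.2 hg

theorem pM_pow {f : G → H} {W : Set G} {K : ℕ} (h : Good f W K) (hK : 1 ≤ K)
    {X : Matrix ι ι (MonoidAlgebra ℂ G)} (hX : MSup W 1 X) (n : ℕ) (hn : n ≤ K) :
    pM f (X ^ n) = pM f X ^ n := by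
  induction n with
  | zero => rw [pow_zero, pow_zero, pM_one h.one]
  | succ n ih =>
    rw [pow_succ, pM_mul h (hX.pow n) hX (by omega) hK, ih (by omega), pow_succ]

theorem pM_aeval {f : G → H} {W : Set G} {K : ℕ} (h : Good f W K) (hK : 1 ≤ K)
    {X : Matrix ι ι (MonoidAlgebra ℂ G)} (hX : MSup W 1 X) {P : ℝ[X]} (hP : P.natDegree ≤ K) :
    pM f (aeval X P) = aeval (pM f X) P := by
  rw [aeval_eq_sum_range, aeval_eq_sum_range, map_sum]
  refine Finset.sum_congr rfl fun n hn => ?_
  rw [real_smul_eq, real_smul_eq, map_smul, pM_pow h hK hX n (by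
    have := Finset.mem_range.1 hn
    omega)]

theorem tau_pM {f : G → H} {X : Matrix ι ι (MonoidAlgebra ℂ G)}
    (h : ∀ i g, (X i i).coeff g ≠ 0 → f g = 1 → g = 1) (h1 : f 1 = 1) :
    tau (pM f X) = tau X := by
  unfold tau
  exact Finset.sum_congr rfl fun i _ => pm_coeff_one (h i) h1

theorem Good.tau {f : G → H} {W : Set G} {K : ℕ} (h : Good f W K)
    {X : Matrix ι ι (MonoidAlgebra ℂ G)} (hX : MSup W K X) : tau (pM f X) = tau X := by
  refine tau_pM (fun i g hg hc => h.2 (hX i i g hg) (Wd.one K) ?_) h.one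
  rw [hc, h.one]

/-- pushing forward a complex -/
theorem PD.push {f : G → H} {W : Set G} {K : ℕ} (hf : Good f W K) (hK : 1 ≤ K)
    {b S T p s : Matrix ι ι (MonoidAlgebra ℂ G)} (h : PD b S T p s) (hb : MSup W 1 b)
    (hb' : MSup W 1 (adj b)) (hS : MSup W 1 S) (hT : MSup W 1 T) (hp : MSup W 1 p)
    (hs : MSup W 1 s) : PD (pM f b) (pM f S) (pM f T) (pM f p) (pM f s) := by
  have hm : ∀ {X Y : Matrix ι ι (MonoidAlgebra ℂ G)}, MSup W 1 X → MSup W 1 Y →
      pM f X * pM f Y = pM f (X * Y) := fun hX hY => (pM_mul hf hX hY hK hK).symm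
  have hmono : ∀ {X : Matrix ι ι (MonoidAlgebra ℂ G)}, MSup W 1 X → MSup W K X :=
    fun hX i j => (hX i j).mono hK
  have ha : adj (pM f b) = pM f (adj b) := (pM_adj hf (hmono hb) (hmono hb')).symm
  constructor
  · rw [hm hb hb, h.bb, map_zero]
  · rw [← pM_adj hf (hmono hS) (by rw [h.SS]; exact hmono hS), h.SS]
  · rw [ha, hm hb hS, hm hS hb', ← map_add, h.bS, map_zero]
  · rw [ha, hm hb' hT, hm hT hb, ← map_add, h.bT, map_zero]
  · rw [hm hb hp, hm hp hb, hm hS hT, ← map_add, ← map_add, h.hp, pM_one hf.one]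
  · rw [ha, hm hb' hs, hm hs hb', hm hT hS, ← map_add, ← map_add, h.hs, pM_one hf.one]

theorem finite_wd {W : Set G} (hW : W.Finite) (K : ℕ) : (Wd W K).Finite := by
  have : Finite W := hW
  have h1 := (List.finite_length_le W K).image (fun l => (l.map Subtype.val).prod)
  refine h1.subset ?_
  rintro g ⟨l, h2, h3, rfl⟩
  refine ⟨l.attach.map fun x => ⟨x.1, h3 x.1 x.2⟩, ?_, ?_⟩
  · show (l.attach.map _).length ≤ K
    rw [List.length_map, List.length_attach]
    exact h2
  · show ((l.attach.map _).map Subtype.val).prod = l.prod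
    congr 1
    rw [List.map_map]
    exact List.attach_map_subtype_val l

theorem good_hom (f : G →* H) (hf : Function.Injective f) (W : Set G) (K : ℕ) : Good f W K :=
  ⟨fun g _ h _ => map_mul f g h, hf.injOn⟩

end Pool.Agent.H748.Hom
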