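import Pool.Agent.H748.Hom.Base
import Pool.Agent.H748.Hom.Fc

/-!
# Arbitrary sequences of polynomials converging to the sign; subgroups of finite index
-/

set_option autoImplicit false
set_option linter.unusedSectionVars false

namespace Pool.Agent.H748.Hom

open Matrix Polynomial Filter Pool.Agent.H748.Sig Pool.Agent.H748.Art

/-- real polynomials which converge to the sign, uniformly on the compact subsets of `ℝ ∖ 0` -/
def SignSeq (P : ℕ → ℝ[X]) : Prop :=
  ∀ a c ε : ℝ, 0 < a → 0 < ε → ∀ᶠ k in atTop, ∀ x : ℝ, a ≤ |x| → |x| ≤ c →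
    |(P k).eval x - ((SignType.sign x : SignType) : ℝ)| ≤ ε

theorem exists_signSeq : ∃ P : ℕ → ℝ[X], SignSeq P := by
  have h1 : ∀ n : ℕ, ∃ R : ℝ[X], ∀ x : ℝ, 1 / ((n : ℝ) + 1) ≤ |x| → |x| ≤ (n : ℝ) + 1 →
      |R.eval x - ((SignType.sign x : SignType) : ℝ)| ≤ 1 / ((n : ℝ) + 1) := by
    intro n
    have ha : (0 : ℝ) < 1 / ((n : ℝ) + 1) := by positivity
    obtain ⟨R, ε, hε, hR⟩ := exists_appr (b := (n : ℝ) + 1) ha _ ha
    exact ⟨R, fun x hx hx' => (hR x hx (hx'.trans (le_max_right _ _))).trans hε.le⟩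
  choose P hP using h1
  refine ⟨P, fun a c ε ha hε => ?_⟩
  have t1 : Tendsto (fun n : ℕ => 1 / ((n : ℝ) + 1)) atTop (nhds 0) :=
    tendsto_one_div_add_atTop_nhds_zero_nat
  have t2 : Tendsto (fun n : ℕ => (n : ℝ) + 1) atTop atTop :=
    tendsto_atTop_add_const_right _ _ tendsto_natCast_atTop_atTop
  filter_upwards [(tendsto_order.1 t1).2 a ha, (tendsto_order.1 t1).2 ε hε,
    t2.eventually_ge_atTop c] with n h2 h3 h4 x hx hx'
  exact (hP n x (h2.le.trans hx) (hx'.trans h4)).trans h3.le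

variable {G H : Type*} [Group G] [Group H]
variable {ι κ : Type} [Fintype ι] [DecidableEq ι] [Fintype κ] [DecidableEq κ]

theorem act_aeval (A : Matrix ι ι (MonoidAlgebra ℂ G)) (P : ℝ[X]) :
    act (aeval A P) = aeval (act A) P := by
  have h1 : ∀ n : ℕ, act (A ^ n) = act A ^ n := fun n => map_pow _ _ _
  rw [aeval_eq_sum_range, aeval_eq_sum_range, map_sum]
  refine Finset.sum_congr rfl fun n _ => ?_
  rw [real_smul_eq, map_smul, h1]
  ext v : 1
  rw [LinearMap.smul_apply, LinearMap.smul_apply]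
  exact Complex.coe_smul _ _

/-- the traces of `P (A)` converge to `x` -/
def Lim (A : Matrix ι ι (MonoidAlgebra ℂ G)) (x : ℂ) : Prop :=
  ∀ P : ℕ → ℝ[X], SignSeq P → Tendsto (fun k => tau (aeval A (P k))) atTop (nhds x)

theorem Lim.unique {A : Matrix ι ι (MonoidAlgebra ℂ G)} {x y : ℂ} (hx : Lim A x)
    (hy : Lim A y) : x = y := by
  obtain ⟨P, hP⟩ := exists_signSeq
  exact tendsto_nhds_unique (hx P hP) (hy P hP)

/-- the traces for two polynomials which are close to each other -/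
theorem PD.close {b S T p s : Matrix ι ι (MonoidAlgebra ℂ G)} (h : PD b S T p s) {κ c : ℝ}
    (hκ : 0 ≤ κ) (hb : Bdd κ S T p s) (hA : L1 (b + adj b + S) ≤ c) {P R : ℝ[X]} {ε : ℝ}
    (hε : 0 ≤ ε) (hPR : ∀ x : ℝ, gp κ ≤ |x| → |x| ≤ c → |P.eval x - R.eval x| ≤ ε) :
    ‖tau (aeval (b + adj b + S) P) - tau (aeval (b + adj b + S) R)‖ ≤ Fintype.card ι * ε := by
  rw [← tau_sub, ← map_sub]
  apply norm_tau_le
  rw [act_aeval]
  refine bd_aeval (sym_act h.adj_A) (a := gp κ) (c := c) ?_ ?_ hε ?_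
  · intro v
    have h1 := h.gap hκ hb.1 hb.2.1 hb.2.2.1 hb.2.2.2 (uh_of (Q := G)) v
    rwa [mp_of] at h1
  · have h1 := bd_mp (uh_of (Q := G)) (b + adj b + S)
    rw [mp_of] at h1
    exact h1.mono hA
  · intro x hx hx'
    rw [eval_sub]
    exact hPR x hx hx'

theorem PD.diff {b S T p s : Matrix ι ι (MonoidAlgebra ℂ G)} (h : PD b S T p s) {c : ℝ}
    (hA : L1 (b + adj b + S) ≤ c) {P R : ℕ → ℝ[X]}
    (hPR : ∀ a ε : ℝ, 0 < a → 0 < ε → ∀ᶠ k in atTop, ∀ x : ℝ, a ≤ |x| → |x| ≤ c →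
      |(P k).eval x - (R k).eval x| ≤ ε) :
    Tendsto (fun k => tau (aeval (b + adj b + S) (P k)) - tau (aeval (b + adj b + S) (R k)))
      atTop (nhds 0) := by
  obtain ⟨κ, hκ, hb⟩ := exists_bdd S T p s
  rw [tendsto_zero_iff_norm_tendsto_zero, Metric.tendsto_nhds]
  intro δ hδ
  have hpos : 0 < δ / (Fintype.card ι + 1) := by positivity
  filter_upwards [hPR (gp κ) _ (gp_pos hκ) hpos] with k hk
  rw [dist_zero_right, norm_norm]
  refine lt_of_le_of_lt (h.close hκ hb hA hpos.le hk) ?_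
  rw [mul_div_assoc', div_lt_iff₀ (by positivity)]
  nlinarith

theorem signSeq_Q {a c : ℝ} (ha : 0 < a) (hc : 1 < c) (ε : ℝ) (hε : 0 < ε) :
    ∀ᶠ k in atTop, ∀ x : ℝ, a ≤ |x| → |x| ≤ c →
      |(Sig.Q c k).eval x - ((SignType.sign x : SignType) : ℝ)| ≤ ε := by
  have ha' : 0 < min a 1 := lt_min ha one_pos
  have hc0 : 0 < c := by linarith
  have hq0 : 0 ≤ 1 - (min a 1) ^ 2 / c ^ 2 := by
    rw [sub_nonneg, div_le_one (by positivity)]
    exact pow_le_pow_left₀ ha'.le ((min_le_right _ _).trans hc.le) 2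
  have hq1 : 1 - (min a 1) ^ 2 / c ^ 2 < 1 := by
    have : 0 < (min a 1) ^ 2 / c ^ 2 := by positivity
    linarith
  have h1 := (tendsto_order.1 (tendsto_dexp 1 _ zero_le_one hq0 hq1)).2 ε hε
  filter_upwards [h1] with k hk x hx hx'
  refine (appr_Q ha' k x ((min_le_left _ _).trans hx) hx').trans ?_
  rw [one_pow, one_mul] at hk
  exact hk.le

theorem diff_of_signSeq {P : ℕ → ℝ[X]} (hP : SignSeq P) {c : ℝ} (hc : 1 < c) :
    ∀ a ε : ℝ, 0 < a → 0 < ε → ∀ᶠ k in atTop, ∀ x : ℝ, a ≤ |x| → |x| ≤ c →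
      |(P k).eval x - (Sig.Q c k).eval x| ≤ ε := by
  intro a ε ha hε
  filter_upwards [hP a c (ε / 2) ha (by positivity), signSeq_Q ha hc (ε / 2) (by positivity)]
    with k h1 h2 x hx hx'
  calc |(P k).eval x - (Sig.Q c k).eval x| = |((P k).eval x - ((SignType.sign x : SignType) : ℝ)) -
        ((Sig.Q c k).eval x - ((SignType.sign x : SignType) : ℝ))| := by
          congr 1
          ring
    _ ≤ _ := abs_sub _ _
    _ ≤ ε / 2 + ε / 2 := add_le_add (h1 x hx hx') (h2 x hx hx')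
    _ = ε := by ring

theorem PD.lim_of_Q {b S T p s : Matrix ι ι (MonoidAlgebra ℂ G)} (h : PD b S T p s) {c : ℝ}
    (hc : 1 < c) (hA : L1 (b + adj b + S) ≤ c) {x : ℂ}
    (hx : Tendsto (fun k => tau (aeval (b + adj b + S) (Sig.Q c k))) atTop (nhds x)) :
    Lim (b + adj b + S) x := by
  intro P hP
  have h1 := (h.diff hA (diff_of_signSeq hP hc)).add hx
  rw [zero_add] at h1
  refine h1.congr fun k => ?_
  ring

theorem PD.Q_of_lim {b S T p s : Matrix ι ι (MonoidAlgebra ℂ G)} (h : PD b S T p s) {c : ℝ}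
    (hc : 1 < c) (hA : L1 (b + adj b + S) ≤ c) {x : ℂ} (hx : Lim (b + adj b + S) x) :
    Tendsto (fun k => tau (aeval (b + adj b + S) (Sig.Q c k))) atTop (nhds x) := by
  obtain ⟨P, hP⟩ := exists_signSeq
  have h1 := (hx P hP).sub (h.diff hA (diff_of_signSeq hP hc))
  rw [sub_zero] at h1
  refine h1.congr fun k => ?_
  ring

theorem L2S.lim {G : Type} [Group G] (hG : L2S G) {b S T p s : Matrix ι ι (MonoidAlgebra ℂ G)}
    (h : PD b S T p s) : Lim (b + adj b + S) ((sig (aug (b + adj b + S)) : ℤ) : ℂ) := by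
  have h0 := L1_nonneg (b + adj b + S)
  have hc : 1 < L1 (b + adj b + S) + 2 := by linarith
  exact h.lim_of_Q hc (by linarith) (hG ι b S T p s h _ hc (by linarith))

theorem L2S.of_lim {G : Type} [Group G] (hG : ∀ (ι : Type) [Fintype ι] [DecidableEq ι]
    (b S T p s : Matrix ι ι (MonoidAlgebra ℂ G)), PD b S T p s →
      Lim (b + adj b + S) ((sig (aug (b + adj b + S)) : ℤ) : ℂ)) : L2S G :=
  fun ι _ _ b S T p s h _ hc hA => h.Q_of_lim hc hA (hG ι b S T p s h)

/-- images of complexes -/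
theorem PD.map (F : Matrix ι ι (MonoidAlgebra ℂ G) →ₐ[ℂ] Matrix κ κ (MonoidAlgebra ℂ H))
    (hF : ∀ X, adj (F X) = F (adj X)) {b S T p s : Matrix ι ι (MonoidAlgebra ℂ G)}
    (h : PD b S T p s) : PD (F b) (F S) (F T) (F p) (F s) := by
  constructor
  · rw [← map_mul, h.bb, map_zero]
  · rw [hF, h.SS]
  · rw [hF, ← map_mul, ← map_mul, ← map_add, h.bS, map_zero]
  · rw [hF, ← map_mul, ← map_mul, ← map_add, h.bT, map_zero]
  · rw [← map_mul, ← map_mul, ← map_mul, ← map_add, ← map_add, h.hp, map_one]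
  · rw [hF, ← map_mul, ← map_mul, ← map_mul, ← map_add, ← map_add, h.hs, map_one]

section finiteIndex

variable {X : Type} [Fintype X] [DecidableEq X]

theorem tau_resM (D : Subgroup G) (r : X → G) (hr : Tr D r)
    (A : Matrix ι ι (MonoidAlgebra ℂ G)) : tau (resM D r hr A) = Fintype.card X * tau A := by
  unfold tau
  rw [Fintype.sum_prod_type, Finset.mul_sum]
  refine Finset.sum_congr rfl fun i _ => ?_
  have h1 : ∀ x : X, (resM D r hr A (i, x) (i, x)).coeff 1 = (A i i).coeff 1 := by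
    intro x
    rw [resM_coeff]
    congr 1
    show r x * ((1 : D) : G) * (r x)⁻¹ = 1
    rw [Subgroup.coe_one]
    group
  rw [Finset.sum_congr rfl fun x _ => h1 x, Finset.sum_const, Finset.card_univ, nsmul_eq_mul]

theorem adj_resM (D : Subgroup G) (r : X → G) (hr : Tr D r)
    (A : Matrix ι ι (MonoidAlgebra ℂ G)) : adj (resM D r hr A) = resM D r hr (adj A) := by
  ext p q d
  rw [adj_coeff, resM_coeff, resM_coeff, adj_coeff]
  congr 2
  rw [Subgroup.coe_inv]
  group

theorem aeval_resM (D : Subgroup G) (r : X → G) (hr : Tr D r)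
    (A : Matrix ι ι (MonoidAlgebra ℂ G)) (P : ℝ[X]) :
    aeval (resM D r hr A) P = resM D r hr (aeval A P) :=
  aeval_algHom_apply ((resM D r hr).restrictScalars ℝ) A P

/-- the signature of the restriction to a subgroup of finite index in the class -/
theorem L2S.res {G : Type} [Group G] {D : Subgroup G} (hD : L2S D) (r : X → G) (hr : Tr D r)
    {b S T p s : Matrix ι ι (MonoidAlgebra ℂ G)} (h : PD b S T p s) {P : ℕ → ℝ[X]}
    (hP : SignSeq P) : Tendsto (fun k => Fintype.card X * tau (aeval (b + adj b + S) (P k)))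
      atTop (nhds ((sig (aug (resM D r hr (b + adj b + S))) : ℤ) : ℂ)) := by
  have h1 := hD.lim (h.map (resM D r hr) (adj_resM D r hr)) P hP
  have h2 : resM D r hr b + adj (resM D r hr b) + resM D r hr S =
      resM D r hr (b + adj b + S) := by
    rw [adj_resM, ← map_add, ← map_add]
  rw [h2] at h1
  refine h1.congr fun k => ?_
  rw [aeval_resM, tau_resM]

/-- signatures of permutation representations -/
theorem sig_ind_one {D : Subgroup G} (r : X → G) (hr : Tr D r)
    {A : Matrix ι ι (MonoidAlgebra ℂ G)} {a b : ℝ} (ha : 0 < a) (hA : Herm A) (hg : GapA A a b) :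
    sig (ev (indRep D r hr ((1 : G →* Matrix Unit Unit ℂ).comp D.subtype)) A) =
      sig (aug (resM D r hr A)) := by
  rw [sig_ind D r hr ha hA hg (isU_sub isU_one)]
  have h4 := sig_ev_const ha (herm_resM D r hr hA) (gapA_resM D r hr hg)
    (ρ := ((1 : G →* Matrix Unit Unit ℂ).comp D.subtype)) (isU_sub isU_one) (by
    intro g
    rw [MonoidHom.comp_apply, MonoidHom.one_apply, trace_one])
  rw [Fintype.card_unit, Nat.cast_one, one_mul] at h4
  exact h4

theorem sig_one {A : Matrix ι ι (MonoidAlgebra ℂ G)} {a b : ℝ} (ha : 0 < a) (hA : Herm A)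
    (hg : GapA A a b) : sig (ev (1 : G →* Matrix Unit Unit ℂ) A) = sig (aug A) := by
  have h4 := sig_ev_const ha hA hg (ρ := (1 : G →* Matrix Unit Unit ℂ)) isU_one (by
    intro g
    rw [MonoidHom.one_apply, trace_one])
  rw [Fintype.card_unit, Nat.cast_one, one_mul] at h4
  exact h4

/-- Artin induction -/
theorem L2S.of_artin {G : Type} [Group G] {I : Type*} (s : Finset I) (c : I → ℝ)
    (D : I → Subgroup G) (X : I → Type) [∀ i, Fintype (X i)] [∀ i, DecidableEq (X i)]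
    (r : ∀ i, X i → G) (hr : ∀ i, Tr (D i) (r i)) (hD : ∀ i, L2S (D i))
    (h : ∀ g : G, ∑ i ∈ s, (c i : ℂ) * fix (D i) (r i) g = 1) : L2S G := by
  classical
  refine L2S.of_lim fun ι _ _ b S T p s' hP P hPs => ?_
  set A := b + adj b + S with hA
  obtain ⟨a, ha, hg⟩ := gapA_complex hP.bb hP.SS hP.bS hP.bT hP.hp hP.hs
  rw [← hA] at hg
  have hH : Herm A := herm_of_adj hP.adj_A
  have h1 := sig_lin (ev (1 : G →* Matrix Unit Unit ℂ) A) s c (fun i => ι × (X i × Unit))
    (fun i => ev (indRep (D i) (r i) (hr i) ((1 : G →* Matrix Unit Unit ℂ).comp (D i).subtype)) A)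
    ha (hH.ev isU_one)
    (hg _ _ isU_one) (fun i _ => hH.ev (isU_indRep _ _ _ (isU_sub isU_one)))
    (fun i _ => hg _ _ (isU_indRep _ _ _ (isU_sub isU_one))) (by
      intro P
      simp only [aeval_ev, trace_ev, trace_indRep]
      rw [T_sum_mul]
      congr 2
      funext g
      simp only [← mul_assoc]
      rw [← Finset.sum_mul, h g, one_mul])
  rw [sig_one ha hH hg] at h1
  have h2 : (sig (aug A) : ℝ) = ∑ i ∈ s, c i * (sig (aug (resM (D i) (r i) (hr i) A)) : ℝ) := by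
    rw [h1]
    refine Finset.sum_congr rfl fun i _ => ?_
    rw [sig_ind_one (r i) (hr i) ha hH hg]
  -- the sum of the degrees
  have h3 : ∑ i ∈ s, (c i : ℂ) * Fintype.card (X i) = 1 := by
    rw [← h 1]
    refine Finset.sum_congr rfl fun i _ => ?_
    congr 1
    unfold fix
    have h4 : ∀ x : X i, (if (r i x)⁻¹ * 1 * r i x ∈ D i then (1 : ℂ) else 0) = 1 := by
      intro x
      rw [mul_one, inv_mul_cancel, if_pos (D i).one_mem]
    rw [Finset.sum_congr rfl fun x _ => h4 x, Finset.sum_const, Finset.card_univ, nsmul_eq_mul,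
      mul_one]
  have h4 : Tendsto (fun k => ∑ i ∈ s, (c i : ℂ) * (Fintype.card (X i) * tau (aeval A (P k))))
      atTop (nhds (∑ i ∈ s, (c i : ℂ) * ((sig (aug (resM (D i) (r i) (hr i) A)) : ℤ) : ℂ))) :=
    tendsto_finsetSum _ fun i _ => ((hD i).res (r i) (hr i) hP hPs).const_mul _
  have h5 : (∑ i ∈ s, (c i : ℂ) * ((sig (aug (resM (D i) (r i) (hr i) A)) : ℤ) : ℂ)) =
      ((sig (aug A) : ℤ) : ℂ) := by
    have h6 := congrArg (fun x : ℝ => (x : ℂ)) h2
    simp only [Complex.ofReal_sum, Complex.ofReal_mul, Complex.ofReal_intCast] at h6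
    exact h6.symm
  rw [h5] at h4
  refine h4.congr fun k => ?_
  rw [Finset.sum_congr rfl fun i _ => (mul_assoc _ _ _).symm, ← Finset.sum_mul, h3, one_mul]

end finiteIndex

end Pool.Agent.H748.Hom
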