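import Pool.Agent.H748.Hom.Bet
import Pool.Agent.H748.Hom.Fdim2

/-!
# Consequences for the Betti numbers outside the middle degree
-/

set_option autoImplicit false
set_option linter.unusedSectionVars false

namespace Pool.Agent.H748.Hom

open Matrix Polynomial Filter Pool.Agent.H748.Sig Pool.Agent.H748.Art

/-- the alternating sum and the middle term -/
theorem alt_le {R : Type*} [CommRing R] [LinearOrder R] [IsStrictOrderedRing R] (m : ℕ)
    (β : ℕ → R) (h0 : ∀ i, 0 ≤ β i) :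
    β m - (-1) ^ m * ∑ i ∈ Finset.range (2 * m + 1), (-1) ^ i * β i ≤
      ∑ i ∈ (Finset.range (2 * m + 1)).filter (fun i => i % 2 ≠ m % 2), β i := by
  classical
  have h1 : (-1 : R) ^ m * ∑ i ∈ Finset.range (2 * m + 1), (-1) ^ i * β i =
      ∑ i ∈ (Finset.range (2 * m + 1)).filter (fun i => ¬ i % 2 ≠ m % 2), β i -
      ∑ i ∈ (Finset.range (2 * m + 1)).filter (fun i => i % 2 ≠ m % 2), β i := by
    rw [← Finset.sum_filter_add_sum_filter_not (Finset.range (2 * m + 1))
      (fun i => i % 2 ≠ m % 2), mul_add, Finset.mul_sum, Finset.mul_sum]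
    have e1 : ∑ i ∈ (Finset.range (2 * m + 1)).filter (fun i => i % 2 ≠ m % 2),
        (-1 : R) ^ m * ((-1) ^ i * β i) =
        -∑ i ∈ (Finset.range (2 * m + 1)).filter (fun i => i % 2 ≠ m % 2), β i := by
      rw [← Finset.sum_neg_distrib]
      refine Finset.sum_congr rfl fun i hi => ?_
      have h2 := (Finset.mem_filter.1 hi).2
      rw [← mul_assoc, ← pow_add, Odd.neg_one_pow (by
        rw [Nat.odd_iff]
        omega), neg_one_mul]
    have e2 : ∑ i ∈ (Finset.range (2 * m + 1)).filter (fun i => ¬ i % 2 ≠ m % 2),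
        (-1 : R) ^ m * ((-1) ^ i * β i) =
        ∑ i ∈ (Finset.range (2 * m + 1)).filter (fun i => ¬ i % 2 ≠ m % 2), β i := by
      refine Finset.sum_congr rfl fun i hi => ?_
      have h2 := (Finset.mem_filter.1 hi).2
      rw [← mul_assoc, ← pow_add, Even.neg_one_pow (by
        rw [Nat.even_iff]
        omega), one_mul]
    rw [e1, e2]
    ring
  have h2 : β m ≤ ∑ i ∈ (Finset.range (2 * m + 1)).filter (fun i => ¬ i % 2 ≠ m % 2), β i :=
    Finset.single_le_sum (f := β) (fun i _ => h0 i)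
      (Finset.mem_filter.2 ⟨Finset.mem_range.2 (by omega), by simp⟩)
  rw [h1]
  linarith

theorem IsL2Betti.unique {G : Type} [Group G] {n : ℕ}
    {b : Matrix (Fin n) (Fin n) (MonoidAlgebra ℂ G)} {deg : Fin n → ℕ} {i : ℕ} {x y : ℝ}
    (hx : IsL2Betti b deg i x) (hy : IsL2Betti b deg i y) : x = y := by
  have hL := L1_nonneg (b + adj b)
  exact tendsto_nhds_unique (hx (L1 (b + adj b) + 1) (by linarith) (by linarith))
    (hy (L1 (b + adj b) + 1) (by linarith) (by linarith))

/-- the final statement for all groups with `L²`-signature = signature -/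
theorem L2S.singer {G : Type} [Group G] (hG : L2S G) {n : ℕ}
    {b S : Matrix (Fin n) (Fin n) (MonoidAlgebra ℂ G)} (h : IsPoincare b S) {deg : Fin n → ℕ}
    {m : ℕ} (hdeg : ∀ j, deg j ≤ 2 * m) (hb : ∀ i j, b i j ≠ 0 → deg j = deg i + 1)
    (hS : ∀ i j, S i j ≠ 0 → deg i + deg j = 2 * m) :
    (∃! β : ℕ → ℝ, ∀ i, IsL2Betti b deg i (β i)) ∧
    (∀ β : ℕ → ℝ, (∀ i, IsL2Betti b deg i (β i)) →
      (∀ i, 0 ≤ β i) ∧
      ∑ i ∈ Finset.range (2 * m + 1), (-1) ^ i * β i = ∑ j, (-1) ^ deg j ∧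
      |(augSignature b S : ℝ)| ≤ β m ∧
      |(augSignature b S : ℝ)| - (-1) ^ m * ∑ j, (-1) ^ deg j ≤
        ∑ i ∈ (Finset.range (2 * m + 1)).filter (fun i => i % 2 ≠ m % 2), β i ∧
      ((∀ i, i ≠ m → β i = 0) →
        |(augSignature b S : ℝ)| ≤ (-1) ^ m * ∑ j, (-1) ^ deg j)) ∧
    (∀ (d : ℕ) (ρ : G →* unitaryGroup (Fin d) ℂ),
      d * |augSignature b S| ≤ cohDim (fun g => (ρ g).val) b deg m ∧
      d * (|augSignature b S| - (-1) ^ m * ∑ j, (-1) ^ deg j) ≤
        ∑ i ∈ (Finset.range (2 * m + 1)).filter (fun i => i % 2 ≠ m % 2),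
          cohDim (fun g => (ρ g).val) b deg i) := by
  have hg : Grd b S deg m := ⟨hb, hS⟩
  refine ⟨?_, ?_, ?_⟩
  · choose β hβ0 hβ using fun i => hg.exists_betti h.1 i
    refine ⟨β, hβ, fun γ hγ => ?_⟩
    funext i
    exact (hγ i).unique (hβ i)
  · intro β hβ
    have h0 : ∀ i, 0 ≤ β i := by
      intro i
      obtain ⟨x, hx0, hx⟩ := hg.exists_betti h.1 i
      rw [(hβ i).unique hx]
      exact hx0
    have h1 := hg.euler h.1 hdeg hβ
    have h2 := hG.ineq h hg (hβ m)
    have h3 := alt_le m β h0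
    rw [h1] at h3
    refine ⟨h0, h1, h2, by linarith, fun hq => ?_⟩
    have h4 : ∑ i ∈ (Finset.range (2 * m + 1)).filter (fun i => i % 2 ≠ m % 2), β i = 0 := by
      refine Finset.sum_eq_zero fun i hi => hq i fun h5 => ?_
      rw [h5] at hi
      exact (Finset.mem_filter.1 hi).2 rfl
    rw [h4] at h3
    linarith
  · intro d ρ
    have h1 : (d : ℤ) * |augSignature b S| ≤ cohDim (fun g => (ρ g).val) b deg m := by
      have h2 := cohSignature_le h hb hS ρ
      rw [(hG.fin h).1 d ρ, abs_mul, Nat.abs_cast] at h2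
      exact h2
    refine ⟨h1, ?_⟩
    have h3 := alt_le m (fun i => cohDim (fun g => (ρ g).val) b deg i)
      (fun i => cohDim_nonneg h.1 deg ρ i)
    have h4 := cohDim_euler hb hdeg (fun g => (ρ g).val)
    rw [h4] at h3
    have h5 : (d : ℤ) * (|augSignature b S| - (-1) ^ m * ∑ j, (-1) ^ deg j) =
        d * |augSignature b S| - (-1) ^ m * (d * ∑ j, (-1) ^ deg j) := by ring
    rw [h5]
    linarith

end Pool.Agent.H748.Hom
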