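import Pool.Agent.H748.Hom.Ext

/-!
# The gap of `b + b* + t S` is linear in `t`; the sign
-/

set_option autoImplicit false
set_option linter.unusedSectionVars false

namespace Pool.Agent.H748.Hom

open Matrix Polynomial Filter Pool.Agent.H748.Sig Pool.Agent.H748.Art
open scoped InnerProductSpace

section op

variable {V : Type*} [NormedAddCommGroup V] [InnerProductSpace ℂ V]

theorem re_anti {z w : ℂ} (h : z = -(starRingEnd ℂ) w) (h' : w = z) : z.re = 0 := by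
  rw [h'] at h
  have e3 := congrArg Complex.re h
  rw [Complex.neg_re, Complex.conj_re] at e3
  linarith

theorem norm_gap_t {B B' S T s : Module.End ℂ V} (hB : ∀ v w : V, ⟪B v, w⟫_ℂ = ⟪v, B' w⟫_ℂ)
    (hS : Sym S) (hbb : B * B = 0) (hbS : B * S + S * B' = 0) (hT : B' * T + T * B = 0)
    (hs : B' * s + s * B' + T * S = 1) {κ : ℝ} (hκ : 0 ≤ κ) (bS : Bd S κ) (bT : Bd T κ)
    (bs : Bd s κ) {t : ℝ} (ht : 0 < t) (ht1 : t ≤ 1) (v : V) :
    t * ‖v‖ ≤ (4 * κ + 4 * κ ^ 3) * ‖(B + B' + (t : ℂ) • S) v‖ := by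
  set y := B v + (t : ℂ) • S v with hy
  set z := B' v with hz
  have htc : (t : ℂ) ≠ 0 := by exact_mod_cast ht.ne'
  have hB' : ∀ v w : V, ⟪B' v, w⟫_ℂ = ⟪v, B w⟫_ℂ := by
    intro v w
    rw [← inner_conj_symm, ← hB, inner_conj_symm]
  have hanti : ∀ u : V, (⟪S u, B' u⟫_ℂ).re = 0 := by
    intro u
    have e2 : ⟪S u, B' u⟫_ℂ = -(starRingEnd ℂ) ⟪S u, B' u⟫_ℂ := by
      conv_lhs => rw [← hB, ← Module.End.mul_apply, eq_neg_of_add_eq_zero_left hbS,
        LinearMap.neg_apply, inner_neg_left, Module.End.mul_apply, hS]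
      rw [inner_conj_symm]
    exact re_anti e2 rfl
  -- orthogonality
  have ho : (⟪y, z⟫_ℂ).re = 0 := by
    have e1 : ⟪B v, B' v⟫_ℂ = 0 := by
      rw [← hB, ← Module.End.mul_apply, hbb, LinearMap.zero_apply, inner_zero_left]
    rw [hy, hz, inner_add_left, e1, zero_add, inner_smul_left, Complex.conj_ofReal,
      Complex.re_ofReal_mul, hanti, mul_zero]
  have hA : (B + B' + (t : ℂ) • S) v = y + z := by
    rw [LinearMap.add_apply, LinearMap.add_apply, LinearMap.smul_apply, hy, hz]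
    abel
  have hn : ‖(B + B' + (t : ℂ) • S) v‖ ^ 2 = ‖y‖ ^ 2 + ‖z‖ ^ 2 := by
    rw [hA, @norm_add_sq ℂ]
    have : RCLike.re ⟪y, z⟫_ℂ = 0 := ho
    rw [this]
    ring
  set N := ‖(B + B' + (t : ℂ) • S) v‖ with hN
  have hN0 : 0 ≤ N := norm_nonneg _
  have hyN : ‖y‖ ≤ N := by
    apply norm_le_of_sq hN0
    rw [hn]
    have := sq_nonneg ‖z‖
    linarith
  have hzN : ‖z‖ ≤ N := by
    apply norm_le_of_sq hN0
    rw [hn]
    have := sq_nonneg ‖y‖
    linarith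
  -- the decomposition
  set u := ((t⁻¹ : ℝ) : ℂ) • T v + s v with hu
  set e := ((t⁻¹ : ℝ) : ℂ) • T y + s z with he
  have hdec : v = B' u + e := by
    have h1 := LinearMap.congr_fun hs v
    have h2 := LinearMap.congr_fun hT v
    simp only [LinearMap.add_apply, Module.End.mul_apply, Module.End.one_apply,
      LinearMap.zero_apply] at h1 h2
    have h3 : ((t⁻¹ : ℝ) : ℂ) * (t : ℂ) = 1 := by
      push_cast
      exact inv_mul_cancel₀ htc
    rw [hu, he, hy, hz, map_add, map_smul, map_add, map_smul, smul_add, smul_smul, h3, one_smul]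
    nth_rewrite 1 [← h1]
    have h4 : ((t⁻¹ : ℝ) : ℂ) • B' (T v) + ((t⁻¹ : ℝ) : ℂ) • T (B v) = 0 := by
      rw [← smul_add, h2, smul_zero]
    calc B' (s v) + s (B' v) + T (S v) =
        (((t⁻¹ : ℝ) : ℂ) • B' (T v) + ((t⁻¹ : ℝ) : ℂ) • T (B v)) +
          (B' (s v) + s (B' v) + T (S v)) := by rw [h4, zero_add]
      _ = _ := by abel
  have hid : ‖v‖ ^ 2 = (⟪y, u⟫_ℂ).re - t * (⟪e, S u⟫_ℂ).re + (⟪v, e⟫_ℂ).re := by
    have h1 : ⟪v, v⟫_ℂ = ⟪y, u⟫_ℂ - (t : ℂ) * ⟪S v, u⟫_ℂ + ⟪v, e⟫_ℂ := by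
      nth_rewrite 2 [hdec]
      rw [inner_add_right, ← hB]
      have h2 : B v = y - (t : ℂ) • S v := by rw [hy, add_sub_cancel_right]
      rw [h2, inner_sub_left, inner_smul_left, Complex.conj_ofReal]
    have h3 : (⟪S v, u⟫_ℂ).re = (⟪e, S u⟫_ℂ).re := by
      have h4 : ⟪S v, u⟫_ℂ = ⟪v, S u⟫_ℂ := hS v u
      rw [h4]
      nth_rewrite 1 [hdec]
      rw [inner_add_left, Complex.add_re]
      have h5 : (⟪B' u, S u⟫_ℂ).re = 0 := by
        rw [← inner_conj_symm, Complex.conj_re]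
        exact hanti u
      rw [h5, zero_add]
    have h6 : (⟪v, v⟫_ℂ).re = ‖v‖ ^ 2 := by
      rw [inner_self_eq_norm_sq_to_K]
      simp only [Complex.coe_algebraMap]
      rw [← Complex.ofReal_pow, Complex.ofReal_re]
    rw [← h6, h1, Complex.add_re, Complex.sub_re, Complex.re_ofReal_mul, h3]
  -- bounds
  have hti : ‖((t⁻¹ : ℝ) : ℂ)‖ = t⁻¹ := by
    rw [Complex.norm_real, Real.norm_eq_abs, abs_of_pos (inv_pos.2 ht)]
  have ht1' : 1 ≤ t⁻¹ := (one_le_inv₀ ht).2 ht1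
  have hub : ‖u‖ ≤ 2 * κ * t⁻¹ * ‖v‖ := by
    calc ‖u‖ ≤ ‖((t⁻¹ : ℝ) : ℂ) • T v‖ + ‖s v‖ := norm_add_le _ _
      _ ≤ t⁻¹ * (κ * ‖v‖) + κ * ‖v‖ := by
          rw [norm_smul, hti]
          exact add_le_add (mul_le_mul_of_nonneg_left (bT v) (inv_nonneg.2 ht.le)) (bs v)
      _ ≤ t⁻¹ * (κ * ‖v‖) + t⁻¹ * (κ * ‖v‖) := by
          have : 0 ≤ κ * ‖v‖ := by positivity
          nlinarith
      _ = _ := by ring
  have heb : ‖e‖ ≤ 2 * κ * t⁻¹ * N := by
    calc ‖e‖ ≤ ‖((t⁻¹ : ℝ) : ℂ) • T y‖ + ‖s z‖ := norm_add_le _ _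
      _ ≤ t⁻¹ * (κ * ‖y‖) + κ * ‖z‖ := by
          rw [norm_smul, hti]
          exact add_le_add (mul_le_mul_of_nonneg_left (bT y) (inv_nonneg.2 ht.le)) (bs z)
      _ ≤ t⁻¹ * (κ * N) + t⁻¹ * (κ * N) := by
          have h1 : κ * ‖z‖ ≤ κ * N := mul_le_mul_of_nonneg_left hzN hκ
          have h2 : κ * ‖y‖ ≤ κ * N := mul_le_mul_of_nonneg_left hyN hκ
          have h3 : 0 ≤ κ * N := by positivity
          have h4 : t⁻¹ * (κ * ‖y‖) ≤ t⁻¹ * (κ * N) :=
            mul_le_mul_of_nonneg_left h2 (inv_nonneg.2 ht.le)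
          nlinarith
      _ = _ := by ring
  have b1 : (⟪y, u⟫_ℂ).re ≤ N * (2 * κ * t⁻¹ * ‖v‖) := by
    refine (Complex.re_le_norm _).trans ((norm_inner_le_norm _ _).trans ?_)
    exact mul_le_mul hyN hub (norm_nonneg _) hN0
  have b2 : -(t * (⟪e, S u⟫_ℂ).re) ≤ t * ((2 * κ * t⁻¹ * N) * (κ * (2 * κ * t⁻¹ * ‖v‖))) := by
    rw [← mul_neg]
    refine mul_le_mul_of_nonneg_left ?_ ht.le
    have h1 := (abs_le.1 (Complex.abs_re_le_norm ⟪e, S u⟫_ℂ)).1
    have h2 : ‖⟪e, S u⟫_ℂ‖ ≤ (2 * κ * t⁻¹ * N) * (κ * (2 * κ * t⁻¹ * ‖v‖)) := by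
      refine (norm_inner_le_norm _ _).trans ?_
      refine mul_le_mul heb ((bS u).trans (mul_le_mul_of_nonneg_left hub hκ)) (norm_nonneg _) ?_
      positivity
    linarith
  have b3 : (⟪v, e⟫_ℂ).re ≤ ‖v‖ * (2 * κ * t⁻¹ * N) := by
    refine (Complex.re_le_norm _).trans ((norm_inner_le_norm _ _).trans ?_)
    exact mul_le_mul_of_nonneg_left heb (norm_nonneg _)
  have hfin : ‖v‖ ^ 2 ≤ t⁻¹ * ((4 * κ + 4 * κ ^ 3) * N) * ‖v‖ := by
    have h1 : t * ((2 * κ * t⁻¹ * N) * (κ * (2 * κ * t⁻¹ * ‖v‖))) =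
        t⁻¹ * (4 * κ ^ 3 * N) * ‖v‖ := by
      field_simp
      ring
    rw [h1] at b2
    rw [hid]
    calc _ ≤ N * (2 * κ * t⁻¹ * ‖v‖) + t⁻¹ * (4 * κ ^ 3 * N) * ‖v‖ + ‖v‖ * (2 * κ * t⁻¹ * N) := by
          linarith
      _ = _ := by ring
  rcases (norm_nonneg v).lt_or_eq with h0 | h0
  · have h1 : ‖v‖ * ‖v‖ ≤ (t⁻¹ * ((4 * κ + 4 * κ ^ 3) * N)) * ‖v‖ := by nlinarith
    have h2 := le_of_mul_le_mul_right h1 h0
    rw [inv_mul_eq_div, le_div_iff₀ ht] at h2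
    linarith
  · rw [← h0, mul_zero]
    positivity

end op

variable {G : Type} [Group G]
variable {ι : Type} [Fintype ι] [DecidableEq ι]

/-- the gap of the family -/
noncomputable def gpt (κ : ℝ) : ℝ := 1 / (4 * κ + 4 * κ ^ 3 + 1)

theorem gpt_pos {κ : ℝ} (hκ : 0 ≤ κ) : 0 < gpt κ := by
  unfold gpt
  positivity

theorem PD.gap_t {b S T p s : Matrix ι ι (MonoidAlgebra ℂ G)} (h : PD b S T p s) {κ : ℝ}
    (hκ : 0 ≤ κ) (hS : L1 S ≤ κ) (hT : L1 T ≤ κ) (hs : L1 s ≤ κ) {t : ℝ} (ht : 0 < t)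
    (ht1 : t ≤ 1) (v : Vc ι G) :
    gpt κ * t * ‖v‖ ≤ ‖act (b + adj b + (t : ℂ) • S) v‖ := by
  have h1 := norm_gap_t (B := act b) (B' := act (adj b)) (S := act S) (T := act T) (s := act s)
    (fun v w => inner_act b v w) (sym_act h.SS) (by rw [← map_mul, h.bb, map_zero])
    (by rw [← map_mul, ← map_mul, ← map_add, h.bS, map_zero])
    (by rw [← map_mul, ← map_mul, ← map_add, h.bT, map_zero])
    (by rw [← map_mul, ← map_mul, ← map_mul, ← map_add, ← map_add, h.hs, map_one]) hκ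
    ((bd_actL S).mono hS) ((bd_actL T).mono hT) ((bd_actL s).mono hs) ht ht1 v
  have h2 : act (b + adj b + (t : ℂ) • S) = act b + act (adj b) + (t : ℂ) • act S := by
    rw [map_add, map_add, map_smul]
  rw [h2]
  set n := ‖(act b + act (adj b) + (t : ℂ) • act S) v‖ with hn
  have hn0 : 0 ≤ n := norm_nonneg _
  unfold gpt
  rw [mul_assoc, div_mul_eq_mul_div, one_mul, div_le_iff₀ (by positivity)]
  nlinarith

/-- the scaled complex -/
theorem PD.scale {b S T p s : Matrix ι ι (MonoidAlgebra ℂ G)} (h : PD b S T p s) {t : ℝ}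
    (ht : 0 < t) : PD b ((t : ℂ) • S) (((t⁻¹ : ℝ) : ℂ) • T) p s := by
  have htc : (t : ℂ) ≠ 0 := by exact_mod_cast ht.ne'
  have h3 : (t : ℂ) * ((t⁻¹ : ℝ) : ℂ) = 1 := by
    push_cast
    exact mul_inv_cancel₀ htc
  have h4 : ((t⁻¹ : ℝ) : ℂ) * (t : ℂ) = 1 := by rw [mul_comm, h3]
  constructor
  · exact h.bb
  · have h5 : adj ((t : ℂ) • S) = (t : ℂ) • adj S := by
      ext i j : 1
      show adjE ((t : ℂ) • S j i) = (t : ℂ) • adjE (S j i)
      rw [adjE_smul, Complex.star_def, Complex.conj_ofReal]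
    rw [h5, h.SS]
  · rw [mul_smul_comm, smul_mul_assoc, ← smul_add, h.bS, smul_zero]
  · rw [mul_smul_comm, smul_mul_assoc, ← smul_add, h.bT, smul_zero]
  · rw [smul_mul_smul_comm, h3, one_smul, h.hp]
  · rw [smul_mul_smul_comm, h4, one_smul, h.hs]

/-- lower bounds on the Hilbert space -/
theorem ext_lower {A : Matrix ι ι (MonoidAlgebra ℂ G)} {a : ℝ}
    (h : ∀ v : Vc ι G, a * ‖v‖ ≤ ‖act A v‖) (w : HS ι G) : a * ‖w‖ ≤ ‖ext A w‖ := by
  refine UniformSpace.Completion.induction_on w (isClosed_le (by fun_prop) (by fun_prop))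
    fun v => ?_
  rw [ext_coe, UniformSpace.Completion.norm_coe, UniformSpace.Completion.norm_coe]
  exact h v

theorem ext_norm_le (A : Matrix ι ι (MonoidAlgebra ℂ G)) : ‖ext A‖ ≤ L1 A := by
  refine ContinuousLinearMap.opNorm_le_bound _ (L1_nonneg A) fun w => ?_
  refine UniformSpace.Completion.induction_on w (isClosed_le (by fun_prop) (by fun_prop))
    fun v => ?_
  rw [ext_coe, UniformSpace.Completion.norm_coe, UniformSpace.Completion.norm_coe]
  exact bd_actL A v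

theorem ext_sa {A : Matrix ι ι (MonoidAlgebra ℂ G)} (h : adj A = A) : IsSelfAdjoint (ext A) := by
  show star (ext A) = ext A
  rw [ext_adj, h]

theorem ext_spec {A : Matrix ι ι (MonoidAlgebra ℂ G)} (hA : adj A = A) {a : ℝ}
    (h : ∀ v : Vc ι G, a * ‖v‖ ≤ ‖act A v‖) {x : ℝ} (hx : x ∈ spectrum ℝ (ext A)) : a ≤ |x| :=
  (spec_gap (ext_sa hA) (ext_lower h) (fun w => (ext A).le_of_opNorm_le (ext_norm_le A) w) hx).1

theorem T_close {B : Type*} [CStarAlgebra B] [PartialOrder B] [StarOrderedRing B] (τ : TrS B)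
    {X : B} (hX : IsSelfAdjoint X) {f g : ℝ → ℝ} (hf : Continuous f) (hg : Continuous g) {ε : ℝ}
    (hfg : ∀ x ∈ spectrum ℝ X, |f x - g x| ≤ ε) :
    |τ.T (cfc f X) - τ.T (cfc g X)| ≤ ε * τ.T 1 := by
  have h1 := T_mono' τ hX hf hg (ε := ε) fun x hx => by
    have := (abs_le.1 (hfg x hx)).2
    linarith
  have h2 := T_mono' τ hX hg hf (ε := ε) fun x hx => by
    have := (abs_le.1 (hfg x hx)).1
    linarith
  rw [abs_le]
  constructor <;> linarith

theorem sgn_eq {a x : ℝ} (ha : 0 < a) {g : ℝ → ℝ} (hg1 : ∀ x, a ≤ x → g x = 1)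
    (hg0 : ∀ x, x ≤ -a → g x = 0) (hx : a ≤ |x|) :
    ((SignType.sign x : SignType) : ℝ) = 2 * g x - 1 := by
  rcases le_abs.1 hx with h6 | h6
  · rw [sign_pos (by linarith), hg1 x h6, SignType.coe_one]
    norm_num
  · rw [sign_neg (by linarith), hg0 x (by linarith), SignType.coe_neg_one]
    norm_num

/-- the trace of the positive spectral projection -/
theorem T_sign {A : Matrix ι ι (MonoidAlgebra ℂ G)} (hA : adj A = A) {a : ℝ} (ha : 0 < a)
    (h : ∀ v : Vc ι G, a * ‖v‖ ≤ ‖act A v‖) {x : ℝ} (hx : Lim A (x : ℂ)) {g : ℝ → ℝ}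
    (hg : Continuous g) (hg1 : ∀ x, a ≤ x → g x = 1) (hg0 : ∀ x, x ≤ -a → g x = 0) :
    2 * (trS ι G).T (cfc g (ext A)) = (trS ι G).T 1 + x := by
  obtain ⟨P, hP⟩ := exists_signSeq
  have h1 : Tendsto (fun k => (tau (aeval A (P k))).re) atTop (nhds x) := by
    have := (Complex.continuous_re.tendsto (x : ℂ)).comp (hx P hP)
    rw [Complex.ofReal_re] at this
    exact this
  have hsa := ext_sa hA
  have hN : 0 ≤ (trS ι G).T 1 := (trS ι G).pos 1 zero_le_one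
  have h2 : Tendsto (fun k => (tau (aeval A (P k))).re) atTop
      (nhds (2 * (trS ι G).T (cfc g (ext A)) - (trS ι G).T 1)) := by
    rw [Metric.tendsto_nhds]
    intro ε hε
    have hpos : 0 < ε / ((trS ι G).T 1 + 1) := by positivity
    filter_upwards [hP a (L1 A) _ ha hpos] with k hk
    have e1 : (tau (aeval A (P k))).re = (trS ι G).T (cfc (fun x => (P k).eval x) (ext A)) := by
      rw [cfc_polynomial (P k) (ext A) hsa]
      have e2 : aeval (ext A) (P k) = ext (aeval A (P k)) :=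
        aeval_algHom_apply ((extH (ι := ι) (G := G)).restrictScalars ℝ) A (P k)
      rw [e2, trS_ext]
    have e3 : 2 * (trS ι G).T (cfc g (ext A)) - (trS ι G).T 1 =
        (trS ι G).T (cfc (fun x => 2 * g x - 1) (ext A)) := by
      rw [cfc_sub (fun x => 2 * g x) (fun _ => 1) (ext A), cfc_const_mul 2 g (ext A),
        cfc_const_one ℝ (ext A), map_sub, map_smul, smul_eq_mul]
    rw [e1, e3, Real.dist_eq]
    refine lt_of_le_of_lt (T_close (trS ι G) hsa (P k).continuous (by fun_prop)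
      (ε := ε / ((trS ι G).T 1 + 1)) fun x hx => ?_) ?_
    · have h3 := ext_spec hA h hx
      have h4 : |x| ≤ L1 A := (abs_le_norm_of_mem hx).trans (ext_norm_le A)
      have h5 := hk x h3 h4
      rw [sgn_eq ha hg1 hg0 h3] at h5
      exact h5
    · rw [div_mul_eq_mul_div, div_lt_iff₀ (by positivity)]
      nlinarith
  have h3 := tendsto_nhds_unique h1 h2
  linarith

end Pool.Agent.H748.Hom
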