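import Pool.Agent.H748.Art.Cplx
import Pool.Agent.H748.Hom.Op

/-!
# Matrices over group algebras as operators on a pre-Hilbert space
-/

set_option autoImplicit false
set_option linter.unusedSectionVars false

namespace Pool.Agent.H748.Hom

open Matrix Polynomial Pool.Agent.H748.Sig Pool.Agent.H748.Art
open scoped InnerProductSpace

variable {G Q : Type*} [Group G] [Group Q]
variable {ι : Type} [Fintype ι] [DecidableEq ι]

theorem coeff_one_comm (x y : MonoidAlgebra ℂ Q) : (x * y).coeff 1 = (y * x).coeff 1 := by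
  classical
  induction x using MonoidAlgebra.induction_linear with
  | zero => rw [zero_mul, mul_zero]
  | add x x' h h' =>
    rw [add_mul, mul_add, MonoidAlgebra.coeff_add, MonoidAlgebra.coeff_add, Finsupp.add_apply,
      Finsupp.add_apply, h, h']
  | single g a =>
    induction y using MonoidAlgebra.induction_linear with
    | zero => rw [zero_mul, mul_zero]
    | add y y' h h' =>
      rw [add_mul, mul_add, MonoidAlgebra.coeff_add, MonoidAlgebra.coeff_add, Finsupp.add_apply,
        Finsupp.add_apply, h, h']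
    | single h b =>
      rw [MonoidAlgebra.single_mul_single, MonoidAlgebra.single_mul_single,
        MonoidAlgebra.coeff_single, MonoidAlgebra.coeff_single, Finsupp.single_apply,
        Finsupp.single_apply, mul_comm a b]
      have : g * h = 1 ↔ h * g = 1 := mul_eq_one_iff_eq_inv.trans eq_inv_iff_mul_eq_one |>.trans
        (by rw [mul_eq_one_iff_inv_eq, eq_comm, eq_inv_iff_mul_eq_one])
      simp only [this]

theorem coeff_one_adj_mul (x y : MonoidAlgebra ℂ Q) :
    (adjE x * y).coeff 1 = y.coeff.sum fun g c => star (x.coeff g) * c := by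
  classical
  induction y using MonoidAlgebra.induction_linear with
  | zero => rw [mul_zero]; simp
  | add y y' h h' =>
    rw [mul_add, MonoidAlgebra.coeff_add, Finsupp.add_apply, h, h', MonoidAlgebra.coeff_add,
      Finsupp.sum_add_index']
    · intro g; rw [mul_zero]
    · intro g a b; rw [mul_add]
  | single g c =>
    rw [MonoidAlgebra.coeff_mul_single_apply, MonoidAlgebra.coeff_single,
      Finsupp.sum_single_index (by rw [mul_zero]), one_mul, adjE_coeff, inv_inv]

theorem adjE_smul (c : ℂ) (x : MonoidAlgebra ℂ Q) : adjE (c • x) = star c • adjE x := by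
  ext g
  rw [adjE_coeff, MonoidAlgebra.coeff_smul, MonoidAlgebra.coeff_smul, Finsupp.smul_apply,
    Finsupp.smul_apply, smul_eq_mul, smul_eq_mul, adjE_coeff, star_mul']

/-- the square norm -/
noncomputable def sn (x : MonoidAlgebra ℂ Q) : ℝ := x.coeff.sum fun _ c => ‖c‖ ^ 2

theorem sn_nonneg (x : MonoidAlgebra ℂ Q) : 0 ≤ sn x :=
  Finset.sum_nonneg fun _ _ => sq_nonneg _

theorem coeff_one_sn (x : MonoidAlgebra ℂ Q) : (adjE x * x).coeff 1 = (sn x : ℂ) := by
  rw [coeff_one_adj_mul, sn, Finsupp.sum, Finsupp.sum, Complex.ofReal_sum]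
  refine Finset.sum_congr rfl fun g _ => ?_
  rw [Complex.star_def, Complex.conj_mul']
  push_cast
  rfl

theorem sn_eq_zero {x : MonoidAlgebra ℂ Q} (h : sn x = 0) : x = 0 := by
  ext g
  by_contra hc
  have h1 : ‖x.coeff g‖ ^ 2 ≤ sn x :=
    Finset.single_le_sum (f := fun g => ‖x.coeff g‖ ^ 2) (fun _ _ => sq_nonneg _)
      (Finsupp.mem_support_iff.2 hc)
  rw [h] at h1
  have h2 : 0 < ‖x.coeff g‖ := norm_pos_iff.2 hc
  have h3 : 0 < ‖x.coeff g‖ ^ 2 := by positivity
  linarith

/-- column vectors over the group algebra -/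
def Vc (ι : Type) (Q : Type*) [Group Q] : Type _ := ι → MonoidAlgebra ℂ Q

noncomputable instance : AddCommGroup (Vc ι Q) :=
  inferInstanceAs (AddCommGroup (ι → MonoidAlgebra ℂ Q))

noncomputable instance : Module ℂ (Vc ι Q) := inferInstanceAs (Module ℂ (ι → MonoidAlgebra ℂ Q))

/-- the inner product -/
@[instance_reducible]
noncomputable def core : InnerProductSpace.Core ℂ (Vc ι Q) where
  inner v w := ∑ i, (adjE (v i) * w i).coeff 1
  conj_inner_symm v w := by
    show star (∑ i, (adjE (w i) * v i).coeff 1) = ∑ i, (adjE (v i) * w i).coeff 1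
    rw [star_sum]
    refine Finset.sum_congr rfl fun i _ => ?_
    have h1 : adjE (adjE (w i) * v i) = adjE (v i) * w i := by rw [adjE_mul, adjE_adjE]
    rw [← h1, adjE_coeff, inv_one]
  re_inner_nonneg v := by
    show 0 ≤ (∑ i, (adjE (v i) * v i).coeff 1 : ℂ).re
    rw [Complex.re_sum]
    refine Finset.sum_nonneg fun i _ => ?_
    rw [coeff_one_sn, Complex.ofReal_re]
    exact sn_nonneg _
  add_left v w u := by
    show ∑ i, (adjE (v i + w i) * u i).coeff 1 = _
    rw [← Finset.sum_add_distrib]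
    refine Finset.sum_congr rfl fun i _ => ?_
    rw [adjE_add, add_mul, MonoidAlgebra.coeff_add, Finsupp.add_apply]
  smul_left v w c := by
    show ∑ i, (adjE (c • v i) * w i).coeff 1 = star c * ∑ i, (adjE (v i) * w i).coeff 1
    rw [Finset.mul_sum]
    refine Finset.sum_congr rfl fun i _ => ?_
    rw [adjE_smul, smul_mul_assoc, MonoidAlgebra.coeff_smul, Finsupp.smul_apply, smul_eq_mul]
  definite v h := by
    have h1 : ((∑ i, sn (v i) : ℝ) : ℂ) = 0 := by
      rw [← h]
      show _ = ∑ i, (adjE (v i) * v i).coeff 1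
      rw [Complex.ofReal_sum]
      exact Finset.sum_congr rfl fun i _ => (coeff_one_sn _).symm
    have h2 : ∑ i, sn (v i) = 0 := by exact_mod_cast h1
    have h3 := (Finset.sum_eq_zero_iff_of_nonneg fun i _ => sn_nonneg (v i)).1 h2
    funext i
    exact sn_eq_zero (h3 i (Finset.mem_univ i))

noncomputable instance : NormedAddCommGroup (Vc ι Q) :=
  @InnerProductSpace.Core.toNormedAddCommGroup ℂ _ _ _ _ core

noncomputable instance : InnerProductSpace ℂ (Vc ι Q) := InnerProductSpace.ofCore core.toCore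

theorem inner_def (v w : Vc ι Q) : ⟪v, w⟫_ℂ = ∑ i, (adjE (v i) * w i).coeff 1 := rfl

theorem norm_sq_eq (v : Vc ι Q) : ‖v‖ ^ 2 = ∑ i, sn (v i) := by
  have h1 : ((‖v‖ ^ 2 : ℝ) : ℂ) = ((∑ i, sn (v i) : ℝ) : ℂ) := by
    rw [Complex.ofReal_sum, Finset.sum_congr rfl fun i _ => (coeff_one_sn (v i)).symm, ← inner_def,
      inner_self_eq_norm_sq_to_K]
    push_cast
    rfl
  exact_mod_cast h1

/-- the action of matrices on vectors -/
noncomputable def act : Matrix ι ι (MonoidAlgebra ℂ Q) →ₐ[ℂ] Module.End ℂ (Vc ι Q) where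
  toFun X :=
    { toFun := fun v => (X *ᵥ v : ι → MonoidAlgebra ℂ Q)
      map_add' := fun v w => Matrix.mulVec_add X v w
      map_smul' := fun c v => Matrix.mulVec_smul X c v }
  map_one' := LinearMap.ext fun v => Matrix.one_mulVec v
  map_mul' X Y := LinearMap.ext fun v => (Matrix.mulVec_mulVec v X Y).symm
  map_zero' := LinearMap.ext fun v => Matrix.zero_mulVec v
  map_add' X Y := LinearMap.ext fun v => Matrix.add_mulVec X Y v
  commutes' c := by
    refine LinearMap.ext fun v => ?_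
    have h1 : ∀ v : ι → MonoidAlgebra ℂ Q,
        (algebraMap ℂ (Matrix ι ι (MonoidAlgebra ℂ Q)) c) *ᵥ v = c • v := by
      intro v
      rw [Algebra.algebraMap_eq_smul_one, Matrix.smul_mulVec, Matrix.one_mulVec]
    exact h1 v

theorem act_apply (X : Matrix ι ι (MonoidAlgebra ℂ Q)) (v : Vc ι Q) (i : ι) :
    act X v i = ∑ j, X i j * v j := rfl

theorem inner_act (X : Matrix ι ι (MonoidAlgebra ℂ Q)) (v w : Vc ι Q) :
    ⟪act X v, w⟫_ℂ = ⟪v, act (adj X) w⟫_ℂ := by
  rw [inner_def, inner_def]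
  have h1 : ∀ i, (adjE (act X v i) * w i).coeff 1 =
      ∑ j, (adjE (v j) * (adjE (X i j) * w i)).coeff 1 := by
    intro i
    rw [act_apply, adjE_sum, Finset.sum_mul, MonoidAlgebra.coeff_sum, Finsupp.finsetSum_apply]
    refine Finset.sum_congr rfl fun j _ => ?_
    rw [adjE_mul, mul_assoc]
  have h2 : ∀ j, (adjE (v j) * act (adj X) w j).coeff 1 =
      ∑ i, (adjE (v j) * (adjE (X i j) * w i)).coeff 1 := by
    intro j
    rw [act_apply, Finset.mul_sum, MonoidAlgebra.coeff_sum, Finsupp.finsetSum_apply]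
    rfl
  rw [Finset.sum_congr rfl fun i _ => h1 i, Finset.sum_congr rfl fun j _ => h2 j, Finset.sum_comm]

theorem sym_act {X : Matrix ι ι (MonoidAlgebra ℂ Q)} (h : adj X = X) : Sym (act X) := by
  intro v w
  rw [inner_act, h]

/-- the canonical trace -/
noncomputable def tau (X : Matrix ι ι (MonoidAlgebra ℂ Q)) : ℂ := ∑ i, (X i i).coeff 1

theorem tau_add (X Y : Matrix ι ι (MonoidAlgebra ℂ Q)) : tau (X + Y) = tau X + tau Y := by
  unfold tau
  rw [← Finset.sum_add_distrib]
  refine Finset.sum_congr rfl fun i _ => ?_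
  rw [Matrix.add_apply, MonoidAlgebra.coeff_add, Finsupp.add_apply]

theorem tau_smul (c : ℂ) (X : Matrix ι ι (MonoidAlgebra ℂ Q)) : tau (c • X) = c * tau X := by
  unfold tau
  rw [Finset.mul_sum]
  refine Finset.sum_congr rfl fun i _ => ?_
  rw [Matrix.smul_apply, MonoidAlgebra.coeff_smul, Finsupp.smul_apply, smul_eq_mul]

/-- the canonical trace as a linear map -/
noncomputable def tauL : Matrix ι ι (MonoidAlgebra ℂ Q) →ₗ[ℂ] ℂ where
  toFun := tau
  map_add' := tau_add
  map_smul' c X := by rw [tau_smul]; rfl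

theorem tauL_apply (X : Matrix ι ι (MonoidAlgebra ℂ Q)) : tauL X = tau X := rfl

theorem tau_comm (X Y : Matrix ι ι (MonoidAlgebra ℂ Q)) : tau (X * Y) = tau (Y * X) := by
  unfold tau
  have h1 : ∀ X Y : Matrix ι ι (MonoidAlgebra ℂ Q), ∑ i, ((X * Y) i i).coeff 1 =
      ∑ i, ∑ j, (X i j * Y j i).coeff 1 := by
    intro X Y
    refine Finset.sum_congr rfl fun i _ => ?_
    rw [Matrix.mul_apply, MonoidAlgebra.coeff_sum, Finsupp.finsetSum_apply]
  rw [h1, h1, Finset.sum_comm]
  exact Finset.sum_congr rfl fun i _ => Finset.sum_congr rfl fun j _ => coeff_one_comm _ _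

theorem norm_le_of_sq {x y : ℝ} (hy : 0 ≤ y) (h : x ^ 2 ≤ y ^ 2) : x ≤ y := le_of_sq_le_sq h hy

theorem norm_tau_le {X : Matrix ι ι (MonoidAlgebra ℂ Q)} {K : ℝ} (h : Bd (act X) K) :
    ‖tau X‖ ≤ Fintype.card ι * K := by
  classical
  have h1 : ∀ i, ‖(X i i).coeff 1‖ ≤ K := by
    intro i
    set e : Vc ι Q := (Pi.single i 1 : ι → MonoidAlgebra ℂ Q) with he
    have h2 : ⟪e, act X e⟫_ℂ = (X i i).coeff 1 := by
      rw [inner_def, Finset.sum_eq_single i]
      · have h3 : act X e i = X i i := by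
          rw [act_apply, Finset.sum_eq_single i]
          · rw [he, Pi.single_eq_same, mul_one]
          · intro j _ hj
            rw [he, Pi.single_eq_of_ne hj, mul_zero]
          · intro hc
            exact absurd (Finset.mem_univ i) hc
        rw [h3, he, Pi.single_eq_same, MonoidAlgebra.one_def, adjE_single, inv_one, star_one,
          ← MonoidAlgebra.one_def, one_mul]
      · intro j _ hj
        rw [he, Pi.single_eq_of_ne hj, adjE_zero, zero_mul]
        rfl
      · intro hc
        exact absurd (Finset.mem_univ i) hc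
    have h3 : ‖e‖ = 1 := by
      have h4 : ‖e‖ ^ 2 = 1 := by
        rw [norm_sq_eq, Finset.sum_eq_single i]
        · rw [he, Pi.single_eq_same, sn, MonoidAlgebra.one_def, MonoidAlgebra.coeff_single,
            Finsupp.sum_single_index (by simp)]
          simp
        · intro j _ hj
          rw [he, Pi.single_eq_of_ne hj, sn, MonoidAlgebra.coeff_zero, Finsupp.sum_zero_index]
        · intro hc
          exact absurd (Finset.mem_univ i) hc
      nlinarith [norm_nonneg e]
    rw [← h2]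
    calc ‖⟪e, act X e⟫_ℂ‖ ≤ ‖e‖ * ‖act X e‖ := norm_inner_le_norm _ _
      _ ≤ 1 * (K * 1) := by
          rw [h3]
          have := h e
          rw [h3] at this
          linarith
      _ = K := by ring
  calc ‖tau X‖ ≤ ∑ i, ‖(X i i).coeff 1‖ := norm_sum_le _ _
    _ ≤ ∑ _i : ι, K := Finset.sum_le_sum fun i _ => h1 i
    _ = _ := by rw [Finset.sum_const, Finset.card_univ, nsmul_eq_mul]

/-- unitary homomorphisms to a group algebra -/
def UH (Φ : G →* MonoidAlgebra ℂ Q) : Prop := ∀ g, adjE (Φ g) = Φ g⁻¹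

/-- the extension to matrices over the group algebra -/
noncomputable def mp (Φ : G →* MonoidAlgebra ℂ Q) :
    Matrix ι ι (MonoidAlgebra ℂ G) →ₐ[ℂ] Matrix ι ι (MonoidAlgebra ℂ Q) :=
  (MonoidAlgebra.lift ℂ (MonoidAlgebra ℂ Q) G Φ).mapMatrix

theorem mp_apply (Φ : G →* MonoidAlgebra ℂ Q) (A : Matrix ι ι (MonoidAlgebra ℂ G)) (i j : ι) :
    mp Φ A i j = MonoidAlgebra.lift ℂ (MonoidAlgebra ℂ Q) G Φ (A i j) := rfl

theorem lift_adjE {Φ : G →* MonoidAlgebra ℂ Q} (hΦ : UH Φ) (x : MonoidAlgebra ℂ G) :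
    MonoidAlgebra.lift ℂ (MonoidAlgebra ℂ Q) G Φ (adjE x) =
      adjE (MonoidAlgebra.lift ℂ (MonoidAlgebra ℂ Q) G Φ x) := by
  induction x using MonoidAlgebra.induction_linear with
  | zero => rw [adjE_zero, map_zero, adjE_zero]
  | add x y hx hy => rw [adjE_add, map_add, map_add, adjE_add, hx, hy]
  | single g c =>
    rw [adjE_single, MonoidAlgebra.lift_single, MonoidAlgebra.lift_single, adjE_smul, hΦ]

theorem mp_adj {Φ : G →* MonoidAlgebra ℂ Q} (hΦ : UH Φ) (A : Matrix ι ι (MonoidAlgebra ℂ G)) :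
    mp Φ (adj A) = adj (mp Φ A) := by
  ext i j : 1
  exact lift_adjE hΦ (A j i)

theorem norm_sn_le (v : Vc ι Q) (j : ι) : sn (v j) ≤ ‖v‖ ^ 2 := by
  rw [norm_sq_eq]
  exact Finset.single_le_sum (f := fun i => sn (v i)) (fun _ _ => sn_nonneg _) (Finset.mem_univ j)

theorem sn_unitary {Φ : G →* MonoidAlgebra ℂ Q} (hΦ : UH Φ) (g : G) (x : MonoidAlgebra ℂ Q) :
    sn (Φ g * x) = sn x := by
  have h1 : ((sn (Φ g * x) : ℝ) : ℂ) = ((sn x : ℝ) : ℂ) := by
    have h2 : Φ g⁻¹ * Φ g = 1 := by rw [← map_mul Φ, inv_mul_cancel, map_one Φ]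
    rw [← coeff_one_sn, ← coeff_one_sn, adjE_mul, hΦ, mul_assoc, ← mul_assoc (Φ g⁻¹), h2, one_mul]
  exact_mod_cast h1

/-- the operators given by unitary homomorphisms are bounded -/
theorem bd_mp {Φ : G →* MonoidAlgebra ℂ Q} (hΦ : UH Φ) (A : Matrix ι ι (MonoidAlgebra ℂ G)) :
    Bd (act (mp Φ A)) (L1 A) := by
  classical
  intro v
  -- elementary vectors
  let w : ι → MonoidAlgebra ℂ Q → Vc ι Q := fun i x => (Pi.single i x : ι → MonoidAlgebra ℂ Q)
  have hw : ∀ (i j : ι) (g : G), ‖w i (Φ g * v j)‖ ≤ ‖v‖ := by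
    intro i j g
    apply norm_le_of_sq (norm_nonneg _)
    rw [norm_sq_eq (w i (Φ g * v j)), Finset.sum_eq_single i]
    · show sn ((Pi.single i (Φ g * v j) : ι → MonoidAlgebra ℂ Q) i) ≤ _
      rw [Pi.single_eq_same, sn_unitary hΦ]
      exact norm_sn_le v j
    · intro k _ hk
      show sn ((Pi.single i (Φ g * v j) : ι → MonoidAlgebra ℂ Q) k) = 0
      rw [Pi.single_eq_of_ne hk, sn, MonoidAlgebra.coeff_zero, Finsupp.sum_zero_index]
    · intro hc
      exact absurd (Finset.mem_univ i) hc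
  have hdec : act (mp Φ A) v = ∑ i, ∑ j, ∑ g ∈ (A i j).coeff.support,
      (A i j).coeff g • w i (Φ g * v j) := by
    funext i
    rw [act_apply]
    let E : Vc ι Q →+ MonoidAlgebra ℂ Q :=
      { toFun := fun v => v i
        map_zero' := rfl
        map_add' := fun _ _ => rfl }
    have h1 : (∑ i', ∑ j, ∑ g ∈ (A i' j).coeff.support,
        (A i' j).coeff g • w i' (Φ g * v j) : Vc ι Q) i =
        ∑ i', ∑ j, ∑ g ∈ (A i' j).coeff.support, (A i' j).coeff g • (w i' (Φ g * v j) i) := by
      show E (∑ i', ∑ j, ∑ g ∈ (A i' j).coeff.support,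
        (A i' j).coeff g • w i' (Φ g * v j)) = _
      rw [map_sum]
      refine Finset.sum_congr rfl fun i' _ => ?_
      rw [map_sum]
      refine Finset.sum_congr rfl fun j _ => ?_
      rw [map_sum]
      rfl
    rw [h1]
    symm
    rw [Finset.sum_eq_single i]
    · refine Finset.sum_congr rfl fun j _ => ?_
      rw [mp_apply, MonoidAlgebra.lift_apply, Finsupp.sum, Finset.sum_mul]
      refine Finset.sum_congr rfl fun g _ => ?_
      show ((A i j).coeff g) • ((Pi.single i (Φ g * v j) : ι → MonoidAlgebra ℂ Q) i) =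
        (((A i j).coeff g) • Φ g) * v j
      rw [Pi.single_eq_same, smul_mul_assoc]
    · intro k _ hk
      refine Finset.sum_eq_zero fun j _ => ?_
      refine Finset.sum_eq_zero fun g _ => ?_
      show ((A k j).coeff g) • ((Pi.single k (Φ g * v j) : ι → MonoidAlgebra ℂ Q) i) = 0
      rw [Pi.single_eq_of_ne (Ne.symm hk), smul_zero]
    · intro hc
      exact absurd (Finset.mem_univ i) hc
  rw [hdec, L1, Finset.sum_mul]
  refine (norm_sum_le _ _).trans (Finset.sum_le_sum fun i _ => ?_)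
  rw [Finset.sum_mul]
  refine (norm_sum_le _ _).trans (Finset.sum_le_sum fun j _ => ?_)
  rw [l1, Finsupp.sum, Finset.sum_mul]
  refine (norm_sum_le _ _).trans (Finset.sum_le_sum fun g _ => ?_)
  rw [norm_smul]
  exact mul_le_mul_of_nonneg_left (hw i j g) (norm_nonneg _)

end Pool.Agent.H748.Hom
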